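import Pool.Agent.H45.Lib.Ts3997aac3.Q276.PL.Stm
import Pool.Agent.H45.Lib.Ts3997aac3.Q247.PL.Str

/-! Algebra: quadratic extensions attached to an irreducible polynomial of odd degree. -/

set_option autoImplicit false

namespace Pool.Agent.H45.PF

open Polynomial Pool.Agent.W223.HZ Pool.Agent.W223.PL Pool.Agent.Q276.PL

/-- the polynomials considered -/
structure Fam (k : ℕ) (l : ℤ[X]) : Prop where
  deg : l.natDegree ≤ k
  irr : Irreducible (l.map (Int.castRingHom ℚ))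
  odd : Odd l.natDegree
  prim : l.IsPrimitive

/-- a rational number which is a square in an extension of odd degree is a square -/
theorem sq_odd {l : ℚ[X]} (hl : Irreducible l) (hodd : Odd l.natDegree) (n : ℚ) (hn : n ≠ 0)
    (w q : ℚ[X]) (hq : ¬ l ∣ q) (h : l ∣ w ^ 2 - C n * q ^ 2) : IsSquare n := by
  haveI : Fact (Irreducible l) := ⟨hl⟩
  have hl0 : l ≠ 0 := hl.ne_zero
  have hq0 : AdjoinRoot.mk l q ≠ 0 := by
    rw [Ne, AdjoinRoot.mk_eq_zero]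
    exact hq
  have h1 : (AdjoinRoot.mk l w) ^ 2 = algebraMap ℚ (AdjoinRoot l) n * (AdjoinRoot.mk l q) ^ 2 := by
    have h2 : AdjoinRoot.mk l (w ^ 2 - C n * q ^ 2) = 0 := AdjoinRoot.mk_eq_zero.2 h
    rw [map_sub, map_mul, map_pow, map_pow, sub_eq_zero] at h2
    rw [h2]
    rfl
  obtain ⟨α, hα⟩ : ∃ α, α = AdjoinRoot.mk l w / AdjoinRoot.mk l q := ⟨_, rfl⟩
  have h3 : α ^ 2 = algebraMap ℚ (AdjoinRoot l) n := by
    rw [hα, div_pow, h1]
    field_simp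
  have h4 : (Algebra.norm ℚ α) ^ 2 = n ^ l.natDegree := by
    rw [← map_pow, h3, Algebra.norm_algebraMap,
      (AdjoinRoot.powerBasis hl0).finrank, AdjoinRoot.powerBasis_dim hl0]
  obtain ⟨j, hj⟩ := hodd
  refine ⟨Algebra.norm ℚ α / n ^ j, ?_⟩
  rw [hj] at h4
  have h5 : n ^ j ≠ 0 := pow_ne_zero j hn
  field_simp
  rw [h4]
  ring

theorem nsqf (k : ℕ) (l : ℤ[X]) (hl : Fam k l) (P Q : ℤ[X]) (n : ℤ)
    (hcop : IsCoprime (P.map (Int.castRingHom ℚ)) (Q.map (Int.castRingHom ℚ)))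
    (hn : ¬ IsSquare n) : NonSq (C n * (Q ^ 2 - l * P ^ 2)) := by
  intro P₁ P₂ hne h0
  have hn0 : (n : ℚ) ≠ 0 := by
    intro h
    exact hn (by rw [Int.cast_eq_zero.mp h]; exact IsSquare.zero)
  obtain ⟨φ, hφ⟩ : ∃ φ, φ = Int.castRingHom ℚ := ⟨_, rfl⟩
  have hinj : Function.Injective (Polynomial.map φ) := by
    rw [hφ]
    exact Polynomial.map_injective _ Int.cast_injective
  have hirr := hl.irr
  have hodd : Odd (l.map φ).natDegree := by
    rw [hφ, natDegree_map_eq_of_injective Int.cast_injective]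
    exact hl.odd
  rw [← hφ] at hcop hirr
  obtain ⟨p, hp⟩ : ∃ p, p = P.map φ := ⟨_, rfl⟩
  obtain ⟨q, hq⟩ : ∃ q, q = Q.map φ := ⟨_, rfl⟩
  obtain ⟨lq, hlq⟩ : ∃ q, q = l.map φ := ⟨_, rfl⟩
  obtain ⟨p₁, hp₁⟩ : ∃ p, p = P₁.map φ := ⟨_, rfl⟩
  obtain ⟨p₂, hp₂⟩ : ∃ p, p = P₂.map φ := ⟨_, rfl⟩
  rw [← hlq] at hirr hodd
  have hE : p₁ ^ 2 = p₂ ^ 2 * (C (n : ℚ) * (q ^ 2 - lq * p ^ 2)) := by
    have h1 := congrArg (Polynomial.map φ) (sub_eq_zero.mp h0)
    simp only [Polynomial.map_pow, Polynomial.map_mul, Polynomial.map_sub, Polynomial.map_C] at h1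
    rw [hp, hq, hp₁, hp₂, hlq, h1, hφ]
    simp
  have hp₂0 : p₂ ≠ 0 := by
    intro h
    have h1 : P₂ = 0 := by
      apply hinj
      rw [← hp₂, h, Polynomial.map_zero]
    rw [h, zero_pow two_ne_zero, zero_mul] at hE
    have h2 : P₁ = 0 := by
      apply hinj
      rw [← hp₁, Polynomial.map_zero]
      exact pow_eq_zero_iff two_ne_zero |>.mp hE
    rcases hne with h3 | h3
    · exact h3 h2
    · exact h3 h1
  have hdvd : p₂ ∣ p₁ := (IsIntegrallyClosed.pow_dvd_pow_iff two_ne_zero).mp ⟨_, hE⟩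
  obtain ⟨w, hw⟩ := hdvd
  have hW : w ^ 2 = C (n : ℚ) * (q ^ 2 - lq * p ^ 2) := by
    have h1 : p₂ ^ 2 * w ^ 2 = p₂ ^ 2 * (C (n : ℚ) * (q ^ 2 - lq * p ^ 2)) := by
      rw [← hE, hw]; ring
    exact mul_left_cancel₀ (pow_ne_zero 2 hp₂0) h1
  have hqd : lq ∣ q := by
    by_contra hqd
    apply hn
    rw [← Rat.isSquare_intCast_iff]
    refine sq_odd hirr hodd n hn0 w q hqd ⟨-(C (n : ℚ) * p ^ 2), ?_⟩
    rw [hW]
    ring
  have hprime : Prime lq := hirr.prime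
  have hwd : lq ∣ w := by
    apply hprime.dvd_of_dvd_pow (n := 2)
    rw [hW]
    exact (dvd_sub (hqd.trans (dvd_pow_self q two_ne_zero)) (dvd_mul_right _ _)).mul_left _
  obtain ⟨q', hq'⟩ := hqd
  obtain ⟨w', hw'⟩ := hwd
  have hV : lq * w' ^ 2 = C (n : ℚ) * (lq * q' ^ 2 - p ^ 2) := by
    apply mul_left_cancel₀ hirr.ne_zero
    have h1 := hW
    rw [hq', hw'] at h1
    linear_combination h1
  have hpd : lq ∣ p := by
    have h1 : lq ∣ C (n : ℚ) * p ^ 2 := by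
      refine ⟨C (n : ℚ) * q' ^ 2 - w' ^ 2, ?_⟩
      linear_combination hV
    have h2 : IsUnit (C (n : ℚ)) := isUnit_C.2 (isUnit_iff_ne_zero.2 hn0)
    have h3 : lq ∣ p ^ 2 := (h2.dvd_mul_left).1 h1
    exact hprime.dvd_of_dvd_pow h3
  exact hirr.not_isUnit (hcop.isUnit_of_dvd' (hp ▸ hpd) (hq ▸ (hq' ▸ dvd_mul_right lq q')))

theorem copf {a b l H : ℚ[X]} (hl : Irreducible l) (hco : IsCoprime a b) (ha : a ≠ 0)
    (hH : H ^ 2 = b ^ 2 - l * a ^ 2) : IsCoprime (b - H) (b + H) := by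
  have hl0 : l ≠ 0 := hl.ne_zero
  have hprod : (b - H) * (b + H) = l * a ^ 2 := by linear_combination -hH
  apply isCoprime_of_irreducible_dvd
  · rintro ⟨h1, h2⟩
    rw [h1, zero_mul] at hprod
    exact mul_ne_zero hl0 (pow_ne_zero 2 ha) hprod.symm
  · intro π hπ h1 h2
    have h2b : π ∣ b := by
      have h3 : π ∣ C (2 : ℚ)⁻¹ * ((b - H) + (b + H)) := (dvd_add h1 h2).mul_left _
      have h4 : C (2 : ℚ)⁻¹ * ((b - H) + (b + H)) = b := by
        have : (b - H) + (b + H) = C (2 : ℚ) * b := by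
          have h2' : (C (2 : ℚ) : ℚ[X]) = 2 := rfl
          rw [h2']; ring
        rw [this, ← mul_assoc, ← C_mul, inv_mul_cancel₀ (by norm_num), C_1, one_mul]
      rwa [h4] at h3
    have h5 : π ^ 2 ∣ l * a ^ 2 := by
      rw [← hprod, pow_two]
      exact mul_dvd_mul h1 h2
    by_cases h6 : π ∣ a
    · exact hπ.not_isUnit (hco.isUnit_of_dvd' h6 h2b)
    · have h7 : IsCoprime π a := (hπ.coprime_iff_not_dvd).2 h6
      have h8 : π ^ 2 ∣ l := (h7.pow (m := 2) (n := 2)).dvd_of_dvd_mul_right h5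
      exact hπ.not_isUnit ((hl.squarefree) π (by rwa [← pow_two]))

theorem facf {a b l H : ℚ[X]} (hl : Irreducible l) (hco : IsCoprime a b) (ha : a ≠ 0)
    (hH : H ^ 2 = b ^ 2 - l * a ^ 2) (hd : l ∣ b - H) :
    ∃ (c : ℚ) (S T : ℚ[X]), c ≠ 0 ∧ a = S * T ∧ b + H = C c * T ^ 2 := by
  have hl0 : l ≠ 0 := hl.ne_zero
  have hc := copf hl hco ha hH
  obtain ⟨K, hK⟩ := hd
  have h1 : (b + H) * K = a ^ 2 := by
    have : l * ((b + H) * K) = l * a ^ 2 := by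
      calc l * ((b + H) * K) = (l * K) * (b + H) := by ring
        _ = (b - H) * (b + H) := by rw [hK]
        _ = l * a ^ 2 := by linear_combination -hH
    exact mul_left_cancel₀ hl0 this
  have h2 : IsCoprime (b + H) K := by
    rw [hK] at hc
    exact (hc.of_mul_left_right).symm
  obtain ⟨T, u, hT⟩ := exists_associated_pow_of_mul_eq_pow' h2 h1
  have h3 : T ∣ a := by
    have : T ^ 2 ∣ a ^ 2 := by
      rw [← h1, ← hT]
      exact Dvd.intro _ (by ring : T ^ 2 * (u * K) = T ^ 2 * u * K)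
    exact (IsIntegrallyClosed.pow_dvd_pow_iff two_ne_zero).1 this
  obtain ⟨S, hS⟩ := h3
  obtain ⟨c, hc1, hc2⟩ := Polynomial.isUnit_iff.1 u.isUnit
  refine ⟨c, S, T, hc1.ne_zero, by rw [hS]; ring, ?_⟩
  rw [← hT, ← hc2]
  ring

theorem strf (k : ℕ) (l : ℤ[X]) (hl : Fam k l) (m : ℕ) (A B : ℤ[X]) (hA : A ≠ 0)
    (hAm : A.natDegree < m)
    (hco : IsCoprime (A.map (Int.castRingHom ℚ)) (B.map (Int.castRingHom ℚ)))
    (hns : ¬ NonSq (B ^ 2 - l * A ^ 2)) : ∃ P Q : ℤ[X], (P ≠ 0 ∨ Q ≠ 0) ∧ P.natDegree < m ∧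
    Q.natDegree < m ∧ ∀ τ x y g : ℤ, g ≠ 0 → 1 ≤ y → x ^ 2 - l.eval τ * y ^ 2 = 1 →
      A.eval τ = y * g → B.eval τ = - x * g →
      ((x - 1) * P.eval τ + y * Q.eval τ = 0 ∨ (x + 1) * P.eval τ + y * Q.eval τ = 0) := by
  unfold NonSq at hns
  push Not at hns
  obtain ⟨P₁, P₂, hne, heq⟩ := hns
  have hφ : Function.Injective (Int.castRingHom ℚ) := Int.cast_injective
  have hP2 : P₂ ≠ 0 := by
    rintro rfl
    have : P₁ ^ 2 = 0 := by simpa using heq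
    have h1 : P₁ = 0 := by simpa using this
    rcases hne with h | h
    · exact h h1
    · exact h rfl
  have hirr := hl.irr
  have e1 : (P₁.map (Int.castRingHom ℚ)) ^ 2 = (P₂.map (Int.castRingHom ℚ)) ^ 2 *
      ((B.map (Int.castRingHom ℚ)) ^ 2 - (l.map (Int.castRingHom ℚ)) *
        (A.map (Int.castRingHom ℚ)) ^ 2) := by
    have h1 : P₁ ^ 2 = P₂ ^ 2 * (B ^ 2 - l * A ^ 2) := by
      linear_combination heq
    have h2 := congrArg (Polynomial.map (Int.castRingHom ℚ)) h1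
    simpa using h2
  have ha : A.map (Int.castRingHom ℚ) ≠ 0 := (Polynomial.map_ne_zero_iff hφ).2 hA
  have hp2 : P₂.map (Int.castRingHom ℚ) ≠ 0 := (Polynomial.map_ne_zero_iff hφ).2 hP2
  have hadeg : (A.map (Int.castRingHom ℚ)).natDegree = A.natDegree :=
    natDegree_map_eq_of_injective hφ A
  have evA := Pool.Agent.Q247.PL.ev A
  have evB := Pool.Agent.Q247.PL.ev B
  have evl := Pool.Agent.Q247.PL.ev l
  generalize A.map (Int.castRingHom ℚ) = a at *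
  generalize B.map (Int.castRingHom ℚ) = b at *
  generalize l.map (Int.castRingHom ℚ) = lq at *
  generalize P₁.map (Int.castRingHom ℚ) = p₁ at *
  generalize P₂.map (Int.castRingHom ℚ) = p₂ at *
  have hdvd : p₂ ∣ p₁ := (IsIntegrallyClosed.pow_dvd_pow_iff two_ne_zero).1 ⟨_, e1⟩
  obtain ⟨H, rfl⟩ := hdvd
  have hH : H ^ 2 = b ^ 2 - lq * a ^ 2 := by
    have : p₂ ^ 2 * H ^ 2 = p₂ ^ 2 * (b ^ 2 - lq * a ^ 2) := by
      rw [← e1]; ring
    exact mul_left_cancel₀ (pow_ne_zero 2 hp2) this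
  have hlp : Prime lq := hirr.prime
  obtain ⟨H', hH', hd⟩ : ∃ H' : ℚ[X], H' ^ 2 = b ^ 2 - lq * a ^ 2 ∧ lq ∣ b - H' := by
    have h1 : lq ∣ (b - H) * (b + H) := ⟨a ^ 2, by linear_combination -hH⟩
    rcases hlp.dvd_or_dvd h1 with h | h
    · exact ⟨H, hH, h⟩
    · exact ⟨-H, by rw [neg_sq, hH], by rwa [sub_neg_eq_add]⟩
  obtain ⟨c, S, T, hc0, hST, hbT⟩ := facf hirr hco ha hH' hd
  have hS0 : S ≠ 0 := by rintro rfl; rw [zero_mul] at hST; exact ha hST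
  have hT0 : T ≠ 0 := by rintro rfl; rw [mul_zero] at hST; exact ha hST
  have hdeg : S.natDegree + T.natDegree = A.natDegree := by
    rw [← hadeg, hST, natDegree_mul hS0 hT0]
  obtain ⟨N₁, P₀, hN₁, hP₀⟩ := Pool.Agent.Q247.PL.intmult S
  obtain ⟨N₂, Q₀, hN₂, hQ₀⟩ := Pool.Agent.Q247.PL.intmult (C c * T)
  have hmapP : (C N₂ * P₀).map (Int.castRingHom ℚ) = C ((N₁ * N₂ : ℤ) : ℚ) * S := by
    rw [Polynomial.map_mul, hP₀, Polynomial.map_C]
    simp only [eq_intCast, Int.cast_mul, C_mul]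
    ring
  have hmapQ : (C N₁ * Q₀).map (Int.castRingHom ℚ) = C ((N₁ * N₂ : ℤ) : ℚ) * (C c * T) := by
    rw [Polynomial.map_mul, hQ₀, Polynomial.map_C]
    simp only [eq_intCast, Int.cast_mul, C_mul]
    ring
  have hN : ((N₁ * N₂ : ℤ) : ℚ) ≠ 0 := by exact_mod_cast mul_ne_zero hN₁ hN₂
  refine ⟨C N₂ * P₀, C N₁ * Q₀, Or.inl ?_, ?_, ?_, ?_⟩
  · intro h
    have h1 := hmapP
    rw [h, Polynomial.map_zero] at h1
    exact mul_ne_zero (C_ne_zero.2 hN) hS0 h1.symm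
  · rw [← natDegree_map_eq_of_injective hφ, hmapP, natDegree_C_mul hN]
    omega
  · rw [← natDegree_map_eq_of_injective hφ, hmapQ, natDegree_C_mul hN, natDegree_C_mul hc0]
    omega
  · intro τ x y g hg hy hxy hAτ hBτ
    have hAq : a.eval (τ : ℚ) = y * g := by rw [← evA, hAτ]; push_cast; ring
    have hBq : b.eval (τ : ℚ) = -x * g := by rw [← evB, hBτ]; push_cast; ring
    have hs : S.eval (τ : ℚ) * T.eval (τ : ℚ) = y * g := by
      rw [← hAq, hST, eval_mul]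
    have hxyq : (x : ℚ) ^ 2 - lq.eval (τ : ℚ) * (y : ℚ) ^ 2 = 1 := by
      rw [← evl]
      exact_mod_cast hxy
    have hh : (H'.eval (τ : ℚ)) ^ 2 = (g : ℚ) ^ 2 := by
      have h1 := congrArg (Polynomial.eval (τ : ℚ)) hH'
      simp only [eval_pow, eval_sub, eval_mul, hAq, hBq] at h1
      rw [h1]
      linear_combination (g : ℚ) ^ 2 * hxyq
    have ht : -x * g + H'.eval (τ : ℚ) = c * (T.eval (τ : ℚ)) ^ 2 := by
      have h1 := congrArg (Polynomial.eval (τ : ℚ)) hbT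
      simp only [eval_pow, eval_add, eval_mul, eval_C, hBq] at h1
      exact h1
    have hgq : (g : ℚ) ≠ 0 := by exact_mod_cast hg
    have hyq : (y : ℚ) ≠ 0 := by
      have : y ≠ 0 := by omega
      exact_mod_cast this
    have hT1 : T.eval (τ : ℚ) ≠ 0 := by
      intro h0
      rw [h0, mul_zero] at hs
      exact mul_ne_zero hyq hgq hs.symm
    have hPe : (((C N₂ * P₀).eval τ : ℤ) : ℚ) = ((N₁ * N₂ : ℤ) : ℚ) * S.eval (τ : ℚ) := by
      rw [Pool.Agent.Q247.PL.ev, hmapP, eval_mul, eval_C]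
    have hQe : (((C N₁ * Q₀).eval τ : ℤ) : ℚ) = ((N₁ * N₂ : ℤ) : ℚ) * (c * T.eval (τ : ℚ)) := by
      rw [Pool.Agent.Q247.PL.ev, hmapQ, eval_mul, eval_mul, eval_C, eval_C]
    rcases sq_eq_sq_iff_eq_or_eq_neg.1 hh with h | h
    · left
      have h3 : (((x - 1) * (C N₂ * P₀).eval τ + y * (C N₁ * Q₀).eval τ : ℤ) : ℚ) = 0 := by
        push_cast [hPe, hQe]
        have h4 : ((x : ℚ) - 1) * (((N₁ * N₂ : ℤ) : ℚ) * S.eval (τ : ℚ)) +
            y * (((N₁ * N₂ : ℤ) : ℚ) * (c * T.eval (τ : ℚ))) = 0 := by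
          apply mul_right_cancel₀ hT1
          rw [h] at ht
          linear_combination (x - 1) * ((N₁ * N₂ : ℤ) : ℚ) * hs - y * ((N₁ * N₂ : ℤ) : ℚ) * ht
        push_cast at h4
        exact h4
      exact_mod_cast h3
    · right
      have h3 : (((x + 1) * (C N₂ * P₀).eval τ + y * (C N₁ * Q₀).eval τ : ℤ) : ℚ) = 0 := by
        push_cast [hPe, hQe]
        have h4 : ((x : ℚ) + 1) * (((N₁ * N₂ : ℤ) : ℚ) * S.eval (τ : ℚ)) +
            y * (((N₁ * N₂ : ℤ) : ℚ) * (c * T.eval (τ : ℚ))) = 0 := by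
          apply mul_right_cancel₀ hT1
          rw [h] at ht
          linear_combination (x + 1) * ((N₁ * N₂ : ℤ) : ℚ) * hs - y * ((N₁ * N₂ : ℤ) : ℚ) * ht
        push_cast at h4
        exact h4
      exact_mod_cast h3

end Pool.Agent.H45.PF
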