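import Pool.Agent.H45.Lib.Ts3997aac3.Q208.PL.DPG

/-! A determinant bound: points near the graph of a polynomial of `τ / S`. -/

set_option autoImplicit false

namespace Pool.Agent.H45.PF

open Polynomial Finset Pool.Agent.W223.HZ Pool.Agent.W223.PL
open Pool.Agent.W19.HZ (exp_eq prod_pow_fin)

theorem expo (m : ℕ) (S L e : ℝ) (hS : 0 < S) (hL : 0 < L) (he : 0 < e) (Y : ℝ)
    (hY : ∀ u : ℤ, |u| ≤ m →
      e ^ ((m : ℤ) - u) * L ^ (m * (m - 1)) * (L / S) ^ (u.natAbs ^ 2) ≤ Y)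
    (s : ℕ) (hs : s ≤ m + m) :
    e ^ s * (L / S) ^ ((m + m - s) * (m + m - s - 1) / 2
      + s * (s - 1) / 2) ≤ (S ^ (m * (m - 1)))⁻¹ * Y := by
  rw [exp_eq m s hs]
  obtain ⟨N, hN⟩ : ∃ N, N = ((m : ℤ) - s).natAbs ^ 2 := ⟨_, rfl⟩
  have h1 := hY ((m : ℤ) - s) (by
    rw [abs_le]
    constructor
    · have : (s : ℤ) ≤ m + m := by exact_mod_cast hs
      linarith
    · have : (0 : ℤ) ≤ s := by positivity
      linarith)
  rw [← hN] at h1 ⊢
  have hVs : e ^ s = e ^ ((m : ℤ) - ((m : ℤ) - s)) := by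
    rw [sub_sub_cancel, zpow_natCast]
  have hLS : (L / S) ^ (m * (m - 1)) = (S ^ (m * (m - 1)))⁻¹ * L ^ (m * (m - 1)) := by
    rw [div_pow, div_eq_mul_inv, mul_comm]
  rw [hVs, pow_add, hLS]
  calc _ = (S ^ (m * (m - 1)))⁻¹ * (e ^ ((m : ℤ) - ((m : ℤ) - s)) * L ^ (m * (m - 1)) *
        (L / S) ^ N) := by ring
    _ ≤ _ := mul_le_mul_of_nonneg_left h1 (by positivity)

theorem fac_le (K m : ℕ) (hm : 1 ≤ m) :
    (((m + m).factorial : ℕ) : ℝ) * (2 * (((K + 2) * m : ℕ) : ℝ)) ^ (m + m) * 2 ^ (m + m) ≤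
      (1024 * ((K : ℝ) + 2) ^ 2) ^ (m ^ 2) := by
  have h1 : (((m + m).factorial : ℕ) : ℝ) ≤ ((2 : ℝ) * m) ^ (m + m) := by
    have := Nat.factorial_le_pow (m + m)
    calc (((m + m).factorial : ℕ) : ℝ) ≤ (((m + m) ^ (m + m) : ℕ) : ℝ) := by exact_mod_cast this
      _ = ((2 : ℝ) * m) ^ (m + m) := by push_cast; rw [two_mul]
  have hm' : (m : ℝ) ≤ 2 ^ m := by exact_mod_cast (Nat.lt_two_pow_self (n := m)).le
  have hm1 : (1 : ℝ) ≤ m := by exact_mod_cast hm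
  have hK : (0 : ℝ) ≤ K := Nat.cast_nonneg K
  have h2 : (((m + m).factorial : ℕ) : ℝ) * (2 * (((K + 2) * m : ℕ) : ℝ)) ^ (m + m) * 2 ^ (m + m) ≤
      (8 * ((K : ℝ) + 2) * m ^ 2) ^ (m + m) := by
    have e1 : (8 * ((K : ℝ) + 2) * m ^ 2) ^ (m + m) =
        ((2 : ℝ) * m) ^ (m + m) * (2 * (((K + 2) * m : ℕ) : ℝ)) ^ (m + m) * 2 ^ (m + m) := by
      rw [← mul_pow, ← mul_pow]
      congr 1
      push_cast
      ring
    rw [e1]
    gcongr
  refine h2.trans ?_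
  have h3 : (8 * ((K : ℝ) + 2) * m ^ 2) ^ (m + m) =
      ((8 * ((K : ℝ) + 2)) ^ 2) ^ m * ((m : ℝ) ^ 4) ^ m := by
    rw [← two_mul, pow_mul, ← mul_pow]
    congr 1
    ring
  rw [h3]
  have h4 : ((8 * ((K : ℝ) + 2)) ^ 2) ^ m ≤ ((8 * ((K : ℝ) + 2)) ^ 2) ^ (m ^ 2) := by
    apply pow_le_pow_right₀
    · nlinarith
    · nlinarith
  have h5 : ((m : ℝ) ^ 4) ^ m ≤ 16 ^ (m ^ 2) := by
    calc ((m : ℝ) ^ 4) ^ m ≤ (((2 : ℝ) ^ m) ^ 4) ^ m := by gcongr
      _ = 16 ^ (m ^ 2) := by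
          rw [← pow_mul, ← pow_mul, show (16 : ℝ) = 2 ^ 4 by norm_num, ← pow_mul]
          congr 1
          ring
  calc _ ≤ ((8 * ((K : ℝ) + 2)) ^ 2) ^ (m ^ 2) * 16 ^ (m ^ 2) := by gcongr
    _ = (1024 * ((K : ℝ) + 2) ^ 2) ^ (m ^ 2) := by
        rw [← mul_pow]
        congr 1
        ring

/-- **The determinant bound.** -/
theorem dpf (K m : ℕ) (S L e : ℝ) (hm : 1 ≤ m) (hS : 0 < S) (hL : 0 < L) (hLS : L ≤ S) (he : 0 < e)
    (p : ℝ[X]) (hp : p.natDegree ≤ K * m) (hc : ∀ n, |p.coeff n| ≤ 2)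
    (τ : Fin m ⊕ Fin m → ℤ) (y : Fin m ⊕ Fin m → ℝ) (hτ : ∀ i, |(τ i : ℝ)| ≤ L)
    (hy : ∀ i, |y i - p.eval ((τ i : ℝ) / S)| ≤ e) (Y : ℝ)
    (hY : ∀ u : ℤ, |u| ≤ m →
      e ^ ((m : ℤ) - u) * L ^ (m * (m - 1)) * (L / S) ^ (u.natAbs ^ 2) ≤ Y) :
    |Matrix.det (Matrix.of fun i : Fin m ⊕ Fin m =>
      Sum.elim (fun j : Fin m => (τ i : ℝ) ^ (j : ℕ)) (fun j : Fin m => y i * (τ i : ℝ) ^ (j : ℕ)))|
      ≤ (1024 * ((K : ℝ) + 2) ^ 2) ^ (m ^ 2) * Y := by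
  have hYpos : 0 < Y := by
    refine lt_of_lt_of_le ?_ (hY 0 (by simp))
    positivity
  have hδ : L / S ≤ 1 := by rwa [div_le_one hS]
  have key := @Pool.Agent.W803.HZ.DET.t (Fin m ⊕ Fin m) _ _ ((K + 2) * m)
    (fun k => Sum.elim (fun j => S ^ (j : ℕ) * (X ^ (j : ℕ) : ℝ[X]).coeff (k : ℕ))
      (fun j => S ^ (j : ℕ) * (p * X ^ (j : ℕ)).coeff (k : ℕ)))
    (fun k => Sum.elim (fun _ => 0) (fun j => S ^ (j : ℕ) * (X ^ (j : ℕ) : ℝ[X]).coeff (k : ℕ)))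
    (Sum.elim (fun j => 2 * S ^ (j : ℕ)) (fun j => 2 * S ^ (j : ℕ)))
    (by rintro (j | j) <;> simp only [Sum.elim_inl, Sum.elim_inr] <;> positivity)
    (by
      rintro k (j | j)
      · simp only [Sum.elim_inl]
        rw [abs_mul, abs_of_pos (pow_pos hS _), mul_comm, coeff_X_pow]
        refine mul_le_mul_of_nonneg_right ?_ (by positivity)
        split_ifs <;> norm_num
      · simp only [Sum.elim_inr]
        rw [abs_mul, abs_of_pos (pow_pos hS _), mul_comm, coeff_mul_X_pow']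
        refine mul_le_mul_of_nonneg_right ?_ (by positivity)
        split_ifs
        · exact hc _
        · norm_num)
    (by
      rintro k (j | j)
      · simp only [Sum.elim_inl]
        rw [abs_zero]
        positivity
      · simp only [Sum.elim_inr]
        rw [abs_mul, abs_of_pos (pow_pos hS _), mul_comm, coeff_X_pow]
        refine mul_le_mul_of_nonneg_right ?_ (by positivity)
        split_ifs <;> norm_num)
    (fun i => (τ i : ℝ) / S) (fun i => y i - p.eval ((τ i : ℝ) / S)) (L / S) e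
    (by
      intro i
      rw [abs_div, abs_of_pos hS]
      exact div_le_div_of_nonneg_right (hτ i) hS.le)
    hδ hy ((S ^ (m * (m - 1)))⁻¹ * Y)
    (by
      rw [Fintype.card_sum, Fintype.card_fin]
      exact fun s hs => expo m S L e hS hL he Y hY s hs)
  rw [Fintype.card_sum, Fintype.card_fin, Fintype.prod_sum_type] at key
  simp only [Sum.elim_inl, Sum.elim_inr] at key
  have hmat : (Matrix.of fun i j : Fin m ⊕ Fin m => ∑ k : Fin ((K + 2) * m),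
      ((τ i : ℝ) / S) ^ (k : ℕ) *
      (Sum.elim (fun j : Fin m => S ^ (j : ℕ) * (X ^ (j : ℕ) : ℝ[X]).coeff (k : ℕ))
      (fun j : Fin m => S ^ (j : ℕ) * (p * X ^ (j : ℕ)).coeff (k : ℕ)) j +
        (y i - p.eval ((τ i : ℝ) / S)) * Sum.elim (fun _ : Fin m => (0 : ℝ))
          (fun j : Fin m => S ^ (j : ℕ) * (X ^ (j : ℕ) : ℝ[X]).coeff (k : ℕ)) j)) =
      Matrix.of fun i : Fin m ⊕ Fin m =>
      Sum.elim (fun j : Fin m => (τ i : ℝ) ^ (j : ℕ))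
        (fun j : Fin m => y i * (τ i : ℝ) ^ (j : ℕ)) := by
    have hev : ∀ (q : ℝ[X]) (z : ℝ), q.natDegree < (K + 2) * m →
        q.eval z = ∑ k : Fin ((K + 2) * m), q.coeff (k : ℕ) * z ^ (k : ℕ) := by
      intro q z hq
      rw [eval_eq_sum_range' hq, Finset.sum_range]
    have hd1 : ∀ j : Fin m, (X ^ (j : ℕ) : ℝ[X]).natDegree < (K + 2) * m := by
      intro j
      rw [natDegree_X_pow]
      have := j.2
      nlinarith
    have hd2 : ∀ j : Fin m, (p * X ^ (j : ℕ) : ℝ[X]).natDegree < (K + 2) * m := by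
      intro j
      refine lt_of_le_of_lt natDegree_mul_le ?_
      rw [natDegree_X_pow]
      have := j.2
      nlinarith
    have hSne : S ≠ 0 := hS.ne'
    ext i j
    rcases j with j | j
    · simp only [Matrix.of_apply, Sum.elim_inl, mul_zero, add_zero]
      have h1 := hev (X ^ (j : ℕ)) ((τ i : ℝ) / S) (hd1 j)
      rw [eval_pow, eval_X] at h1
      calc _ = S ^ (j : ℕ) * ∑ k : Fin ((K + 2) * m), (X ^ (j : ℕ) : ℝ[X]).coeff (k : ℕ) *
            ((τ i : ℝ) / S) ^ (k : ℕ) := by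
            rw [Finset.mul_sum]
            exact Finset.sum_congr rfl fun k _ => by ring
        _ = (τ i : ℝ) ^ (j : ℕ) := by
            rw [← h1, ← mul_pow, mul_div_cancel₀ _ hSne]
    · simp only [Matrix.of_apply, Sum.elim_inr]
      have h1 := hev (X ^ (j : ℕ)) ((τ i : ℝ) / S) (hd1 j)
      have h2 := hev (p * X ^ (j : ℕ)) ((τ i : ℝ) / S) (hd2 j)
      rw [eval_pow, eval_X] at h1
      rw [eval_mul, eval_pow, eval_X] at h2
      calc _ = S ^ (j : ℕ) * ∑ k : Fin ((K + 2) * m), (p * X ^ (j : ℕ) : ℝ[X]).coeff (k : ℕ) *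
            ((τ i : ℝ) / S) ^ (k : ℕ) + (y i - p.eval ((τ i : ℝ) / S)) *
            (S ^ (j : ℕ) * ∑ k : Fin ((K + 2) * m), (X ^ (j : ℕ) : ℝ[X]).coeff (k : ℕ) *
            ((τ i : ℝ) / S) ^ (k : ℕ)) := by
            rw [Finset.mul_sum, Finset.mul_sum, Finset.mul_sum, ← Finset.sum_add_distrib]
            exact Finset.sum_congr rfl fun k _ => by ring
        _ = y i * (S ^ (j : ℕ) * ((τ i : ℝ) / S) ^ (j : ℕ)) := by
            rw [← h1, ← h2]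
            ring
        _ = y i * (τ i : ℝ) ^ (j : ℕ) := by
            rw [← mul_pow, mul_div_cancel₀ _ hSne]
  rw [hmat] at key
  have hprod : (∏ j : Fin m, 2 * S ^ (j : ℕ)) * (∏ j : Fin m, 2 * S ^ (j : ℕ)) =
      2 ^ (m + m) * S ^ (m * (m - 1)) := by
    rw [Finset.prod_mul_distrib, Finset.prod_const, Finset.card_univ, Fintype.card_fin,
      ← prod_pow_fin m S, pow_add]
    ring
  rw [hprod] at key
  refine key.trans ?_
  have hS' : S ^ (m * (m - 1)) * (S ^ (m * (m - 1)))⁻¹ = 1 :=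
    mul_inv_cancel₀ (pow_pos hS _).ne'
  calc _ = ((((m + m).factorial : ℕ) : ℝ) * (2 * (((K + 2) * m : ℕ) : ℝ)) ^ (m + m) *
        2 ^ (m + m)) * (S ^ (m * (m - 1)) * (S ^ (m * (m - 1)))⁻¹) * Y := by ring
    _ = ((((m + m).factorial : ℕ) : ℝ) * (2 * (((K + 2) * m : ℕ) : ℝ)) ^ (m + m) *
        2 ^ (m + m)) * Y := by rw [hS', mul_one]
    _ ≤ _ := mul_le_mul_of_nonneg_right (fac_le K m hm) hYpos.le

end Pool.Agent.H45.PF
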