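import Mathlib

/-! Polynomial approximations of the square root of a polynomial. -/

set_option autoImplicit false

namespace Pool.Agent.H45.PF

open Polynomial

theorem choose_half_succ (n : ℕ) : (Ring.choose (1 / 2 : ℝ) (n + 1)) * (n + 1) =
    Ring.choose (1 / 2 : ℝ) n * (1 / 2 - n) := by
  rw [Ring.choose_eq_smul, Ring.choose_eq_smul, descPochhammer_succ_right, smeval_mul,
    smeval_sub, smeval_X, smeval_natCast, Nat.factorial_succ]
  simp only [smul_eq_mul, pow_one, pow_zero, nsmul_eq_mul, mul_one]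
  have h1 : ((n.factorial : ℕ) : ℝ) ≠ 0 := by exact_mod_cast n.factorial_ne_zero
  have h2 : ((n : ℝ) + 1) ≠ 0 := by positivity
  push_cast
  field_simp

theorem choose_half_abs (n : ℕ) : |Ring.choose (1 / 2 : ℝ) n| ≤ 1 := by
  induction n with
  | zero => simp
  | succ n ih =>
    have h1 := choose_half_succ n
    have h2 : (0 : ℝ) < n + 1 := by positivity
    have h3 : |Ring.choose (1 / 2 : ℝ) (n + 1)| * (n + 1) =
        |Ring.choose (1 / 2 : ℝ) n| * |1 / 2 - (n : ℝ)| := by
      have h4 := congrArg abs h1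
      rw [abs_mul, abs_mul, abs_of_pos h2] at h4
      exact h4
    have h4 : |1 / 2 - (n : ℝ)| ≤ n + 1 := by
      have : (0 : ℝ) ≤ n := Nat.cast_nonneg n
      rw [abs_le]
      constructor <;> linarith
    have h5 : |Ring.choose (1 / 2 : ℝ) (n + 1)| * (n + 1) ≤ 1 * (n + 1) := by
      rw [h3]
      exact mul_le_mul ih h4 (abs_nonneg _) zero_le_one
    exact le_of_mul_le_mul_right h5 h2

theorem sqrt_hasSum {u : ℝ} (hu : |u| < 1) :
    HasSum (fun n : ℕ => Ring.choose (1 / 2 : ℝ) n * u ^ n) (√(1 + u)) := by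
  have h := (Real.one_add_rpow_hasFPowerSeriesOnBall_zero (a := 1 / 2)).hasSum (y := u) (by
    rw [Metric.mem_eball, edist_zero_right, ← ofReal_norm, ENNReal.ofReal_lt_one]
    exact hu)
  rw [zero_add] at h
  rw [Real.sqrt_eq_rpow]
  have e : (fun n : ℕ => Ring.choose (1 / 2 : ℝ) n * u ^ n) =
      fun n : ℕ => (binomialSeries ℝ (1 / 2 : ℝ)) n fun _ => u := by
    funext n
    rw [binomialSeries_apply]
    simp
  rw [e]
  exact h

theorem sqrt_approx (J : ℕ) {u : ℝ} (hu : |u| ≤ 1 / 2) :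
    |√(1 + u) - ∑ n ∈ Finset.range J, Ring.choose (1 / 2 : ℝ) n * u ^ n| ≤ 2 * |u| ^ J := by
  have h := sqrt_hasSum (show |u| < 1 by linarith)
  have h1 := Summable.sum_add_tsum_nat_add J h.summable
  have h2 : √(1 + u) - ∑ n ∈ Finset.range J, Ring.choose (1 / 2 : ℝ) n * u ^ n =
      ∑' n : ℕ, Ring.choose (1 / 2 : ℝ) (n + J) * u ^ (n + J) := by
    rw [← h.tsum_eq, ← h1]
    ring
  rw [h2]
  have hg : HasSum (fun n : ℕ => |u| ^ J * (1 / 2 : ℝ) ^ n) (|u| ^ J * 2) := by
    have := (hasSum_geometric_of_lt_one (show (0 : ℝ) ≤ 1 / 2 by norm_num) (by norm_num)).mul_left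
      (|u| ^ J)
    have e : |u| ^ J * (1 - 1 / 2 : ℝ)⁻¹ = |u| ^ J * 2 := by norm_num
    rw [← e]
    exact this
  have h3 : ‖∑' n : ℕ, Ring.choose (1 / 2 : ℝ) (n + J) * u ^ (n + J)‖ ≤ |u| ^ J * 2 := by
    refine tsum_of_norm_bounded hg fun n => ?_
    rw [Real.norm_eq_abs, abs_mul, abs_pow, pow_add]
    have h4 : |u| ^ n ≤ (1 / 2 : ℝ) ^ n := pow_le_pow_left₀ (abs_nonneg _) hu n
    have h5 := choose_half_abs (n + J)
    have h6 : 0 ≤ |u| ^ J := by positivity
    calc |Ring.choose (1 / 2 : ℝ) (n + J)| * (|u| ^ n * |u| ^ J)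
        ≤ 1 * ((1 / 2 : ℝ) ^ n * |u| ^ J) := by
          apply mul_le_mul h5 _ (by positivity) zero_le_one
          exact mul_le_mul_of_nonneg_right h4 h6
      _ = |u| ^ J * (1 / 2 : ℝ) ^ n := by ring
  rw [Real.norm_eq_abs] at h3
  linarith

/-- powers of a polynomial without constant term and with small coefficients -/
theorem coeff_pow (k : ℕ) (U : ℝ[X]) (hk : U.natDegree ≤ k) (h0 : U.coeff 0 = 0)
    (hU : ∀ i, |U.coeff i| ≤ 1 / (4 * ((k : ℝ) + 1))) (j : ℕ) : ∀ n, |(U ^ j).coeff n| ≤ (1 / 4) ^ j := by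
  induction j with
  | zero =>
    intro n
    rw [pow_zero, pow_zero, coeff_one]
    split <;> simp
  | succ j ih =>
    intro n
    rw [pow_succ, mul_comm, coeff_mul]
    have hk0 : (0 : ℝ) < (k : ℝ) + 1 := by positivity
    have h1 : ∀ x ∈ Finset.HasAntidiagonal.antidiagonal n, |U.coeff x.1 * (U ^ j).coeff x.2| ≤
        if x.1 ∈ Finset.range (k + 1) then 1 / (4 * ((k : ℝ) + 1)) * (1 / 4) ^ j else 0 := by
      intro x _
      split_ifs with h
      · rw [abs_mul]
        exact mul_le_mul (hU _) (ih _) (abs_nonneg _) (by positivity)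
      · rw [Finset.mem_range, not_lt] at h
        rw [coeff_eq_zero_of_natDegree_lt (by omega), zero_mul, abs_zero]
    refine (Finset.abs_sum_le_sum_abs _ _).trans ((Finset.sum_le_sum h1).trans ?_)
    rw [← Finset.sum_filter, Finset.sum_const, nsmul_eq_mul]
    have h2 : ((Finset.HasAntidiagonal.antidiagonal n).filter (fun x => x.1 ∈ Finset.range (k + 1))).card ≤ k + 1 := by
      calc _ ≤ (Finset.range (k + 1)).card := by
            refine Finset.card_le_card_of_injOn (fun x : ℕ × ℕ => x.1) ?_ ?_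
            · intro x hx
              rw [Finset.mem_coe, Finset.mem_filter] at hx
              exact hx.2
            · rintro x hx y hy hxy
              rw [Finset.mem_coe, Finset.mem_filter, Finset.HasAntidiagonal.mem_antidiagonal] at hx hy
              have hxy' : x.1 = y.1 := hxy
              have h3 := hx.1
              have h4 := hy.1
              exact Prod.ext hxy' (by omega)
        _ = k + 1 := Finset.card_range _
    have h3 : (((Finset.HasAntidiagonal.antidiagonal n).filter (fun x => x.1 ∈ Finset.range (k + 1))).card : ℝ) ≤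
        (k : ℝ) + 1 := by exact_mod_cast h2
    calc _ ≤ ((k : ℝ) + 1) * (1 / (4 * ((k : ℝ) + 1)) * (1 / 4) ^ j) :=
          mul_le_mul_of_nonneg_right h3 (by positivity)
      _ = (1 / 4) ^ (j + 1) := by
          field_simp
          ring

/-- **The square root of a polynomial near `0`.** -/
theorem sqrt_poly (k J : ℕ) (U : ℝ[X]) (hk : U.natDegree ≤ k) (h0 : U.coeff 0 = 0)
    (hU : ∀ i, |U.coeff i| ≤ 1 / (4 * ((k : ℝ) + 1))) : ∃ p : ℝ[X], p.natDegree ≤ k * J ∧
    (∀ n, |p.coeff n| ≤ 2) ∧ ∀ z : ℝ, |z| ≤ 1 →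
      |√(1 + U.eval z) - p.eval z| ≤ 2 * |z| ^ J := by
  refine ⟨∑ j ∈ Finset.range J, C (Ring.choose (1 / 2 : ℝ) j) * U ^ j, ?_, ?_, ?_⟩
  · refine natDegree_sum_le_of_forall_le _ _ fun j hj => ?_
    refine (natDegree_C_mul_le _ _).trans (natDegree_pow_le.trans ?_)
    rw [mul_comm]
    exact Nat.mul_le_mul hk (Finset.mem_range.1 hj).le
  · intro n
    rw [finsetSum_coeff]
    refine (Finset.abs_sum_le_sum_abs _ _).trans ?_
    have h1 : ∀ j ∈ Finset.range J, |(C (Ring.choose (1 / 2 : ℝ) j) * U ^ j).coeff n| ≤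
        (1 / 2) ^ j := by
      intro j _
      rw [coeff_C_mul, abs_mul]
      calc _ ≤ 1 * (1 / 4 : ℝ) ^ j :=
            mul_le_mul (choose_half_abs j) (coeff_pow k U hk h0 hU j n) (abs_nonneg _) zero_le_one
        _ ≤ (1 / 2) ^ j := by
            rw [one_mul]
            exact pow_le_pow_left₀ (by norm_num) (by norm_num) j
    refine (Finset.sum_le_sum h1).trans ?_
    have h2 : ∑ j ∈ Finset.range J, (1 / 2 : ℝ) ^ j ≤ ∑' j : ℕ, (1 / 2 : ℝ) ^ j :=
      (summable_geometric_of_lt_one (by norm_num) (by norm_num)).sum_le_tsum _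
        (fun j _ => by positivity)
    rw [tsum_geometric_of_lt_one (by norm_num) (by norm_num)] at h2
    norm_num at h2 ⊢
    exact h2
  · intro z hz
    have hk0 : (0 : ℝ) < (k : ℝ) + 1 := by positivity
    have hu : |U.eval z| ≤ |z| / 2 := by
      rw [eval_eq_sum_range' (Nat.lt_succ_of_le hk)]
      refine (Finset.abs_sum_le_sum_abs _ _).trans ?_
      have h1 : ∀ i ∈ Finset.range (k + 1), |U.coeff i * z ^ i| ≤ 1 / (4 * ((k : ℝ) + 1)) * |z| := by
        intro i _
        rcases Nat.eq_zero_or_pos i with rfl | hi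
        · rw [h0, zero_mul, abs_zero]
          positivity
        · rw [abs_mul, abs_pow]
          refine mul_le_mul (hU i) ?_ (by positivity) (by positivity)
          calc |z| ^ i ≤ |z| ^ 1 := pow_le_pow_of_le_one (abs_nonneg _) hz hi
            _ = |z| := pow_one _
      refine (Finset.sum_le_sum h1).trans ?_
      rw [Finset.sum_const, Finset.card_range, nsmul_eq_mul]
      push_cast
      have : ((k : ℝ) + 1) * (1 / (4 * ((k : ℝ) + 1)) * |z|) = |z| / 4 := by
        field_simp
      rw [this]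
      have := abs_nonneg z
      linarith
    have h1 := sqrt_approx J (show |U.eval z| ≤ 1 / 2 by linarith)
    have h2 : (∑ j ∈ Finset.range J, C (Ring.choose (1 / 2 : ℝ) j) * U ^ j).eval z =
        ∑ n ∈ Finset.range J, Ring.choose (1 / 2 : ℝ) n * (U.eval z) ^ n := by
      rw [eval_finsetSum]
      simp
    rw [h2]
    refine h1.trans ?_
    have h3 : |U.eval z| ^ J ≤ |z| ^ J :=
      pow_le_pow_left₀ (abs_nonneg _) (by have := abs_nonneg z; linarith) J
    linarith

end Pool.Agent.H45.PF
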