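import Pool.Agent.H45.Lib.Ts3997aac3.Q109.PLJ.PVG
import Pool.Agent.H45.PF.Sqrt
import Pool.Agent.H45.PF.DPF

/-! The determinants of the points belonging to values of a polynomial vanish. -/

set_option autoImplicit false

namespace Pool.Agent.H45.PF

open Polynomial Pool.Agent.W223.HZ Pool.Agent.W223.PL Pool.Agent.Q276.PL

/-- the inequality between the parameters -/
theorem par {m : ℕ} {D V σ S ε L : ℝ} (hm : 1 ≤ m) (hD : 1 < D) (hε : 0 < ε) (hε1 : ε ≤ 1)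
    (hσ : 0 ≤ σ) (hσm : 32 / ε * (2 * σ + 1) ^ 2 ≤ m) (hV : 1 ≤ V) (hVD : V ≤ D ^ σ)
    (hS : D ^ ε ≤ S) (hL : L = D ^ (1 / (8 * (m : ℝ)))) (u : ℤ) (hu : |u| ≤ m) :
    ((D ^ ((3 : ℝ) / 4) * V ^ 2)⁻¹) ^ ((m : ℤ) - u) * L ^ (m * (m - 1)) *
      (L / S) ^ (u.natAbs ^ 2) ≤
    (V ^ (2 * m))⁻¹ * D ^ (-(5 * (m : ℝ) / 8) + m / 32) := by
  subst hL
  have hD0 : 0 < D := by linarith
  have hm0 : (0 : ℝ) < m := by exact_mod_cast hm
  have hm1 : (1 : ℝ) ≤ m := by exact_mod_cast hm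
  have hσ1 : (1 : ℝ) ≤ (2 * σ + 1) ^ 2 := by nlinarith
  have hm32 : 32 / ε ≤ m := by
    refine le_trans ?_ hσm
    have : 0 < 32 / ε := by positivity
    nlinarith
  have hεm : 32 ≤ ε * m := by
    rw [div_le_iff₀ hε] at hm32
    linarith
  have hεm2 : 32 * (2 * σ + 1) ^ 2 ≤ ε * m := by
    have h1 := mul_le_mul_of_nonneg_left hσm hε.le
    have h2 : ε * (32 / ε * (2 * σ + 1) ^ 2) = 32 * (2 * σ + 1) ^ 2 := by field_simp
    linarith
  obtain ⟨k, hk⟩ : ∃ k, k = u.natAbs := ⟨_, rfl⟩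
  rw [← hk]
  have hkm : (k : ℝ) ≤ m := by
    have h1 : (k : ℤ) = |u| := by rw [hk]; exact Int.natCast_natAbs u
    have h2 : (k : ℤ) ≤ m := by rw [h1]; exact hu
    exact_mod_cast h2
  obtain ⟨E, hE⟩ : ∃ E, E = D ^ ((3 : ℝ) / 4) * V ^ 2 := ⟨_, rfl⟩
  rw [← hE]
  have hE1 : 1 ≤ E := by
    rw [hE]
    have h1 : 1 ≤ D ^ ((3 : ℝ) / 4) := Real.one_le_rpow hD.le (by norm_num)
    have h2 : 1 ≤ V ^ 2 := one_le_pow₀ hV
    nlinarith
  have hE0 : 0 < E := by linarith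
  have e1 : (E⁻¹) ^ ((m : ℤ) - u) ≤ (E ^ m)⁻¹ * E ^ k := by
    rw [inv_zpow, ← zpow_neg, show -((m : ℤ) - u) = -(m : ℤ) + u by ring, zpow_add₀ hE0.ne',
      zpow_neg, zpow_natCast]
    apply mul_le_mul_of_nonneg_left _ (by positivity)
    rw [← zpow_natCast]
    apply zpow_le_zpow_right₀ hE1
    rw [hk, Int.natCast_natAbs]
    exact le_abs_self u
  have e2 : E ^ k ≤ D ^ (3 * (k : ℝ) / 4 + 2 * σ * k) := by
    have h1 : E ≤ D ^ ((3 : ℝ) / 4 + 2 * σ) := by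
      rw [hE, Real.rpow_add hD0]
      apply mul_le_mul_of_nonneg_left _ (by positivity)
      calc V ^ 2 ≤ (D ^ σ) ^ 2 := pow_le_pow_left₀ (by linarith) hVD 2
        _ = D ^ (2 * σ) := by rw [← Real.rpow_natCast, ← Real.rpow_mul hD0.le]; norm_num; ring_nf
    calc E ^ k ≤ (D ^ ((3 : ℝ) / 4 + 2 * σ)) ^ k := pow_le_pow_left₀ hE0.le h1 k
      _ = D ^ (((3 : ℝ) / 4 + 2 * σ) * k) := by rw [← Real.rpow_natCast, ← Real.rpow_mul hD0.le]
      _ = D ^ (3 * (k : ℝ) / 4 + 2 * σ * k) := by congr 1; ring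
  have e3 : (E ^ m)⁻¹ = (V ^ (2 * m))⁻¹ * D ^ (-(3 * (m : ℝ) / 4)) := by
    rw [hE, mul_pow, mul_inv, ← pow_mul, mul_comm]
    congr 1
    rw [← Real.rpow_natCast, ← Real.rpow_mul hD0.le, ← Real.rpow_neg hD0.le]
    congr 1
    ring
  have e4 : (D ^ (1 / (8 * (m : ℝ)))) ^ (m * (m - 1)) = D ^ (((m : ℝ) - 1) / 8) := by
    rw [← Real.rpow_natCast, ← Real.rpow_mul hD0.le]
    congr 1
    rw [Nat.cast_mul, Nat.cast_sub hm, Nat.cast_one]
    field_simp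
  have hlam : 1 / (8 * (m : ℝ)) ≤ ε / 2 := by
    rw [div_le_div_iff₀ (by positivity) (by norm_num)]
    nlinarith
  have hSpos : 0 < S := lt_of_lt_of_le (Real.rpow_pos_of_pos hD0 _) hS
  have e5 : ((D ^ (1 / (8 * (m : ℝ)))) / S) ^ (k ^ 2) ≤ D ^ ((-(ε / 2)) * (k : ℝ) ^ 2) := by
    have h1 : (D ^ (1 / (8 * (m : ℝ)))) / S ≤ D ^ (-(ε / 2)) := by
      calc (D ^ (1 / (8 * (m : ℝ)))) / S ≤ (D ^ (1 / (8 * (m : ℝ)))) / D ^ ε :=
            div_le_div_of_nonneg_left (by positivity) (by positivity) hS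
        _ = D ^ (1 / (8 * (m : ℝ)) - ε) := by rw [Real.rpow_sub hD0]
        _ ≤ D ^ (-(ε / 2)) := by
            apply Real.rpow_le_rpow_of_exponent_le hD.le
            linarith
    calc ((D ^ (1 / (8 * (m : ℝ)))) / S) ^ (k ^ 2)
        ≤ (D ^ (-(ε / 2))) ^ (k ^ 2) := pow_le_pow_left₀ (by positivity) h1 _
      _ = D ^ ((-(ε / 2)) * (k : ℝ) ^ 2) := by
          rw [← Real.rpow_natCast, ← Real.rpow_mul hD0.le]
          push_cast
          rfl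
  calc (E⁻¹) ^ ((m : ℤ) - u) * (D ^ (1 / (8 * (m : ℝ)))) ^ (m * (m - 1)) *
        ((D ^ (1 / (8 * (m : ℝ)))) / S) ^ (k ^ 2)
      ≤ ((E ^ m)⁻¹ * D ^ (3 * (k : ℝ) / 4 + 2 * σ * k)) * D ^ (((m : ℝ) - 1) / 8) *
        D ^ ((-(ε / 2)) * (k : ℝ) ^ 2) := by
        rw [e4]
        apply mul_le_mul _ e5 (by positivity) (by positivity)
        apply mul_le_mul_of_nonneg_right _ (by positivity)
        exact e1.trans (mul_le_mul_of_nonneg_left e2 (by positivity))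
    _ = (V ^ (2 * m))⁻¹ * D ^ (-(3 * (m : ℝ) / 4) + (3 * (k : ℝ) / 4 + 2 * σ * k) +
        ((m : ℝ) - 1) / 8 + (-(ε / 2)) * (k : ℝ) ^ 2) := by
        generalize hx1 : -(3 * (m : ℝ) / 4) = x1 at *
        generalize 3 * (k : ℝ) / 4 + 2 * σ * k = x2
        generalize ((m : ℝ) - 1) / 8 = x3
        generalize (-(ε / 2)) * (k : ℝ) ^ 2 = x4
        rw [e3, Real.rpow_add hD0, Real.rpow_add hD0, Real.rpow_add hD0]
        ring
    _ ≤ (V ^ (2 * m))⁻¹ * D ^ (-(5 * (m : ℝ) / 8) + m / 32) := by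
        apply mul_le_mul_of_nonneg_left _ (by positivity)
        apply Real.rpow_le_rpow_of_exponent_le hD.le
        have hk0 : (0 : ℝ) ≤ k := Nat.cast_nonneg k
        have h1 : 3 * (k : ℝ) / 4 + 2 * σ * k ≤ (2 * σ + 1) * k := by nlinarith
        have h2 : (2 * σ + 1) * k - ε / 2 * (k : ℝ) ^ 2 ≤ (m : ℝ) / 32 := by
          have h3 : 32 * (2 * σ + 1) ^ 2 / ε ≤ m := by
            rw [div_le_iff₀ hε]
            linarith
          have h4 : (2 * σ + 1) * k - ε / 2 * (k : ℝ) ^ 2 ≤ (2 * σ + 1) ^ 2 / (2 * ε) := by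
            rw [le_div_iff₀ (by positivity)]
            nlinarith [sq_nonneg (ε * k - (2 * σ + 1))]
          have h5 : (2 * σ + 1) ^ 2 / (2 * ε) ≤ (2 * σ + 1) ^ 2 / ε := by
            apply div_le_div_of_nonneg_left (by positivity) hε
            linarith
          have h6 : 32 * ((2 * σ + 1) ^ 2 / ε) ≤ m := by
            rw [← mul_div_assoc]
            exact h3
          linarith
        nlinarith

theorem pvf (k : ℕ) (ε : ℝ) (hε : 0 < ε) (hε1 : ε ≤ 1) : ∃ C₇ : ℝ, 1 ≤ C₇ ∧ ∀ (m : ℕ)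
    (D V σ S : ℝ) (l : ℤ[X]) (P Q τ : Fin m ⊕ Fin m → ℤ),
    l.natDegree ≤ k → 1 ≤ m → C₇ ≤ D → 0 ≤ σ → C₇ * (2 * σ + 1) ^ 2 ≤ m → C₇ * m ≤ Real.log D →
    1 ≤ V → V ≤ D ^ σ → D ^ ε ≤ S → D ≤ (l.coeff 0 : ℝ) → (l.coeff 0 : ℝ) ≤ 2 * D →
    (∀ i, 1 ≤ i → |(l.coeff i : ℝ)| * S ^ i ≤ (l.coeff 0 : ℝ) / (4 * ((k : ℝ) + 1))) →
    (∀ i, |(τ i : ℝ)| ≤ D ^ (1 / (8 * (m : ℝ)))) → (∀ i, D ≤ ((l.eval (τ i) : ℤ) : ℝ)) →
    (∀ i, V ≤ Q i ∧ (Q i : ℝ) < 2 * V) → (∀ i, 0 ≤ P i) →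
    (∀ i, |((P i ^ 2 - l.eval (τ i) * Q i ^ 2 : ℤ) : ℝ)| ≤ D ^ ((1 : ℝ) / 8)) →
    (Mat m P Q τ).det = 0 := by
  obtain ⟨C₅, hC₅⟩ : ∃ C₅ : ℝ, C₅ = 1024 * ((k : ℝ) + 2) ^ 2 := ⟨_, rfl⟩
  have hC51 : 1 ≤ C₅ := by
    rw [hC₅]
    have : (0 : ℝ) ≤ k := Nat.cast_nonneg k
    nlinarith
  refine ⟨max (32 / ε) (max 6561 (32 * Real.log (8 * C₅))), ?_, ?_⟩
  · refine le_trans ?_ (le_max_right _ _)
    refine le_trans ?_ (le_max_left _ _)
    norm_num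
  intro m D V σ S l P Q τ hlk hm hD hσ hσm hlog hV hVD hSD hl0 hl02 hcoef hτ hlτ hQ hP hPQ
  obtain ⟨C₇, hC₇⟩ : ∃ C₇, C₇ = max (32 / ε) (max 6561 (32 * Real.log (8 * C₅))) := ⟨_, rfl⟩
  rw [← hC₇] at hD hσm hlog
  have hD1 : 32 / ε ≤ C₇ := by rw [hC₇]; exact le_max_left _ _
  have hD2 : 6561 ≤ C₇ := by rw [hC₇]; exact (le_max_left _ _).trans (le_max_right _ _)
  have hD3 : 32 * Real.log (8 * C₅) ≤ C₇ := by
    rw [hC₇]; exact (le_max_right _ _).trans (le_max_right _ _)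
  have hD1' : 1 < D := by linarith
  have hD0 : 0 < D := by linarith
  have hm0 : (0 : ℝ) < m := by exact_mod_cast hm
  have hm1 : (1 : ℝ) ≤ m := by exact_mod_cast hm
  have hσ1 : (1 : ℝ) ≤ 2 * σ + 1 := by linarith
  have hσ2 : (1 : ℝ) ≤ (2 * σ + 1) ^ 2 := by nlinarith
  have hσm' : 32 / ε * (2 * σ + 1) ^ 2 ≤ m := by
    refine le_trans ?_ hσm
    exact mul_le_mul_of_nonneg_right hD1 (by positivity)
  have hlog2 : 32 * Real.log (8 * C₅) * m ≤ Real.log D :=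
    (mul_le_mul_of_nonneg_right hD3 hm0.le).trans hlog
  obtain ⟨L, hL⟩ : ∃ L, L = D ^ (1 / (8 * (m : ℝ))) := ⟨_, rfl⟩
  rw [← hL] at hτ
  have hL0 : 0 < L := by rw [hL]; exact Real.rpow_pos_of_pos hD0 _
  have hS0 : 0 < S := lt_of_lt_of_le (Real.rpow_pos_of_pos hD0 _) hSD
  have hεm : 32 ≤ ε * m := by
    have h1 : 32 / ε ≤ m := by
      refine le_trans ?_ hσm'
      have : 0 < 32 / ε := by positivity
      nlinarith
    rw [div_le_iff₀ hε] at h1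
    linarith
  have hlam : 1 / (8 * (m : ℝ)) ≤ ε / 2 := by
    rw [div_le_div_iff₀ (by positivity) (by norm_num)]
    nlinarith
  have hLS2 : L / S ≤ D ^ (-(ε / 2)) := by
    rw [hL]
    calc (D ^ (1 / (8 * (m : ℝ)))) / S ≤ (D ^ (1 / (8 * (m : ℝ)))) / D ^ ε :=
          div_le_div_of_nonneg_left (by positivity) (by positivity) hSD
      _ = D ^ (1 / (8 * (m : ℝ)) - ε) := by rw [Real.rpow_sub hD0]
      _ ≤ D ^ (-(ε / 2)) := by
          apply Real.rpow_le_rpow_of_exponent_le hD1'.le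
          linarith
  have hLS : L ≤ S := by
    rw [← div_le_one hS0]
    refine hLS2.trans ?_
    exact Real.rpow_le_one_of_one_le_of_nonpos hD1'.le (by linarith)
  obtain ⟨d₀, hd₀⟩ : ∃ d₀ : ℝ, d₀ = (l.coeff 0 : ℝ) := ⟨_, rfl⟩
  rw [← hd₀] at hl0 hl02 hcoef
  have hd00 : 0 < d₀ := by linarith
  -- the square root
  obtain ⟨U, hU⟩ : ∃ U : ℝ[X], U = C d₀⁻¹ * ((l.map (Int.castRingHom ℝ)).comp (C S * X)) - 1 :=
    ⟨_, rfl⟩
  have hUc : ∀ i, 1 ≤ i → U.coeff i = d₀⁻¹ * ((l.coeff i : ℝ) * S ^ i) := by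
    intro i hi
    rw [hU, coeff_sub, coeff_C_mul, comp_C_mul_X_coeff, coeff_map, coeff_one,
      if_neg (by omega), sub_zero]
    simp
  have hU0 : U.coeff 0 = 0 := by
    rw [hU, coeff_sub, coeff_C_mul, comp_C_mul_X_coeff, coeff_map, coeff_one, if_pos rfl]
    simp only [eq_intCast, pow_zero, mul_one]
    rw [← hd₀, inv_mul_cancel₀ hd00.ne', sub_self]
  have hk4 : (0 : ℝ) < 4 * ((k : ℝ) + 1) := by positivity
  have hUb : ∀ i, |U.coeff i| ≤ 1 / (4 * ((k : ℝ) + 1)) := by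
    intro i
    rcases Nat.eq_zero_or_pos i with rfl | hi
    · rw [hU0, abs_zero]
      positivity
    · rw [hUc i hi, abs_mul, abs_of_pos (inv_pos.2 hd00), abs_mul, abs_of_pos (pow_pos hS0 i)]
      have h1 := hcoef i hi
      calc d₀⁻¹ * (|(l.coeff i : ℝ)| * S ^ i) ≤ d₀⁻¹ * (d₀ / (4 * ((k : ℝ) + 1))) :=
            mul_le_mul_of_nonneg_left h1 (by positivity)
        _ = 1 / (4 * ((k : ℝ) + 1)) := by field_simp
  have hUd : U.natDegree ≤ k := by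
    rw [natDegree_le_iff_coeff_eq_zero]
    intro i hi
    rw [hUc i (by omega), coeff_eq_zero_of_natDegree_lt (by omega)]
    simp
  obtain ⟨J, hJ⟩ : ∃ J : ℕ, J = ⌈2 / ε * (2 * σ + 1)⌉₊ := ⟨_, rfl⟩
  have hJ1 : 2 / ε * (2 * σ + 1) ≤ J := by rw [hJ]; exact Nat.le_ceil _
  have hJm : J ≤ m := by
    rw [hJ, Nat.ceil_le]
    refine le_trans ?_ hσm'
    have h1 : 0 < 1 / ε := by positivity
    have h2 : 2 / ε = 2 * (1 / ε) := by ring
    have h3 : 32 / ε = 32 * (1 / ε) := by ring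
    rw [h2, h3]
    nlinarith [mul_pos h1 (by linarith : 0 < 2 * σ + 1)]
  obtain ⟨p, hpd, hpc, hpe⟩ := sqrt_poly k J U hUd hU0 hUb
  have hev : ∀ i, 1 + U.eval ((τ i : ℝ) / S) = ((l.eval (τ i) : ℤ) : ℝ) / d₀ := by
    intro i
    rw [hU]
    simp only [eval_sub, eval_mul, eval_C, eval_comp, eval_X, eval_one]
    rw [mul_div_cancel₀ _ hS0.ne', eval_intCast_map]
    simp only [eq_intCast, Int.cast_id]
    rw [div_eq_inv_mul]
    ring
  obtain ⟨e, he⟩ : ∃ e, e = (D ^ ((3 : ℝ) / 4) * V ^ 2)⁻¹ := ⟨_, rfl⟩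
  have he0 : 0 < e := by rw [he]; positivity
  obtain ⟨y, hy⟩ : ∃ y : Fin m ⊕ Fin m → ℝ, y = fun i => (P i : ℝ) / (Q i * √d₀) := ⟨_, rfl⟩
  have hD18 : 3 * (D ^ ((7 : ℝ) / 8) * V ^ 2)⁻¹ ≤ e := by
    have h1 : (3 : ℝ) ≤ D ^ ((1 : ℝ) / 8) := by
      have h2 : (3 : ℝ) = (6561 : ℝ) ^ ((1 : ℝ) / 8) := by
        rw [show (6561 : ℝ) = 3 ^ (8 : ℝ) by norm_num, ← Real.rpow_mul (by norm_num)]
        norm_num
      rw [h2]
      exact Real.rpow_le_rpow (by norm_num) (hD2.trans hD) (by norm_num)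
    have h2 : D ^ ((7 : ℝ) / 8) = D ^ ((3 : ℝ) / 4) * D ^ ((1 : ℝ) / 8) := by
      rw [← Real.rpow_add hD0]
      norm_num
    have h3 : 0 < D ^ ((1 : ℝ) / 8) := Real.rpow_pos_of_pos hD0 _
    have h4 : 0 < D ^ ((3 : ℝ) / 4) := Real.rpow_pos_of_pos hD0 _
    rw [he, h2]
    have h5 : 3 * (D ^ ((3 : ℝ) / 4) * D ^ ((1 : ℝ) / 8) * V ^ 2)⁻¹ =
        (D ^ ((3 : ℝ) / 4) * V ^ 2)⁻¹ * (3 / D ^ ((1 : ℝ) / 8)) := by
      field_simp
    rw [h5]
    have h6 : 3 / D ^ ((1 : ℝ) / 8) ≤ 1 := by rwa [div_le_one h3]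
    exact mul_le_of_le_one_right (by positivity) h6
  have hye : ∀ i, |y i - p.eval ((τ i : ℝ) / S)| ≤ e := by
    intro i
    have hz : |(τ i : ℝ) / S| ≤ L / S := by
      rw [abs_div, abs_of_pos hS0]
      exact div_le_div_of_nonneg_right (hτ i) hS0.le
    have hz1 : |(τ i : ℝ) / S| ≤ 1 := hz.trans (by rwa [div_le_one hS0])
    have h1 := hpe _ hz1
    rw [hev i] at h1
    have h2 : |(P i : ℝ) / (Q i * √d₀) - √(((l.eval (τ i) : ℤ) : ℝ) / d₀)| ≤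
        (D ^ ((7 : ℝ) / 8) * V ^ 2)⁻¹ := by
      apply Pool.Agent.Q109.PLJ.pvg_close hD1'.le hV hl0 (hlτ i) (hQ i).1 (by exact_mod_cast hP i)
      have := hPQ i
      push_cast at this
      exact this
    have h3 : |(τ i : ℝ) / S| ^ J ≤ (D ^ ((7 : ℝ) / 8) * V ^ 2)⁻¹ := by
      calc |(τ i : ℝ) / S| ^ J ≤ (D ^ (-(ε / 2))) ^ J :=
            pow_le_pow_left₀ (abs_nonneg _) (hz.trans hLS2) J
        _ = D ^ (-(ε / 2) * J) := by rw [← Real.rpow_natCast, ← Real.rpow_mul hD0.le]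
        _ ≤ D ^ (-((7 : ℝ) / 8 + 2 * σ)) := by
            apply Real.rpow_le_rpow_of_exponent_le hD1'.le
            have h4 : ε / 2 * (2 / ε * (2 * σ + 1)) ≤ ε / 2 * J :=
              mul_le_mul_of_nonneg_left hJ1 (by positivity)
            have h5 : ε / 2 * (2 / ε * (2 * σ + 1)) = 2 * σ + 1 := by field_simp
            linarith
        _ = (D ^ ((7 : ℝ) / 8 + 2 * σ))⁻¹ := Real.rpow_neg hD0.le _
        _ ≤ (D ^ ((7 : ℝ) / 8) * V ^ 2)⁻¹ := by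
            apply inv_anti₀ (by positivity)
            rw [Real.rpow_add hD0]
            apply mul_le_mul_of_nonneg_left _ (by positivity)
            calc V ^ 2 ≤ (D ^ σ) ^ 2 := pow_le_pow_left₀ (by linarith) hVD 2
              _ = D ^ (2 * σ) := by
                  rw [← Real.rpow_natCast, ← Real.rpow_mul hD0.le]; norm_num; ring_nf
    have h4 : y i - p.eval ((τ i : ℝ) / S) =
        ((P i : ℝ) / (Q i * √d₀) - √(((l.eval (τ i) : ℤ) : ℝ) / d₀)) +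
        (√(((l.eval (τ i) : ℤ) : ℝ) / d₀) - p.eval ((τ i : ℝ) / S)) := by
      rw [hy]
      ring
    rw [h4]
    refine (abs_add_le _ _).trans (le_trans ?_ hD18)
    linarith
  obtain ⟨Y, hY⟩ : ∃ Y, Y = (V ^ (2 * m))⁻¹ * D ^ (-(5 * (m : ℝ) / 8) + m / 32) := ⟨_, rfl⟩
  have hdet := dpf k m S L e hm hS0 hL0 hLS he0 p
    (hpd.trans (Nat.mul_le_mul_left k hJm)) hpc τ y hτ hye Y
    (fun u hu => by
      rw [he, hY]
      exact par hm hD1' hε hε1 hσ hσm' hV hVD hSD hL u hu)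
  rw [← hC₅] at hdet
  obtain ⟨T, hT⟩ : ∃ T, T = √(√d₀) := ⟨_, rfl⟩
  have hT0 : 0 < T := by rw [hT]; exact Real.sqrt_pos.mpr (Real.sqrt_pos.mpr hd00)
  have hT2 : T ^ 2 = √d₀ := by rw [hT]; exact Real.sq_sqrt (Real.sqrt_nonneg _)
  have hmain := Pool.Agent.W131.HZ.VA2.det_eq (T := T) (V := 2 * V * T / 200) P Q τ y hT0
    (by
      intro i
      have hQi : (0 : ℝ) < Q i := by linarith [(hQ i).1]
      rw [hT2, hy]
      have : 0 < √d₀ := Real.sqrt_pos.mpr hd00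
      field_simp)
    (by
      intro i
      have hQi : (0 : ℝ) < Q i := by linarith [(hQ i).1]
      rw [abs_of_pos hQi]
      have := (hQ i).2
      have h2 : (Q i : ℝ) * T ≤ 2 * V * T := mul_le_mul_of_nonneg_right this.le hT0.le
      linarith)
  have hlt : |((Mat m P Q τ).det : ℝ)| < 1 := by
    refine hmain.trans_lt ?_
    have h200 : (200 : ℝ) * (2 * V * T / 200) = 2 * V * T := by ring
    rw [h200]
    have h1 : (2 * V * T) ^ (2 * m) ≤ V ^ (2 * m) * (8 ^ m * D ^ ((m : ℝ) / 2)) := by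
      have h2 : (2 * V * T) ^ (2 * m) = V ^ (2 * m) * (4 * √d₀) ^ m := by
        rw [mul_pow, mul_pow, pow_mul 2, pow_mul T, hT2, mul_pow]
        norm_num
        ring
      rw [h2]
      apply mul_le_mul_of_nonneg_left _ (by positivity)
      have h3 : 4 * √d₀ ≤ 8 * D ^ ((1 : ℝ) / 2) := by
        have h4 : √d₀ ≤ 2 * D ^ ((1 : ℝ) / 2) := by
          rw [← Real.sqrt_eq_rpow]
          apply Real.sqrt_le_iff.mpr
          refine ⟨by positivity, ?_⟩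
          rw [mul_pow, Real.sq_sqrt hD0.le]
          linarith
        linarith
      calc (4 * √d₀) ^ m ≤ (8 * D ^ ((1 : ℝ) / 2)) ^ m :=
            pow_le_pow_left₀ (by positivity) h3 m
        _ = 8 ^ m * D ^ ((m : ℝ) / 2) := by
            rw [mul_pow, ← Real.rpow_natCast (D ^ ((1 : ℝ) / 2)), ← Real.rpow_mul hD0.le]
            congr 2
            ring
    have h5 : (8 * C₅) ^ (m ^ 2) ≤ D ^ ((m : ℝ) / 32) := by
      have h8 : 0 < 8 * C₅ := by linarith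
      rw [← Real.rpow_natCast, ← Real.exp_log h8, ← Real.exp_mul, ← Real.exp_log hD0,
        ← Real.exp_mul, Real.exp_le_exp]
      push_cast
      nlinarith
    have hY0 : 0 ≤ Y := by rw [hY]; positivity
    calc (2 * V * T) ^ (2 * m) * |Matrix.det (Matrix.of fun i : Fin m ⊕ Fin m =>
          Sum.elim (fun j : Fin m => (τ i : ℝ) ^ (j : ℕ))
            (fun j : Fin m => y i * (τ i : ℝ) ^ (j : ℕ)))|
        ≤ (V ^ (2 * m) * (8 ^ m * D ^ ((m : ℝ) / 2))) * (C₅ ^ (m ^ 2) * Y) :=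
          mul_le_mul h1 hdet (abs_nonneg _) (by positivity)
      _ = (8 ^ m * C₅ ^ (m ^ 2)) * D ^ (-((m : ℝ) / 8) + m / 32) := by
          rw [hY, show -((m : ℝ) / 8) + m / 32 = (m : ℝ) / 2 + (-(5 * (m : ℝ) / 8) + m / 32) by ring]
          generalize -(5 * (m : ℝ) / 8) + m / 32 = x0
          rw [Real.rpow_add hD0]
          generalize D ^ x0 = x1
          generalize D ^ ((m : ℝ) / 2) = x2
          have h9 : V ^ (2 * m) * (V ^ (2 * m))⁻¹ = 1 := by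
            apply mul_inv_cancel₀
            positivity
          generalize (V ^ (2 * m))⁻¹ = x3 at *
          generalize V ^ (2 * m) = x4 at *
          linear_combination 8 ^ m * x2 * C₅ ^ m ^ 2 * x1 * h9
      _ ≤ D ^ ((m : ℝ) / 32) * D ^ (-((m : ℝ) / 8) + m / 32) := by
          apply mul_le_mul_of_nonneg_right _ (by positivity)
          refine le_trans ?_ h5
          rw [mul_pow]
          apply mul_le_mul_of_nonneg_right _ (by positivity)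
          exact pow_le_pow_right₀ (by norm_num) (by nlinarith)
      _ = D ^ (-((m : ℝ) / 16)) := by
          rw [← Real.rpow_add hD0]
          congr 1
          ring
      _ < 1 := Real.rpow_lt_one_of_one_lt_of_neg hD1' (by linarith)
  have hlt' : |(Mat m P Q τ).det| < 1 := by exact_mod_cast hlt
  exact Int.abs_lt_one_iff.1 hlt'

end Pool.Agent.H45.PF
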