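import Pool.Agent.H45.PF.CLF
import Pool.Agent.H45.PF.PVF

/-! A window and a dyadic range of `y`. -/

set_option autoImplicit false

namespace Pool.Agent.H45.PF

open Polynomial Pool.Agent.W223.HZ Pool.Agent.W223.PL Pool.Agent.Q276.PL Pool.Agent.Q121.PL

/-- hypotheses on the polynomial near `0` -/
structure Near (k : ℕ) (ε D S : ℝ) (l : ℤ[X]) : Prop where
  fam : Fam k l
  Sge : D ^ ε ≤ S
  l0 : D ≤ (l.coeff 0 : ℝ)
  l02 : (l.coeff 0 : ℝ) ≤ 2 * D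
  coef : ∀ i, 1 ≤ i → |(l.coeff i : ℝ)| * S ^ i ≤ (l.coeff 0 : ℝ) / (4 * ((k : ℝ) + 1))

theorem near_eval {k : ℕ} {ε D S : ℝ} {l : ℤ[X]} (h : Near k ε D S l) (hD : 0 < D) (hS : 0 < S)
    (τ : ℤ) (hτ : |(τ : ℝ)| ≤ S) :
    |((l.eval τ : ℤ) : ℝ) - (l.coeff 0 : ℝ)| ≤ (l.coeff 0 : ℝ) / 4 := by
  have hl0 : 0 < (l.coeff 0 : ℝ) := lt_of_lt_of_le hD h.l0
  have h1 : ((l.eval τ : ℤ) : ℝ) = ∑ i ∈ Finset.range (k + 1), (l.coeff i : ℝ) * (τ : ℝ) ^ i := by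
    rw [Polynomial.eval_eq_sum_range' (n := k + 1) (by have := h.fam.deg; omega)]
    push_cast
    rfl
  rw [h1, Finset.sum_range_succ', pow_zero, mul_one, add_sub_cancel_right]
  refine (Finset.abs_sum_le_sum_abs _ _).trans ?_
  calc ∑ i ∈ Finset.range k, |(l.coeff (i + 1) : ℝ) * (τ : ℝ) ^ (i + 1)|
      ≤ ∑ i ∈ Finset.range k, (l.coeff 0 : ℝ) / (4 * ((k : ℝ) + 1)) := by
        apply Finset.sum_le_sum
        intro i _
        refine le_trans ?_ (h.coef (i + 1) (by omega))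
        rw [abs_mul, abs_pow]
        exact mul_le_mul_of_nonneg_left (pow_le_pow_left₀ (abs_nonneg _) hτ _) (abs_nonneg _)
    _ = (k : ℝ) / ((k : ℝ) + 1) * ((l.coeff 0 : ℝ) / 4) := by
        rw [Finset.sum_const, Finset.card_range, nsmul_eq_mul]
        have : ((k : ℝ) + 1) ≠ 0 := by positivity
        field_simp
    _ ≤ 1 * ((l.coeff 0 : ℝ) / 4) := by
        apply mul_le_mul_of_nonneg_right _ (by positivity)
        rw [div_le_one (by positivity)]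
        linarith
    _ = (l.coeff 0 : ℝ) / 4 := one_mul _

theorem bnd1 (D σ z : ℝ) (m n : ℕ) (hm : 1 ≤ m) (hn : n = 2 * m) (hD : 1 ≤ D)
    (hlm : (m : ℝ) ≤ Real.log D)
    (hσ : σ ≤ m) (hz1 : 1 ≤ z) (hzD : z ≤ D) :
    (2 * n * (8 * (D ^ σ * D ^ 2))) ^ (2 * n) ≤ Real.exp (36 * (m : ℝ) ^ 2 * Real.log D) ∧
    2 * z * (n * (2 * n * (8 * (D ^ σ * D ^ 2))) ^ (2 * n) * (D ^ (1 / (8 * (m : ℝ)))) ^ n) ≤
      Real.exp (50 * (m : ℝ) ^ 2 * Real.log D) ∧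
    ((2 * n + 2) * (2 * n * (8 * (D ^ σ * D ^ 2))) ^ (2 * n)) ^ (2 * n + 2) ≤
      Real.exp (250 * (m : ℝ) ^ 3 * Real.log D) := by
  have hDpos : 0 < D := by linarith
  obtain ⟨l, hl'⟩ : ∃ l, l = Real.log D := ⟨_, rfl⟩
  rw [← hl'] at hlm ⊢
  have hDe : D = Real.exp l := by rw [hl', Real.exp_log hDpos]
  have hm1 : (1 : ℝ) ≤ m := by exact_mod_cast hm
  have hl1 : 1 ≤ l := hm1.trans hlm
  have hl0 : 0 ≤ l := by linarith
  have he : 2 ≤ Real.exp l := by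
    have := Real.add_one_le_exp l
    linarith
  have he0 : 0 < Real.exp l := Real.exp_pos l
  have hz : z ≤ Real.exp l := hDe ▸ hzD
  have hmm : (m : ℝ) ≤ Real.exp l := by
    have := Real.add_one_le_exp l
    linarith
  have h3 : Real.exp (3 * l) = Real.exp l ^ 3 := by
    rw [← Real.exp_nat_mul]
    norm_num
  have h2 : Real.exp (2 * l) = Real.exp l ^ 2 := by
    rw [← Real.exp_nat_mul]
    norm_num
  have h4 : (4 : ℝ) ≤ Real.exp (2 * l) := by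
    rw [h2]
    nlinarith
  have h8 : (8 : ℝ) ≤ Real.exp (3 * l) := by
    rw [h3]
    have := pow_le_pow_left₀ (by norm_num : (0 : ℝ) ≤ 2) he 3
    linarith
  have hσe : D ^ σ = Real.exp (σ * l) := by
    rw [Real.rpow_def_of_pos hDpos, ← hl', mul_comm]
  have hD2 : D ^ 2 = Real.exp (2 * l) := by
    rw [hDe, ← Real.exp_nat_mul]
    norm_num
  have hH : 8 * (D ^ σ * D ^ 2) ≤ Real.exp (6 * m * l) := by
    rw [hσe, hD2]
    calc 8 * (Real.exp (σ * l) * Real.exp (2 * l))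
        ≤ Real.exp (3 * l) * (Real.exp (σ * l) * Real.exp (2 * l)) :=
          mul_le_mul_of_nonneg_right h8 (by positivity)
      _ = Real.exp (3 * l + (σ * l + 2 * l)) := by rw [Real.exp_add, Real.exp_add]
      _ ≤ Real.exp (6 * m * l) := by
          apply Real.exp_le_exp.mpr
          have h5 : σ + 5 ≤ 6 * m := by linarith
          nlinarith [mul_le_mul_of_nonneg_right h5 hl0]
  have hH0 : 0 < 8 * (D ^ σ * D ^ 2) := by positivity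
  have hnr : (n : ℝ) = 2 * m := by rw [hn]; push_cast; ring
  have hne : (n : ℝ) ≤ Real.exp (2 * l) := by
    rw [hnr, h2]
    nlinarith
  have hn0 : (0 : ℝ) ≤ n := Nat.cast_nonneg n
  have hK : 2 * (n : ℝ) * (8 * (D ^ σ * D ^ 2)) ≤ Real.exp (9 * m * l) := by
    calc 2 * (n : ℝ) * (8 * (D ^ σ * D ^ 2))
        ≤ Real.exp l * Real.exp (2 * l) * Real.exp (6 * m * l) := by
          refine mul_le_mul (mul_le_mul he hne (by positivity) he0.le) hH hH0.le (by positivity)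
      _ = Real.exp (l + 2 * l + 6 * m * l) := by rw [Real.exp_add, Real.exp_add]
      _ ≤ Real.exp (9 * m * l) := by
          apply Real.exp_le_exp.mpr
          nlinarith [mul_le_mul_of_nonneg_right hm1 hl0]
  have hKp : (2 * (n : ℝ) * (8 * (D ^ σ * D ^ 2))) ^ (2 * n)
      ≤ Real.exp (36 * (m : ℝ) ^ 2 * l) := by
    calc (2 * (n : ℝ) * (8 * (D ^ σ * D ^ 2))) ^ (2 * n)
        ≤ Real.exp (9 * m * l) ^ (2 * n) := pow_le_pow_left₀ (by positivity) hK _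
      _ = Real.exp (((2 * n : ℕ) : ℝ) * (9 * m * l)) := by rw [← Real.exp_nat_mul]
      _ = Real.exp (36 * (m : ℝ) ^ 2 * l) := by
          congr 1
          push_cast
          rw [hnr]
          ring
  have hLn : (D ^ (1 / (8 * (m : ℝ)))) ^ n ≤ Real.exp l := by
    rw [← Real.rpow_natCast, ← Real.rpow_mul hDpos.le, hnr, ← hDe]
    have h5 : 1 / (8 * (m : ℝ)) * (2 * m) = 1 / 4 := by
      field_simp
      norm_num
    rw [h5]
    have := Real.rpow_le_rpow_of_exponent_le hD (by norm_num : (1 : ℝ) / 4 ≤ 1)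
    rwa [Real.rpow_one] at this
  have hm2 : (1 : ℝ) ≤ (m : ℝ) ^ 2 := by nlinarith
  have hm2l : l ≤ (m : ℝ) ^ 2 * l := by nlinarith
  refine ⟨hKp, ?_, ?_⟩
  · calc 2 * z * (n * (2 * (n : ℝ) * (8 * (D ^ σ * D ^ 2))) ^ (2 * n) *
        (D ^ (1 / (8 * (m : ℝ)))) ^ n)
        ≤ (Real.exp l * Real.exp l) * (Real.exp (2 * l) * Real.exp (36 * (m : ℝ) ^ 2 * l) *
            Real.exp l) := by
          refine mul_le_mul (mul_le_mul he hz (by positivity) he0.le)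
            (mul_le_mul (mul_le_mul hne hKp (by positivity) (by positivity)) hLn (by positivity)
              (by positivity)) (by positivity) (by positivity)
      _ = Real.exp (l + l + (2 * l + 36 * (m : ℝ) ^ 2 * l + l)) := by
          rw [Real.exp_add, Real.exp_add, Real.exp_add, Real.exp_add]
      _ ≤ Real.exp (50 * (m : ℝ) ^ 2 * l) := by
          apply Real.exp_le_exp.mpr
          linarith
  · have h5 : 2 * (n : ℝ) + 2 ≤ Real.exp (4 * l) := by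
      have h6 : Real.exp (4 * l) = Real.exp (2 * l) * Real.exp (2 * l) := by
        rw [← Real.exp_add]
        congr 1
        ring
      rw [h6]
      have h7 : 1 ≤ Real.exp (2 * l) := by linarith
      nlinarith
    calc ((2 * (n : ℝ) + 2) * (2 * (n : ℝ) * (8 * (D ^ σ * D ^ 2))) ^ (2 * n)) ^ (2 * n + 2)
        ≤ (Real.exp (4 * l) * Real.exp (36 * (m : ℝ) ^ 2 * l)) ^ (2 * n + 2) :=
          pow_le_pow_left₀ (by positivity)
            (mul_le_mul h5 hKp (by positivity) (by positivity)) _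
      _ = Real.exp (((2 * n + 2 : ℕ) : ℝ) * (4 * l + 36 * (m : ℝ) ^ 2 * l)) := by
          rw [← Real.exp_add, ← Real.exp_nat_mul]
      _ ≤ Real.exp (250 * (m : ℝ) ^ 3 * l) := by
          apply Real.exp_le_exp.mpr
          push_cast
          rw [hnr]
          have h6 : 2 * (2 * (m : ℝ)) + 2 ≤ 6 * m := by linarith
          have h7 : 4 * l + 36 * (m : ℝ) ^ 2 * l ≤ 40 * ((m : ℝ) ^ 2 * l) := by linarith
          have h8 : 0 ≤ 4 * l + 36 * (m : ℝ) ^ 2 * l := by positivity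
          calc (2 * (2 * (m : ℝ)) + 2) * (4 * l + 36 * (m : ℝ) ^ 2 * l)
              ≤ (6 * m) * (40 * ((m : ℝ) ^ 2 * l)) := mul_le_mul h6 h7 h8 (by positivity)
            _ = 240 * ((m : ℝ) ^ 3 * l) := by ring
            _ ≤ 250 * (m : ℝ) ^ 3 * l := by
                have : 0 ≤ (m : ℝ) ^ 3 * l := by positivity
                linarith

theorem log_bnd' (D : ℝ) (m : ℕ) (hm : 1 ≤ m) (hD : 1 ≤ D) (hlm : (m : ℝ) ≤ Real.log D) :
    Real.log (120 * √(D ^ (1 / (8 * (m : ℝ)))) * (50 * (m : ℝ) ^ 2 * Real.log D)) ≤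
      2 * (50 * (m : ℝ) ^ 2 * Real.log D) := by
  have h1 := Pool.Agent.Q121.PL.log_bnd D m hm hD hlm
  obtain ⟨s, hs⟩ : ∃ s, s = √(D ^ (1 / (8 * (m : ℝ)))) := ⟨_, rfl⟩
  have hs0 : 0 < s := by
    rw [hs]
    exact Real.sqrt_pos.mpr (Real.rpow_pos_of_pos (by linarith) _)
  obtain ⟨u, hu⟩ : ∃ u, u = (m : ℝ) ^ 2 * Real.log D := ⟨_, rfl⟩
  have hm1 : (1 : ℝ) ≤ m := by exact_mod_cast hm
  have hu1 : 1 ≤ u := by
    rw [hu]
    nlinarith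
  rw [← hs, show 120 * s * (40 * (m : ℝ) ^ 2 * Real.log D) = 120 * s * (40 * u) by rw [hu]; ring,
    show 2 * (40 * (m : ℝ) ^ 2 * Real.log D) = 80 * u by rw [hu]; ring] at h1
  rw [← hs, show 120 * s * (50 * (m : ℝ) ^ 2 * Real.log D) = (120 * s * (40 * u)) * (5 / 4) by
    rw [hu]; ring, show 2 * (50 * (m : ℝ) ^ 2 * Real.log D) = 80 * u + 20 * u by rw [hu]; ring,
    Real.log_mul (by positivity) (by norm_num)]
  have h2 : Real.log (5 / 4) ≤ 5 / 4 - 1 := Real.log_le_sub_one_of_pos (by norm_num)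
  linarith

theorem ax1 {C σ m : ℝ} (hC : 1 ≤ C) (hσ : 0 ≤ σ) (h : C * (2 * σ + 1) ^ 2 ≤ m) :
    C ≤ m ∧ σ ≤ m := by
  have h2 : 1 ≤ (2 * σ + 1) ^ 2 := by nlinarith
  have h3 : C * 1 ≤ C * (2 * σ + 1) ^ 2 := mul_le_mul_of_nonneg_left h2 (by linarith)
  have h4 : 1 * (2 * σ + 1) ^ 2 ≤ C * (2 * σ + 1) ^ 2 := mul_le_mul_of_nonneg_right hC (by positivity)
  constructor
  · linarith
  · nlinarith

theorem ax2 {C m l : ℝ} (hC : 1 ≤ C) (hm : 0 ≤ m) (h : C * m ≤ l) : m ≤ l := by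
  have := mul_le_mul_of_nonneg_right hC hm
  linarith

theorem ax3 {m l : ℝ} (hm : 1 ≤ m) (hl : 1 ≤ l) : 1 ≤ m ^ 2 ∧ m ≤ m ^ 2 * l ∧ m ^ 2 ≤ m ^ 2 * l ∧
    1 ≤ m ^ 2 * l := by
  have h1 : 1 ≤ m ^ 2 := one_le_pow₀ hm
  have h2 : m ≤ m ^ 2 := by nlinarith
  have h3 : m ^ 2 ≤ m ^ 2 * l := le_mul_of_one_le_right (by positivity) hl
  exact ⟨h1, by linarith, h3, by linarith⟩

theorem ax4 {D W : ℝ} (hD : 1 ≤ D) (hW : 1 ≤ W) : 1 ≤ W * D ∧ 1 ≤ W * D ^ 2 ∧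
    W * D ≤ W * D ^ 2 ∧ 2 * D ≤ 8 * (W * D ^ 2) ∧
    1 + 3 * D * (2 * W) ^ 2 ≤ (4 * (W * D)) ^ 2 := by
  have h1 : D ≤ D ^ 2 := by nlinarith
  have h2 : W * D ≤ W * D ^ 2 := mul_le_mul_of_nonneg_left h1 (by linarith)
  have h3 : 1 ≤ W * D := by nlinarith
  have h4 : D ≤ W * D := le_mul_of_one_le_left (by linarith) hW
  have h6 : 1 ≤ W ^ 2 := one_le_pow₀ hW
  have h8 : W ^ 2 * D ≤ W ^ 2 * D ^ 2 := mul_le_mul_of_nonneg_left h1 (by positivity)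
  have h9 : 1 ≤ W ^ 2 * D ^ 2 := by nlinarith
  refine ⟨h3, by linarith, h2, by linarith, ?_⟩
  nlinarith

theorem ax5 {u z s : ℝ} (hu : 1 ≤ u) (hz : 1 ≤ z) (hs : 1 ≤ s) : 1 ≤ z * s ∧ u ≤ u ^ 3 ∧
    u ^ 3 ≤ z * s * u ^ 3 := by
  have h1 : 1 ≤ z * s := one_le_mul_of_one_le_of_one_le hz hs
  refine ⟨h1, le_self_pow₀ hu (by norm_num), ?_⟩
  exact le_mul_of_one_le_left (by positivity) h1

theorem ax6 {a b c d D : ℝ} (ha : |a| ≤ c * b) (hd : |d| ≤ D) (hc : 0 ≤ c) (hc8 : c ≤ 8)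
    (hb : 0 ≤ b) : |a| * |d| ≤ 8 * (b * D) := by
  have h1 : |a| * |d| ≤ c * b * D := mul_le_mul ha hd (abs_nonneg _) (by positivity)
  have hD : 0 ≤ D := (abs_nonneg _).trans hd
  have h2 : c * (b * D) ≤ 8 * (b * D) := mul_le_mul_of_nonneg_right hc8 (by positivity)
  linarith

theorem ax7 {ε m : ℝ} (hε : 0 < ε) (h : 1 / ε ≤ m) : 1 ≤ ε * (8 * m) := by
  rw [div_le_iff₀ hε] at h
  nlinarith

theorem core (k : ℕ) (l : ℤ[X]) (hF : Fam k l) (m n : ℕ) (L z Λ H : ℝ) (T : Finset ℤ)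
    (x y : ℤ → ℤ) (hkm : k ≤ m) (hm : 1 ≤ m) (hn : n = 2 * m) (hL1 : 1 ≤ L) (hz1 : 1 ≤ z)
    (hΛ1 : 1 ≤ Λ) (h4m : (3 * n : ℝ) ≤ Λ) (hlog : Real.log (120 * √L * Λ) ≤ 2 * Λ)
    (hH1 : 1 ≤ H) (hlH : ∀ i, |(l.coeff i : ℝ)| ≤ H)
    (hbase : ∀ τ ∈ T, |(τ : ℝ)| ≤ L ∧ 2 ≤ l.eval τ ∧ Squarefree (l.eval τ) ∧
      Fund (l.eval τ) (x τ) (y τ))
    (hHx' : ∀ τ ∈ T, ∀ j < n, |(((x τ + 1) * τ ^ j : ℤ) : ℝ)| ≤ H ∧
      |((y τ * τ ^ j : ℤ) : ℝ)| ≤ H)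
    (hHx : ∀ τ ∈ T, ∀ j < m, |((x τ * τ ^ j : ℤ) : ℝ)| ≤ H ∧
      |((y τ * τ ^ j : ℤ) : ℝ)| ≤ H)
    (hdet : ∀ f : Fin m ⊕ Fin m → ℤ, (∀ i, f i ∈ T) →
      (Mat m (fun i => x (f i)) (fun i => y (f i)) f).det = 0)
    (hb2 : 2 * z * (n * (2 * n * H) ^ (2 * n) * L ^ n) ≤ Real.exp Λ) :
    ∃ M : ℤ, M ≠ 0 ∧ |(M : ℝ)| ≤ (((2 * n + 2) * (2 * n * H) ^ (2 * n)) ^ (2 * n + 2)) ^ 2 ∧
      ∃ E ⊆ T, (E.card : ℝ) ≤ (m : ℝ) ^ 2 + 4 * (n : ℝ) ^ 2 + 3200000 * z * √L * Λ ^ 3 ∧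
      ∀ τ ∈ T \ E, z < (Int.gcd (l.eval τ) M : ℝ) := by
  have hnr : (n : ℝ) = 2 * m := by rw [hn]; push_cast; ring
  have hm1 : (1 : ℝ) ≤ m := by exact_mod_cast hm
  have hsL1 : 1 ≤ √L := by rw [Real.one_le_sqrt]; exact hL1
  have h2nH : 1 ≤ 2 * (n : ℝ) * H := by rw [hnr]; nlinarith
  have hbig1 : 1 ≤ ((2 * n + 2) * (2 * n * H) ^ (2 * n)) ^ (2 * n + 2) := by
    apply one_le_pow₀
    have h1 : 1 ≤ (2 * (n : ℝ) * H) ^ (2 * n) := one_le_pow₀ h2nH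
    have h2 : (1 : ℝ) ≤ 2 * n + 2 := by rw [hnr]; linarith
    nlinarith
  obtain ⟨T', hT'T, hT'c, A, B, hAB, hAd, hBd, hAc, hBc, hcop, hrel⟩ :=
    Pool.Agent.Q182.PL.min m hm T x y H hH1 hHx hdet
  have hT'c' : ((T \ T').card : ℝ) ≤ (m : ℝ) ^ 2 := by exact_mod_cast hT'c
  have hposR : 0 ≤ 3200000 * z * √L * Λ ^ 3 := by positivity
  have hm4 : 0 ≤ 4 * (n : ℝ) ^ 2 := by positivity
  have hcard : (T.card : ℝ) ≤ T'.card + (m : ℝ) ^ 2 := by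
    have h1 := Finset.card_sdiff_add_card_eq_card hT'T
    have h2 : (T.card : ℝ) = ((T \ T').card : ℝ) + T'.card := by exact_mod_cast h1.symm
    linarith
  -- all points are exceptional
  have hfin : ((T'.card : ℝ) ≤ 3200000 * z * √L * Λ ^ 3) → ∃ M : ℤ, M ≠ 0 ∧
      |(M : ℝ)| ≤ (((2 * n + 2) * (2 * n * H) ^ (2 * n)) ^ (2 * n + 2)) ^ 2 ∧ ∃ E ⊆ T,
      (E.card : ℝ) ≤ (m : ℝ) ^ 2 + 4 * (n : ℝ) ^ 2 + 3200000 * z * √L * Λ ^ 3 ∧
      ∀ τ ∈ T \ E, z < (Int.gcd (l.eval τ) M : ℝ) := by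
    intro h
    refine ⟨1, one_ne_zero, ?_, T, Finset.Subset.refl _, by linarith, ?_⟩
    · simp only [Int.cast_one, abs_one]
      exact one_le_pow₀ hbig1
    · intro τ hτ
      simp at hτ
  rcases T'.eq_empty_or_nonempty with hT'e | ⟨τ₀, hτ₀⟩
  · apply hfin
    rw [hT'e]
    simpa using hposR
  have hA0 : A ≠ 0 := by
    intro hA
    have h1 := hrel τ₀ hτ₀
    rw [hA, Polynomial.eval_zero, mul_zero, zero_add] at h1
    have h2 : y τ₀ ≠ 0 := by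
      have := (hbase τ₀ (hT'T hτ₀)).2.2.2.2.1
      omega
    refine no_root hcop τ₀ (by rw [hA, Polynomial.eval_zero]) ?_
    exact (mul_eq_zero.mp h1).resolve_left h2
  -- the points
  have hg : ∀ τ ∈ T', ∃ g : ℤ, g ≠ 0 ∧ A.eval τ = y τ * g ∧ B.eval τ = - x τ * g := by
    intro τ hτ
    have h1 := hrel τ hτ
    obtain ⟨-, -, -, hx1, hy1, heq, -⟩ := hbase τ (hT'T hτ)
    have hcx : IsCoprime (y τ) (x τ) :=
      ⟨-(l.eval τ * y τ), x τ, by linear_combination heq⟩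
    have h2 : y τ ∣ x τ * A.eval τ := by
      refine ⟨-B.eval τ, ?_⟩
      linear_combination h1
    obtain ⟨g, hg⟩ := hcx.dvd_of_dvd_mul_left h2
    have hy0 : y τ ≠ 0 := by omega
    have h3 : B.eval τ = - x τ * g := by
      apply mul_left_cancel₀ hy0
      rw [hg] at h1
      linear_combination h1
    refine ⟨g, fun hg0 => ?_, hg, h3⟩
    rw [hg0, mul_zero] at hg h3
    exact no_root hcop τ hg h3
  by_cases hNS : NonSq (B ^ 2 - l * A ^ 2)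
  · apply hfin
    have hdG : (B ^ 2 - l * A ^ 2).natDegree ≤ 3 * m := by
      have h1 := deg_GF (n := 1) (l := l) (P := A) (Q := B) hF.deg hkm hAd hBd
      unfold GF at h1
      rwa [C_1, one_mul] at h1
    have h1 := cuq_true (B ^ 2 - l * A ^ 2) (3 * m) hdG hNS L Λ hL1 hΛ1
      (by push_cast; linarith) T' (fun τ hτ => (hbase τ (hT'T hτ)).1) (fun τ hτ => by
        obtain ⟨g, hg0, hgA, hgB⟩ := hg τ hτ
        obtain ⟨-, -, -, hx1, hy1, heq, -⟩ := hbase τ (hT'T hτ)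
        refine ⟨g, ?_, ?_⟩
        · rw [Polynomial.eval_sub, Polynomial.eval_mul, Polynomial.eval_pow, Polynomial.eval_pow,
            hgA, hgB]
          linear_combination (-g ^ 2) * heq
        · have h2 := val_bnd A m _ L τ hAd hAc hL1 (hbase τ (hT'T hτ)).1
          have h3 : |(g : ℝ)| ≤ |((A.eval τ : ℤ) : ℝ)| := by
            rw [hgA]
            push_cast
            rw [abs_mul]
            have h4 : (1 : ℝ) ≤ |(y τ : ℝ)| := by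
              rw [abs_of_nonneg (by exact_mod_cast (by omega : (0 : ℤ) ≤ y τ))]
              exact_mod_cast hy1
            nlinarith [abs_nonneg (g : ℝ)]
          refine (h3.trans h2).trans (le_trans ?_ hb2)
          have h6 : (2 * (m : ℝ) * H) ^ (2 * m) ≤ (2 * (n : ℝ) * H) ^ (2 * n) := by
            have h7 : 2 * (m : ℝ) * H ≤ 2 * (n : ℝ) * H := by rw [hnr]; nlinarith
            have h8 : 1 ≤ 2 * (n : ℝ) * H := by rw [hnr]; nlinarith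
            exact (pow_le_pow_left₀ (by positivity) h7 _).trans
              (pow_le_pow_right₀ h8 (by omega))
          have h9 : L ^ m ≤ L ^ n := pow_le_pow_right₀ hL1 (by omega)
          have h5 : (m : ℝ) ≤ n := by rw [hnr]; linarith
          have h10 : (m : ℝ) * (2 * (m : ℝ) * H) ^ (2 * m) * L ^ m ≤
              n * (2 * (n : ℝ) * H) ^ (2 * n) * L ^ n :=
            mul_le_mul (mul_le_mul h5 h6 (by positivity) (by positivity)) h9 (by positivity)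
              (by positivity)
          refine h10.trans ?_
          exact le_mul_of_one_le_left (by positivity) (by linarith))
    refine h1.trans ?_
    have h2 : 200000 * √L * Λ ^ 2 * Real.log (120 * √L * Λ) ≤ 200000 * √L * Λ ^ 2 * (2 * Λ) :=
      mul_le_mul_of_nonneg_left hlog (by positivity)
    refine h2.trans ?_
    have h3 : 0 ≤ √L * Λ ^ 3 := by positivity
    have h4 : 200000 * √L * Λ ^ 2 * (2 * Λ) = 400000 * (√L * Λ ^ 3) := by ring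
    have h5 : 3200000 * z * √L * Λ ^ 3 = 3200000 * (z * (√L * Λ ^ 3)) := by ring
    rw [h4, h5]
    nlinarith
  · obtain ⟨P, Q, hPQ, hPd, hQd, hPQr⟩ := strf k l hF m A B hA0 hAd hcop hNS
    obtain ⟨T₁, hT₁⟩ : ∃ T₁ : Finset ℤ, T₁ = T'.filter fun τ =>
      (x τ - 1) * P.eval τ + y τ * Q.eval τ = 0 := ⟨_, rfl⟩
    obtain ⟨T₂, hT₂⟩ : ∃ T₂ : Finset ℤ, T₂ = T'.filter fun τ =>
      (x τ + 1) * P.eval τ + y τ * Q.eval τ = 0 := ⟨_, rfl⟩
    have hT₁T : T₁ ⊆ T := by rw [hT₁]; exact (Finset.filter_subset _ _).trans hT'T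
    have hT₂T : T₂ ⊆ T := by rw [hT₂]; exact (Finset.filter_subset _ _).trans hT'T
    have hT12 : ∀ τ ∈ T', τ ∈ T₁ ∨ τ ∈ T₂ := by
      intro τ hτ
      obtain ⟨g, hg0, hgA, hgB⟩ := hg τ hτ
      obtain ⟨-, -, -, hx1, hy1, heq, -⟩ := hbase τ (hT'T hτ)
      rcases hPQr τ (x τ) (y τ) g hg0 hy1 heq hgA hgB with h | h
      · left
        rw [hT₁]
        exact Finset.mem_filter.mpr ⟨hτ, h⟩
      · right
        rw [hT₂]
        exact Finset.mem_filter.mpr ⟨hτ, h⟩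
    obtain ⟨M₁, hM₁0, hM₁, E₁, hE₁, hE₁c, hg₁⟩ := clf k l hF m n 1 L z Λ H T₁ x y P Q hkm hm hn
      (Or.inl rfl) hL1 hz1 hΛ1 h4m hH1 hlH
      (fun τ hτ => hbase τ (hT₁T hτ)) (fun τ hτ => hHx' τ (hT₁T hτ)) hPQ hPd hQd
      (fun τ hτ => by rw [hT₁] at hτ; exact (Finset.mem_filter.mp hτ).2) hb2
    obtain ⟨M₂, hM₂0, hM₂, E₂, hE₂, hE₂c, hg₂⟩ := clf k l hF m n (-1) L z Λ H T₂ x y P Q hkm hm hn
      (Or.inr rfl) hL1 hz1 hΛ1 h4m hH1 hlH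
      (fun τ hτ => hbase τ (hT₂T hτ)) (fun τ hτ => hHx' τ (hT₂T hτ)) hPQ hPd hQd
      (fun τ hτ => by
        rw [hT₂] at hτ
        have := (Finset.mem_filter.mp hτ).2
        rwa [sub_neg_eq_add]) hb2
    refine ⟨M₁ * M₂, mul_ne_zero hM₁0 hM₂0, ?_, (T \ T') ∪ (E₁ ∪ E₂), ?_, ?_, ?_⟩
    · push_cast
      rw [abs_mul]
      rw [pow_two]
      exact mul_le_mul hM₁ hM₂ (abs_nonneg _) (by linarith)
    · refine Finset.union_subset Finset.sdiff_subset (Finset.union_subset (hE₁.trans hT₁T)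
        (hE₂.trans hT₂T))
    · have h1 : (((T \ T') ∪ (E₁ ∪ E₂)).card : ℝ) ≤ ((T \ T').card : ℝ) + (E₁.card + E₂.card) := by
        have h2 := Finset.card_union_le (T \ T') (E₁ ∪ E₂)
        have h3 := Finset.card_union_le E₁ E₂
        have h4 : ((T \ T') ∪ (E₁ ∪ E₂)).card ≤ (T \ T').card + (E₁.card + E₂.card) := by omega
        exact_mod_cast h4
      have h5 : 800000 * z * √L * Λ ^ 2 * Real.log (120 * √L * Λ) ≤
          800000 * z * √L * Λ ^ 2 * (2 * Λ) := mul_le_mul_of_nonneg_left hlog (by positivity)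
      have h6 : 800000 * z * √L * Λ ^ 2 * (2 * Λ) = 1600000 * z * √L * Λ ^ 3 := by ring
      rw [h6] at h5
      linarith
    · intro τ hτ
      rw [Finset.mem_sdiff, Finset.mem_union, Finset.mem_union, not_or, not_or] at hτ
      obtain ⟨hτT, hτ1, hτ2, hτ3⟩ := hτ
      have hτT' : τ ∈ T' := by
        by_contra h
        exact hτ1 (Finset.mem_sdiff.mpr ⟨hτT, h⟩)
      have hne : l.eval τ ≠ 0 := by
        have := (hbase τ hτT).2.1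
        omega
      have hgle : ∀ M : ℤ, M ∣ M₁ * M₂ →
          (Int.gcd (l.eval τ) M : ℝ) ≤ Int.gcd (l.eval τ) (M₁ * M₂) := by
        intro M hM
        have h1 : Int.gcd (l.eval τ) M ∣ Int.gcd (l.eval τ) (M₁ * M₂) :=
          Int.gcd_dvd_gcd_of_dvd_right _ hM
        exact_mod_cast Nat.le_of_dvd (Int.gcd_pos_of_ne_zero_left _ hne) h1
      rcases hT12 τ hτT' with h | h
      · exact (hg₁ τ (Finset.mem_sdiff.mpr ⟨h, hτ2⟩)).trans_le (hgle M₁ (Dvd.intro _ rfl))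
      · exact (hg₂ τ (Finset.mem_sdiff.mpr ⟨h, hτ3⟩)).trans_le (hgle M₂ (Dvd.intro_left _ rfl))

theorem pigf (k : ℕ) (ε : ℝ) (hε : 0 < ε) (hε1 : ε ≤ 1) : ∃ C₈ : ℝ, 1 ≤ C₈ ∧
    ∀ (D V σ z S : ℝ) (m : ℕ) (l : ℤ[X]) (T : Finset ℤ), C₈ ≤ D → 0 ≤ σ →
    C₈ * (2 * σ + 1) ^ 2 ≤ m → C₈ * m ≤ Real.log D → 1 ≤ V → V ≤ D ^ σ → 1 ≤ z → z ≤ D →
    Near k ε D S l →
    (∀ τ ∈ T, |(τ : ℝ)| ≤ D ^ (1 / (8 * (m : ℝ))) ∧ D ≤ ((l.eval τ : ℤ) : ℝ) ∧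
      Squarefree (l.eval τ) ∧ ∃ x y : ℤ, Fund (l.eval τ) x y ∧ V ≤ y ∧ (y : ℝ) < 2 * V) →
    ∃ M : ℤ, M ≠ 0 ∧ Real.log |(M : ℝ)| ≤ C₈ * (m : ℝ) ^ 3 * Real.log D ∧ ∃ E ⊆ T,
      (E.card : ℝ) ≤ C₈ * z * D ^ (1 / (16 * (m : ℝ))) * ((m : ℝ) ^ 2 * Real.log D) ^ 3 ∧
      ∀ τ ∈ T \ E, z < (Int.gcd (l.eval τ) M : ℝ) := by
  obtain ⟨C₇, hC7, hPV⟩ := pvf k ε hε hε1
  refine ⟨C₇ + (k + 1) + 1 / ε + 10 ^ 12, by
    have h1 : (0 : ℝ) ≤ k := Nat.cast_nonneg k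
    have h2 : 0 < 1 / ε := by positivity
    linarith, ?_⟩
  intro D V σ z S m l T hD hσ0 hσm hCm hV1 hVD hz1 hzD hN hT
  obtain ⟨C₈, hC₈⟩ : ∃ C₈ : ℝ, C₈ = C₇ + (k + 1) + 1 / ε + 10 ^ 12 := ⟨_, rfl⟩
  rw [← hC₈] at hD hσm hCm ⊢
  have hk0 : (0 : ℝ) ≤ k := Nat.cast_nonneg k
  have hε0 : 0 < 1 / ε := by positivity
  have hC87 : C₇ ≤ C₈ := by rw [hC₈]; linarith
  have hC8k : (k : ℝ) + 1 ≤ C₈ := by rw [hC₈]; linarith
  have hC8n : (10 : ℝ) ^ 12 ≤ C₈ := by rw [hC₈]; linarith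
  obtain ⟨hmC, hσle⟩ := ax1 (by linarith : 1 ≤ C₈) hσ0 hσm
  have hm1 : (1 : ℝ) ≤ m := by linarith
  have hm : 1 ≤ m := by exact_mod_cast hm1
  have hkm : k ≤ m := by
    have : (k : ℝ) ≤ m := by linarith
    exact_mod_cast this
  have hD1 : 1 ≤ D := by linarith
  have hDpos : 0 < D := by linarith
  have hlm : (m : ℝ) ≤ Real.log D := ax2 (by linarith : 1 ≤ C₈) (by linarith) hCm
  have hl1 : 1 ≤ Real.log D := hm1.trans hlm
  have hC7m : C₇ * m ≤ Real.log D := (mul_le_mul_of_nonneg_right hC87 (by linarith)).trans hCm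
  have hσm7 : C₇ * (2 * σ + 1) ^ 2 ≤ m :=
    (mul_le_mul_of_nonneg_right hC87 (by positivity)).trans hσm
  obtain ⟨Λ, hΛ⟩ : ∃ Λ, Λ = 50 * (m : ℝ) ^ 2 * Real.log D := ⟨_, rfl⟩
  obtain ⟨hm2, hml, hm2l, hu1'⟩ := ax3 hm1 hl1
  have h40 : (50 : ℝ) * m ≤ Λ := by rw [hΛ]; linarith
  have hΛ1 : 1 ≤ Λ := by linarith
  obtain ⟨L, hL⟩ : ∃ L, L = D ^ (1 / (8 * (m : ℝ))) := ⟨_, rfl⟩
  have hL1 : 1 ≤ L := by rw [hL]; exact Real.one_le_rpow hD1 (by positivity)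
  have hlog : Real.log (120 * √L * Λ) ≤ 2 * Λ := by
    rw [hL, hΛ]
    exact log_bnd' D m hm hD1 hlm
  have hsL : √L = D ^ (1 / (16 * (m : ℝ))) := by rw [hL]; exact sqrt_eq D m hm hD1
  have hsL1 : 1 ≤ √L := by rw [Real.one_le_sqrt]; exact hL1
  obtain ⟨n, hn⟩ : ∃ n, n = 2 * m := ⟨_, rfl⟩
  have hnr : (n : ℝ) = 2 * m := by rw [hn]; push_cast; ring
  obtain ⟨hb1, hb2, hb3⟩ := bnd1 D σ z m n hm hn hD1 hlm hσle hz1 hzD
  rw [← hL] at hb2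
  rw [← hΛ] at hb2
  rw [← hsL]
  simp only [← hL] at hT
  -- `L ≤ S`
  have hDε : D ^ ε ≤ S := hN.Sge
  have hS0 : 0 < S := lt_of_lt_of_le (Real.rpow_pos_of_pos hDpos _) hDε
  have hS1 : 1 ≤ S := (Real.one_le_rpow hD1 hε.le).trans hDε
  have hLS : L ≤ S := by
    refine le_trans ?_ hDε
    rw [hL]
    apply Real.rpow_le_rpow_of_exponent_le hD1
    have h1 : 1 / ε ≤ m := by
      refine le_trans ?_ hmC
      rw [hC₈]
      linarith
    rw [div_le_iff₀ (by positivity)]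
    exact ax7 hε h1
  -- the reduction
  suffices hmain : ∃ M : ℤ, M ≠ 0 ∧ |(M : ℝ)| ≤ Real.exp (500 * (m : ℝ) ^ 3 * Real.log D) ∧
      ∃ E ⊆ T, (E.card : ℝ) ≤ (m : ℝ) ^ 2 + 4 * (n : ℝ) ^ 2 + 3200000 * z * √L * Λ ^ 3 ∧
      ∀ τ ∈ T \ E, z < (Int.gcd (l.eval τ) M : ℝ) by
    obtain ⟨M, hM0, hM, E, hE, hEc, hgcd⟩ := hmain
    refine ⟨M, hM0, ?_, E, hE, ?_, hgcd⟩
    · have h1 : Real.log |(M : ℝ)| ≤ 500 * (m : ℝ) ^ 3 * Real.log D := by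
        have hpos : 0 < |(M : ℝ)| := abs_pos.mpr (by exact_mod_cast hM0)
        exact (Real.log_le_iff_le_exp hpos).mpr hM
      refine h1.trans ?_
      have h2 : (500 : ℝ) ≤ C₈ := by linarith
      have h3 : 0 ≤ (m : ℝ) ^ 3 * Real.log D := by positivity
      have h9 := mul_le_mul_of_nonneg_right h2 h3
      rw [mul_assoc, mul_assoc]
      exact h9
    · refine hEc.trans ?_
      obtain ⟨u, hu⟩ : ∃ u, u = (m : ℝ) ^ 2 * Real.log D := ⟨_, rfl⟩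
      have hΛu : Λ = 50 * u := by rw [hΛ, hu]; ring
      rw [← hu, hΛu, hnr]
      have hu1 : 1 ≤ u := by rw [hu]; exact hu1'
      have hmu : (m : ℝ) ≤ u := by rw [hu]; exact hml
      obtain ⟨hzs, h3, h4⟩ := ax5 hu1 hz1 hsL1
      have h1 : (m : ℝ) ^ 2 + 4 * (2 * (m : ℝ)) ^ 2 = 17 * (m : ℝ) ^ 2 := by ring
      have h2 : (m : ℝ) ^ 2 ≤ u := by rw [hu]; exact hm2l
      have hu3 : 0 ≤ u ^ 3 := by positivity
      have h5 : 3200000 * z * √L * (50 * u) ^ 3 = 400000000000 * (z * √L * u ^ 3) := by ring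
      rw [h5, h1]
      have h6 : 0 ≤ z * √L * u ^ 3 := by positivity
      have h7 : C₈ * z * √L * u ^ 3 = C₈ * (z * √L * u ^ 3) := by ring
      rw [h7]
      have h8 : 10 ^ 12 * (z * √L * u ^ 3) ≤ C₈ * (z * √L * u ^ 3) :=
        mul_le_mul_of_nonneg_right hC8n h6
      linarith
  have h4 : ∀ τ ∈ T, ∃ x y : ℤ, Fund (l.eval τ) x y ∧ V ≤ y ∧ (y : ℝ) < 2 * V :=
    fun τ hτ => (hT τ hτ).2.2.2
  choose! x y hX using h4
  have hτL : ∀ τ ∈ T, |(τ : ℝ)| ≤ L := fun τ hτ => (hT τ hτ).1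
  have hdR : ∀ τ ∈ T, D ≤ ((l.eval τ : ℤ) : ℝ) ∧ ((l.eval τ : ℤ) : ℝ) ≤ 3 * D := by
    intro τ hτ
    refine ⟨(hT τ hτ).2.1, ?_⟩
    have h1 := near_eval hN hDpos hS0 τ ((hτL τ hτ).trans hLS)
    have h2 := (abs_le.1 h1).2
    have h3 := hN.l02
    linarith
  obtain ⟨W, hW⟩ : ∃ W, W = D ^ σ := ⟨_, rfl⟩
  have hW1 : 1 ≤ W := hV1.trans (hW ▸ hVD)
  have hVW : V ≤ W := hW ▸ hVD
  obtain ⟨H, hH⟩ : ∃ H, H = 8 * (W * D ^ 2) := ⟨_, rfl⟩
  obtain ⟨hWD1, hWD, hWD2, hWD3, hWD4⟩ := ax4 hD1 hW1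
  have hH1 : 1 ≤ H := by rw [hH]; linarith
  rw [← hW, ← hH] at hb1 hb2 hb3
  have hlH : ∀ i, |(l.coeff i : ℝ)| ≤ H := by
    intro i
    have h3 := hN.l02
    have h30 := hN.l0
    have hD2 : 2 * D ≤ H := by
      rw [hH]
      exact hWD3
    rcases Nat.eq_zero_or_pos i with rfl | hi
    · rw [abs_of_nonneg (by linarith)]
      linarith
    · have h1 := hN.coef i hi
      have h2 : |(l.coeff i : ℝ)| ≤ |(l.coeff i : ℝ)| * S ^ i :=
        le_mul_of_one_le_right (abs_nonneg _) (one_le_pow₀ hS1)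
      have h5 : (l.coeff 0 : ℝ) / (4 * ((k : ℝ) + 1)) ≤ (l.coeff 0 : ℝ) := by
        apply div_le_self (by linarith)
        linarith
      linarith
  -- sizes
  have hLn : ∀ j ≤ n, L ^ j ≤ D := by
    intro j hj
    refine (pow_le_pow_right₀ hL1 hj).trans ?_
    rw [hL, ← Real.rpow_natCast, ← Real.rpow_mul hDpos.le]
    have h1 : 1 / (8 * (m : ℝ)) * n ≤ 1 := by
      rw [div_mul_eq_mul_div, one_mul, div_le_one (by positivity), hnr]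
      linarith
    have := Real.rpow_le_rpow_of_exponent_le hD1 h1
    rwa [Real.rpow_one] at this
  have hxR : ∀ τ ∈ T, |(x τ : ℝ)| ≤ 4 * (W * D) := by
    intro τ hτ
    obtain ⟨⟨hx1, hy1, heq, -⟩, hyV, hyV2⟩ := hX τ hτ
    have h1 : (x τ : ℝ) ^ 2 - ((l.eval τ : ℤ) : ℝ) * (y τ : ℝ) ^ 2 = 1 := by
      exact_mod_cast heq
    have h2 := (hdR τ hτ).2
    have h3 : (0 : ℝ) ≤ y τ := by linarith
    have h4 : (y τ : ℝ) ^ 2 ≤ (2 * W) ^ 2 := pow_le_pow_left₀ h3 (by linarith) 2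
    have h5 : ((l.eval τ : ℤ) : ℝ) * (y τ : ℝ) ^ 2 ≤ 3 * D * (2 * W) ^ 2 :=
      mul_le_mul h2 h4 (by positivity) (by positivity)
    refine abs_le_of_sq_le_sq ?_ (by positivity)
    linarith
  have hyR : ∀ τ ∈ T, |(y τ : ℝ)| ≤ 2 * W := by
    intro τ hτ
    obtain ⟨-, hyV, hyV2⟩ := hX τ hτ
    rw [abs_of_nonneg (by linarith)]
    linarith
  have hτj : ∀ τ ∈ T, ∀ j ≤ n, |(τ : ℝ) ^ j| ≤ D := by
    intro τ hτ j hj
    rw [abs_pow]
    exact (pow_le_pow_left₀ (abs_nonneg _) (hτL τ hτ) j).trans (hLn j hj)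
  have hHx' : ∀ τ ∈ T, ∀ j < n, |(((x τ + 1) * τ ^ j : ℤ) : ℝ)| ≤ H ∧
      |((y τ * τ ^ j : ℤ) : ℝ)| ≤ H := by
    intro τ hτ j hj
    push_cast
    rw [abs_mul, abs_mul, hH, pow_two, ← mul_assoc W]
    have h0 : |(x τ : ℝ) + 1| ≤ 5 * (W * D) := by
      refine (abs_add_le _ _).trans ?_
      rw [abs_one]
      have := hxR τ hτ
      linarith
    have hWl : W ≤ W * D := le_mul_of_one_le_right (by linarith) hD1
    have h01 : |(y τ : ℝ)| ≤ 2 * (W * D) := (hyR τ hτ).trans (by linarith)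
    exact ⟨ax6 h0 (hτj τ hτ j hj.le) (by norm_num) (by norm_num) (by linarith),
      ax6 h01 (hτj τ hτ j hj.le) (by norm_num) (by norm_num) (by linarith)⟩
  have hHx : ∀ τ ∈ T, ∀ j < m, |((x τ * τ ^ j : ℤ) : ℝ)| ≤ H ∧
      |((y τ * τ ^ j : ℤ) : ℝ)| ≤ H := by
    intro τ hτ j hj
    refine ⟨?_, (hHx' τ hτ j (by omega)).2⟩
    push_cast
    rw [abs_mul, hH, pow_two, ← mul_assoc W]
    exact ax6 (hxR τ hτ) (hτj τ hτ j (by omega)) (by norm_num) (by norm_num) (by linarith)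
  have hdet : ∀ f : Fin m ⊕ Fin m → ℤ, (∀ i, f i ∈ T) →
      (Mat m (fun i => x (f i)) (fun i => y (f i)) f).det = 0 := by
    intro f hf
    refine hPV m D V σ S l (fun i => x (f i)) (fun i => y (f i)) f hN.fam.deg hm
      (hC87.trans hD) hσ0 hσm7 hC7m hV1 hVD hDε hN.l0 hN.l02 hN.coef
      (fun i => by rw [← hL]; exact hτL _ (hf i)) (fun i => (hdR _ (hf i)).1)
      (fun i => (hX _ (hf i)).2) (fun i => by have := (hX _ (hf i)).1.1; omega) (fun i => ?_)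
    have h2 := (hX _ (hf i)).1.2.2.1
    rw [h2]
    simp only [Int.cast_one, abs_one]
    exact Real.one_le_rpow hD1 (by norm_num)
  have hbase : ∀ τ ∈ T, |(τ : ℝ)| ≤ L ∧ 2 ≤ l.eval τ ∧ Squarefree (l.eval τ) ∧
      Fund (l.eval τ) (x τ) (y τ) := by
    intro τ hτ
    refine ⟨hτL τ hτ, ?_, (hT τ hτ).2.2.1, (hX τ hτ).1⟩
    have h1 := (hdR τ hτ).1
    have h2 : (2 : ℝ) ≤ ((l.eval τ : ℤ) : ℝ) := by linarith
    exact_mod_cast h2
  have h4m : (3 * n : ℝ) ≤ Λ := by rw [hnr]; linarith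
  obtain ⟨M, hM0, hM, hE⟩ := core k l hN.fam m n L z Λ H T x y hkm hm hn hL1 hz1 hΛ1 h4m hlog hH1
    hlH hbase hHx' hHx hdet hb2
  refine ⟨M, hM0, hM.trans ?_, hE⟩
  have h1 : Real.exp (500 * (m : ℝ) ^ 3 * Real.log D) =
      Real.exp (250 * (m : ℝ) ^ 3 * Real.log D) ^ 2 := by
    rw [← Real.exp_nat_mul]
    congr 1
    push_cast
    ring
  rw [h1]
  exact pow_le_pow_left₀ (by positivity) hb3 2

end Pool.Agent.H45.PF
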