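import Pool.Agent.H45.PF.NEARF

/-! Covering an interval by windows. -/

set_option autoImplicit false

namespace Pool.Agent.H45.PF

open Polynomial Pool.Agent.Q276.PL Filter Topology

/-- the integers of an interval with squarefree value and a small fundamental solution -/
def Bad (f : ℤ[X]) (N H : ℕ) (Y : ℝ) : Set ℕ := {n : ℕ | N < n ∧ n ≤ N + H ∧
  Squarefree (f.eval (n : ℤ)) ∧ ∃ x y : ℤ, Fund (f.eval (n : ℤ)) x y ∧ (y : ℝ) ≤ Y}

theorem bad_finite (f : ℤ[X]) (N H : ℕ) (Y : ℝ) : (Bad f N H Y).Finite := by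
  refine (Set.finite_Icc N (N + H)).subset ?_
  rintro n ⟨h1, h2, -⟩
  exact ⟨h1.le, h2⟩

theorem cover (f : ℤ[X]) (N H : ℕ) (Y L W : ℝ) (hL : 1 ≤ L) (hLH : L ≤ H) (hW : 0 ≤ W)
    (h : ∀ c : ℤ, (N : ℝ) + L ≤ c → (c : ℝ) ≤ N + 2 * H →
      ((Win (taylor c f) L Y).ncard : ℝ) ≤ L * W) : ((Bad f N H Y).ncard : ℝ) ≤ 2 * H * W := by
  classical
  obtain ⟨B, hB⟩ : ∃ B : Finset ℕ, B = (bad_finite f N H Y).toFinset := ⟨_, rfl⟩
  have hBc : (Bad f N H Y).ncard = B.card := by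
    rw [hB, Set.ncard_eq_toFinset_card _ (bad_finite f N H Y)]
  have hBmem : ∀ n ∈ B, N < n ∧ n ≤ N + H ∧ Squarefree (f.eval (n : ℤ)) ∧
      ∃ x y : ℤ, Fund (f.eval (n : ℤ)) x y ∧ (y : ℝ) ≤ Y := by
    intro n hn
    rw [hB, Set.Finite.mem_toFinset] at hn
    exact hn
  rw [hBc]
  obtain ⟨r, hr⟩ : ∃ r : ℕ, r = ⌊L⌋₊ := ⟨_, rfl⟩
  have hrL : (r : ℝ) ≤ L := by rw [hr]; exact Nat.floor_le (by linarith)
  have hLr : L < r + 1 := by rw [hr]; exact Nat.lt_floor_add_one L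
  have hr1 : 1 ≤ r := by rw [hr]; exact (Nat.one_le_floor_iff L).2 hL
  have hr1' : (1 : ℝ) ≤ r := by exact_mod_cast hr1
  obtain ⟨g, hg⟩ : ∃ g : ℕ, g = 2 * r + 1 := ⟨_, rfl⟩
  have hg0 : 0 < g := by omega
  have hgL : L ≤ g := by
    rw [hg]
    push_cast
    linarith
  obtain ⟨J, hJ⟩ : ∃ J : ℕ, J = (H - 1) / g := ⟨_, rfl⟩
  have hH1 : 1 ≤ H := by
    have : (1 : ℝ) ≤ H := hL.trans hLH
    exact_mod_cast this
  have hmaps : ∀ n ∈ B, (n - N - 1) / g ∈ Finset.range (J + 1) := by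
    intro n hn
    have h1 := hBmem n hn
    rw [Finset.mem_range, hJ]
    have h2 : (n - N - 1) / g ≤ (H - 1) / g := Nat.div_le_div_right (by omega)
    omega
  have hfib : ∀ j ∈ Finset.range (J + 1),
      (((B.filter fun n => (n - N - 1) / g = j).card : ℕ) : ℝ) ≤ L * W := by
    intro j hj
    rw [Finset.mem_range] at hj
    rcases (B.filter fun n => (n - N - 1) / g = j).eq_empty_or_nonempty with he | ⟨n₀, hn₀⟩
    · rw [he]
      simp only [Finset.card_empty, Nat.cast_zero]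
      positivity
    obtain ⟨c, hc⟩ : ∃ c : ℕ, c = N + 1 + r + g * j := ⟨_, rfl⟩
    have hjH : g * j ≤ H - 1 := by
      have h1 : j ≤ (H - 1) / g := by omega
      calc g * j ≤ g * ((H - 1) / g) := Nat.mul_le_mul_left _ h1
        _ ≤ H - 1 := Nat.mul_div_le _ _
    have hcR : (c : ℝ) = N + 1 + r + g * j := by rw [hc]; push_cast; ring
    have hc1 : (N : ℝ) + L ≤ ((c : ℤ) : ℝ) := by
      push_cast
      rw [hcR]
      have : (0 : ℝ) ≤ g * j := by positivity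
      linarith
    have hc2 : ((c : ℤ) : ℝ) ≤ N + 2 * H := by
      push_cast
      have h1 : c ≤ N + H + r := by omega
      have h2 : (c : ℝ) ≤ N + H + r := by exact_mod_cast h1
      linarith
    refine le_trans ?_ (h c hc1 hc2)
    have h1 : (B.filter fun n => (n - N - 1) / g = j).card =
        ((B.filter fun n => (n - N - 1) / g = j : Finset ℕ) : Set ℕ).ncard :=
      (Set.ncard_coe_finset _).symm
    rw [h1]
    have h2 := Set.ncard_le_ncard_of_injOn (s := ((B.filter fun n => (n - N - 1) / g = j :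
      Finset ℕ) : Set ℕ)) (t := Win (taylor (c : ℤ) f) L Y) (fun n : ℕ => (n : ℤ) - c) ?_ ?_
      (win_finite _ _ _)
    · exact_mod_cast h2
    · intro n hn
      rw [Finset.mem_coe, Finset.mem_filter] at hn
      obtain ⟨hn1, hn2⟩ := hn
      obtain ⟨h3, h4, h5, x, y, hf, hy⟩ := hBmem n hn1
      have he : (taylor (c : ℤ) f).eval ((n : ℤ) - c) = f.eval (n : ℤ) := by
        rw [taylor_eval]
        congr 1
        ring
      refine ⟨?_, ?_, x, y, ?_, hy⟩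
      · have h6 := Nat.div_add_mod (n - N - 1) g
        rw [hn2] at h6
        have h7 : (n - N - 1) % g < g := Nat.mod_lt _ hg0
        have h8 : n + r = c + (n - N - 1) % g := by omega
        have h9 : |(n : ℤ) - c| ≤ r := by
          rw [abs_le]
          constructor <;> omega
        have h10 : (((|(n : ℤ) - c| : ℤ)) : ℝ) ≤ r := by exact_mod_cast h9
        push_cast at h10 ⊢
        linarith
      · rw [he]
        exact h5
      · rw [he]
        exact hf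
    · intro a _ b _ hab
      simp only at hab
      omega
  have h1 : B.card = ∑ j ∈ Finset.range (J + 1), (B.filter fun n => (n - N - 1) / g = j).card :=
    Finset.card_eq_sum_card_fiberwise hmaps
  have h2 : (B.card : ℝ) ≤ ∑ j ∈ Finset.range (J + 1), L * W := by
    rw [h1]
    push_cast
    exact Finset.sum_le_sum hfib
  refine h2.trans ?_
  rw [Finset.sum_const, Finset.card_range, nsmul_eq_mul]
  push_cast
  have h3 : (J : ℝ) * L ≤ H := by
    have h4 : J * g ≤ H - 1 := by rw [hJ]; exact Nat.div_mul_le_self _ _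
    have h5 : (J : ℝ) * g ≤ H := by
      have h6 : J * g ≤ H := by omega
      exact_mod_cast h6
    have h6 : (J : ℝ) * L ≤ J * g := mul_le_mul_of_nonneg_left hgL (Nat.cast_nonneg J)
    linarith
  calc ((J : ℝ) + 1) * (L * W) = ((J : ℝ) * L + L) * W := by ring
    _ ≤ (2 * H) * W := mul_le_mul_of_nonneg_right (by linarith) hW

theorem nlim (s : ℝ) (hs : 0 < s) : Tendsto (fun N : ℕ => (Real.log N) ^ s) atTop atTop :=
  (loglim s hs).comp tendsto_natCast_atTop_atTop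

/-- a block of the values of a polynomial -/
theorem block (k A : ℕ) (hk : Odd k) (δ : ℝ) (hδ : 0 < δ) (hδ2 : δ < 1 / 2) :
    ∃ N₀ : ℕ, ∀ N ≥ N₀, ∀ f : ℤ[X], Dom k A N f → ∀ H : ℕ,
      Real.exp (Real.log N ^ (9 * δ / 5)) ≤ H → (H : ℝ) ≤ N / (16 * k) →
      ((Bad f N H (Real.exp (6 * Real.log N ^ (3 / 2 - δ)))).ncard : ℝ) ≤
        2 * H * Real.exp (-(2 * Real.log N ^ (δ / 2))) := by
  have hk1 : 1 ≤ k := hk.pos
  have hk1' : (1 : ℝ) ≤ k := by exact_mod_cast hk1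
  obtain ⟨ε, hε⟩ : ∃ ε : ℝ, ε = 1 / (2 * ((A : ℝ) + k)) := ⟨_, rfl⟩
  have hAk : (1 : ℝ) ≤ (A : ℝ) + k := by
    have : (0 : ℝ) ≤ A := Nat.cast_nonneg A
    linarith
  have hε0 : 0 < ε := by rw [hε]; positivity
  have hε1 : ε ≤ 1 := by
    rw [hε, div_le_one (by positivity)]
    linarith
  obtain ⟨D₁, hD₁1, hD₁⟩ := blkf k ε hε0 hε1 (4 * δ / 5) (by positivity) (by linarith)
  obtain ⟨E, hE⟩ : ∃ E : ℝ, E = 8 * ((k : ℝ) + 1) ^ 2 * 2 ^ k := ⟨_, rfl⟩
  have hE0 : 0 < E := by rw [hE]; positivity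
  obtain ⟨N₀, hN₀⟩ := Filter.eventually_atTop.1
    ((tendsto_natCast_atTop_atTop (R := ℝ)).eventually (eventually_ge_atTop (2 * D₁ + 4 + E ^ 2)) |>.and
      (((nlim (δ / 5) (by positivity)).eventually
        (eventually_ge_atTop (24 + ((A : ℝ) + k) ^ (8 * δ / 5)))).and
      (((nlim (δ / 30) (by positivity)).eventually (eventually_ge_atTop 4)).and
      ((nlim 1 one_pos).eventually (eventually_ge_atTop 4)))))
  refine ⟨N₀, fun N hN f hf H hH1 hH2 => ?_⟩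
  obtain ⟨h1, h2, h3, h4⟩ := hN₀ N hN
  rw [Real.rpow_one] at h4
  have hE2 : 0 ≤ E ^ 2 := sq_nonneg E
  have hN1 : (1 : ℝ) ≤ N := by linarith
  have hN0 : (0 : ℝ) < N := by linarith
  obtain ⟨t, ht⟩ : ∃ t, t = Real.log N := ⟨_, rfl⟩
  rw [← ht] at h2 h3 h4 hH1 ⊢
  have ht0 : 0 < t := by linarith
  have hlc : (1 : ℝ) ≤ f.leadingCoeff := by exact_mod_cast hf.one_le
  obtain ⟨D, hD⟩ : ∃ D : ℝ, D = 3 / 4 * (f.leadingCoeff * (N : ℝ) ^ k) := ⟨_, rfl⟩
  have hNk : (N : ℝ) ≤ (N : ℝ) ^ k := le_self_pow₀ hN1 (by omega)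
  have hDN : 3 / 4 * (N : ℝ) ≤ D := by
    rw [hD]
    have h5 : (N : ℝ) ^ k ≤ f.leadingCoeff * (N : ℝ) ^ k := le_mul_of_one_le_left (by positivity) hlc
    linarith
  have hDD : D₁ ≤ D := by linarith
  have hD0 : 0 < D := by linarith
  have hDle : D ≤ (N : ℝ) ^ (A + k) := by
    rw [hD, pow_add]
    have h5 : (f.leadingCoeff : ℝ) * (N : ℝ) ^ k ≤ (N : ℝ) ^ A * (N : ℝ) ^ k :=
      mul_le_mul_of_nonneg_right hf.le_pow (by positivity)
    have h6 : 0 < (f.leadingCoeff : ℝ) * (N : ℝ) ^ k := by positivity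
    linarith
  obtain ⟨l, hl⟩ : ∃ l, l = Real.log D := ⟨_, rfl⟩
  have hl1 : t / 2 ≤ l := by
    have h5 : Real.log (3 / 4 * (N : ℝ)) ≤ l := by
      rw [hl]
      exact Real.log_le_log (by positivity) hDN
    rw [Real.log_mul (by norm_num) hN0.ne', ← ht] at h5
    have h6 : -1 ≤ Real.log (3 / 4) := by
      have h7 : Real.log (4 / 3) ≤ 4 / 3 - 1 := Real.log_le_sub_one_of_pos (by norm_num)
      have h8 : Real.log (3 / 4) = -Real.log (4 / 3) := by
        rw [← Real.log_inv]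
        norm_num
      rw [h8]
      linarith
    linarith
  have hl0 : 0 < l := by linarith
  have hl2 : l ≤ ((A : ℝ) + k) * t := by
    rw [hl, ht]
    have h5 := Real.log_le_log hD0 hDle
    rw [Real.log_pow] at h5
    push_cast at h5
    exact h5
  obtain ⟨L, hL1, hL2, hL3, hLW⟩ := hD₁ D hDD
  rw [← hl] at hL2 hLW
  -- the parameters
  have hSE : ((N : ℝ) ^ (A + k)) ^ ε ≤ N / E := by
    have h5 : ((N : ℝ) ^ (A + k)) ^ ε = √(N : ℝ) := by
      rw [← Real.rpow_natCast, ← Real.rpow_mul hN0.le, Real.sqrt_eq_rpow]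
      congr 1
      rw [hε]
      push_cast
      field_simp
    rw [h5, le_div_iff₀ hE0]
    have h6 : E ≤ √(N : ℝ) := Real.le_sqrt_of_sq_le (by linarith)
    calc √(N : ℝ) * E ≤ √(N : ℝ) * √(N : ℝ) := mul_le_mul_of_nonneg_left h6 (Real.sqrt_nonneg _)
      _ = N := Real.mul_self_sqrt hN0.le
  have hLH : L ≤ H := by
    refine hL2.trans (le_trans ?_ hH1)
    apply Real.exp_le_exp.2
    calc l ^ (2 * (4 * δ / 5)) ≤ (((A : ℝ) + k) * t) ^ (2 * (4 * δ / 5)) :=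
          Real.rpow_le_rpow hl0.le hl2 (by positivity)
      _ = ((A : ℝ) + k) ^ (8 * δ / 5) * t ^ (8 * δ / 5) := by
          rw [Real.mul_rpow (by positivity) ht0.le]
          congr 2 <;> ring
      _ ≤ t ^ (δ / 5) * t ^ (8 * δ / 5) := by
          apply mul_le_mul_of_nonneg_right _ (by positivity)
          linarith
      _ = t ^ (9 * δ / 5) := by
          rw [← Real.rpow_add ht0]
          congr 1
          ring
  have hY : Real.exp (6 * t ^ (3 / 2 - δ)) ≤ Real.exp (l ^ (3 / 2 - 4 * δ / 5)) := by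
    apply Real.exp_le_exp.2
    have h5 : (t / 2) ^ (3 / 2 - 4 * δ / 5) ≤ l ^ (3 / 2 - 4 * δ / 5) :=
      Real.rpow_le_rpow (by positivity) hl1 (by linarith)
    refine le_trans ?_ h5
    rw [Real.div_rpow ht0.le (by norm_num)]
    have h6 : (2 : ℝ) ^ (3 / 2 - 4 * δ / 5) ≤ 4 := by
      calc (2 : ℝ) ^ (3 / 2 - 4 * δ / 5) ≤ 2 ^ (2 : ℝ) :=
            Real.rpow_le_rpow_of_exponent_le (by norm_num) (by linarith)
        _ = 4 := by norm_num
    have h7 : t ^ (3 / 2 - 4 * δ / 5) = t ^ (δ / 5) * t ^ (3 / 2 - δ) := by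
      rw [← Real.rpow_add ht0]
      congr 1
      ring
    have h8 : 0 < t ^ (3 / 2 - δ) := Real.rpow_pos_of_pos ht0 _
    have h9 : 24 ≤ t ^ (δ / 5) := by
      have : 0 ≤ ((A : ℝ) + k) ^ (8 * δ / 5) := by positivity
      linarith
    rw [le_div_iff₀ (by positivity), h7]
    calc 6 * t ^ (3 / 2 - δ) * 2 ^ (3 / 2 - 4 * δ / 5) ≤ 6 * t ^ (3 / 2 - δ) * 4 := by gcongr
      _ = 24 * t ^ (3 / 2 - δ) := by ring
      _ ≤ t ^ (δ / 5) * t ^ (3 / 2 - δ) := by gcongr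
  have hW : Real.exp (-(l ^ (2 * (4 * δ / 5) / 3))) ≤ Real.exp (-(2 * t ^ (δ / 2))) := by
    apply Real.exp_le_exp.2
    apply neg_le_neg
    have h5 : (t / 2) ^ (2 * (4 * δ / 5) / 3) ≤ l ^ (2 * (4 * δ / 5) / 3) :=
      Real.rpow_le_rpow (by positivity) hl1 (by positivity)
    refine le_trans ?_ h5
    rw [Real.div_rpow ht0.le (by norm_num)]
    have h6 : (2 : ℝ) ^ (2 * (4 * δ / 5) / 3) ≤ 2 := by
      calc (2 : ℝ) ^ (2 * (4 * δ / 5) / 3) ≤ 2 ^ (1 : ℝ) :=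
            Real.rpow_le_rpow_of_exponent_le (by norm_num) (by linarith)
        _ = 2 := by norm_num
    have h7 : t ^ (2 * (4 * δ / 5) / 3) = t ^ (δ / 30) * t ^ (δ / 2) := by
      rw [← Real.rpow_add ht0]
      congr 1
      ring
    have h8 : 0 < t ^ (δ / 2) := Real.rpow_pos_of_pos ht0 _
    rw [le_div_iff₀ (by positivity), h7]
    calc 2 * t ^ (δ / 2) * 2 ^ (2 * (4 * δ / 5) / 3) ≤ 2 * t ^ (δ / 2) * 2 := by gcongr
      _ = 4 * t ^ (δ / 2) := by ring
      _ ≤ t ^ (δ / 30) * t ^ (δ / 2) := by gcongr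
  apply cover f N H _ L _ hL1 hLH (Real.exp_pos _).le
  intro c hc1 hc2
  have hcN : (N : ℝ) ≤ c := by linarith
  have hc3 : (c : ℝ) ≤ (1 + 1 / (8 * k)) * N := by
    refine hc2.trans ?_
    have h5 : 2 * (H : ℝ) ≤ N / (8 * k) := by
      rw [le_div_iff₀ (by positivity)]
      rw [le_div_iff₀ (by positivity)] at hH2
      linarith
    have h6 : (1 + 1 / (8 * (k : ℝ))) * N = N + N / (8 * k) := by ring
    rw [h6]
    linarith
  rw [hE] at hSE
  have hnear := near_taylor hk hf hN1 ε hε0.le hSE c hcN hc3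
  rw [← hD] at hnear
  have hlow : ∀ τ : ℤ, |(τ : ℝ)| ≤ L → D ≤ (((taylor c f).eval τ : ℤ) : ℝ) := by
    intro τ hτ
    rw [taylor_eval]
    have h5 := (abs_le.1 hτ).1
    have h6 : (N : ℝ) ≤ ((τ + c : ℤ) : ℝ) := by
      push_cast
      linarith
    refine le_trans ?_ (eval_near hf hN1 (τ + c) h6).1
    rw [hD]
    have h7 : (N : ℝ) ^ k ≤ ((τ + c : ℤ) : ℝ) ^ k := pow_le_pow_left₀ hN0.le h6 k
    gcongr
  have h5 := hLW _ (taylor c f) hnear hlow
  have h6 : (Win (taylor c f) L (Real.exp (6 * t ^ (3 / 2 - δ)))).ncard ≤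
      (Win (taylor c f) L (Real.exp (l ^ (3 / 2 - 4 * δ / 5)))).ncard := by
    apply Set.ncard_le_ncard _ (win_finite _ _ _)
    rintro τ ⟨h7, h8, x, y, h9, h10⟩
    exact ⟨h7, h8, x, y, h9, h10.trans hY⟩
  calc ((Win (taylor c f) L (Real.exp (6 * t ^ (3 / 2 - δ)))).ncard : ℝ)
      ≤ ((Win (taylor c f) L (Real.exp (l ^ (3 / 2 - 4 * δ / 5)))).ncard : ℝ) := by
        exact_mod_cast h6
    _ ≤ L * Real.exp (-(l ^ (2 * (4 * δ / 5) / 3))) := h5
    _ ≤ L * Real.exp (-(2 * t ^ (δ / 2))) := mul_le_mul_of_nonneg_left hW (by linarith)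

end Pool.Agent.H45.PF
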