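import Pool.Agent.H45.Lib.Ts3997aac3.Q276.PL.All
import Pool.Agent.H45.Lib.Ts3997aac3.Q164.PL.BEZ
import Pool.Agent.H45.PF.ALG

/-! The fundamental solutions with coprime relations for `x - 1` and `x + 1`. -/

set_option autoImplicit false

namespace Pool.Agent.H45.PF

open Polynomial Pool.Agent.W223.HZ Pool.Agent.W223.PL Pool.Agent.Q276.PL Pool.Agent.Q182.PL

/-- the polynomial `n (Q ^ 2 - l P ^ 2)` -/
noncomputable def GF (n : ℤ) (l P Q : ℤ[X]) : ℤ[X] := C n * (Q ^ 2 - l * P ^ 2)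

theorem deg_GF {k m : ℕ} {n : ℤ} {l P Q : ℤ[X]} (hl : l.natDegree ≤ k) (hkm : k ≤ m)
    (hP : P.natDegree < m) (hQ : Q.natDegree < m) : (GF n l P Q).natDegree ≤ 3 * m := by
  unfold GF
  refine (natDegree_C_mul_le _ _).trans ?_
  refine (natDegree_sub_le_of_le (m := 3 * m) (n := 3 * m) ?_ ?_).trans (by simp)
  · refine natDegree_pow_le.trans ?_
    omega
  · have h2 : (P ^ 2).natDegree ≤ 2 * P.natDegree := natDegree_pow_le
    refine natDegree_mul_le.trans ?_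
    omega

theorem eval_GF (n τ : ℤ) (l P Q : ℤ[X]) :
    (GF n l P Q).eval τ = n * ((Q.eval τ) ^ 2 - l.eval τ * (P.eval τ) ^ 2) := by
  unfold GF
  simp only [eval_mul, eval_C, eval_sub, eval_pow]

theorem cop_of_not_dvd {l Q : ℤ[X]} (hl : Irreducible (l.map (Int.castRingHom ℚ)))
    (h : ¬ l.map (Int.castRingHom ℚ) ∣ Q.map (Int.castRingHom ℚ)) :
    IsCoprime (l.map (Int.castRingHom ℚ)) (Q.map (Int.castRingHom ℚ)) :=
  (hl.coprime_iff_not_dvd).2 h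

theorem dvd_of_map {l Q : ℤ[X]} (hl : l.IsPrimitive)
    (h : l.map (Int.castRingHom ℚ) ∣ Q.map (Int.castRingHom ℚ)) : l ∣ Q :=
  (IsPrimitive.Int.dvd_iff_map_cast_dvd_map_cast l Q hl).2 h

theorem sidef (k : ℕ) (l : ℤ[X]) (hl : Fam k l) (m : ℕ) (L z Λ W₀ : ℝ) (T : Finset ℤ)
    (x y : ℤ → ℤ) (P Q P' Q' : ℤ[X]) (hkm : k ≤ m) (_hm : 1 ≤ m) (hL : 1 ≤ L) (hz : 1 ≤ z)
    (hΛ : 1 ≤ Λ) (hmΛ : (3 * m : ℝ) ≤ Λ) (hW₀ : 1 ≤ W₀) (hlc : ∀ i, |(l.coeff i : ℝ)| ≤ W₀)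
    (hPc : ∀ i, |(P.coeff i : ℝ)| ≤ W₀) (hQc : ∀ i, |(Q.coeff i : ℝ)| ≤ W₀)
    (hT : ∀ τ ∈ T, |(τ : ℝ)| ≤ L ∧ 2 ≤ l.eval τ ∧ Squarefree (l.eval τ) ∧
      Fund (l.eval τ) (x τ) (y τ))
    (hdP : P.natDegree < m) (hdQ : Q.natDegree < m) (hdP' : P'.natDegree < m)
    (hdQ' : Q'.natDegree < m)
    (hco : IsCoprime (P.map (Int.castRingHom ℚ)) (Q.map (Int.castRingHom ℚ)))
    (hco' : IsCoprime (P'.map (Int.castRingHom ℚ)) (Q'.map (Int.castRingHom ℚ)))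
    (hrel : ∀ τ ∈ T, (x τ - 1) * P.eval τ + y τ * Q.eval τ = 0)
    (hrel' : ∀ τ ∈ T, (x τ + 1) * P'.eval τ + y τ * Q'.eval τ = 0)
    (hbd : ∀ τ ∈ T, 2 * z * |((P.eval τ : ℤ) : ℝ)| ≤ Real.exp Λ ∧
      2 * z * |((P'.eval τ : ℤ) : ℝ)| ≤ Real.exp Λ) :
    ∃ M : ℤ, M ≠ 0 ∧ |(M : ℝ)| ≤ ((2 * m + 2) * W₀) ^ (2 * m + 2) ∧ ∃ E ⊆ T,
      (E.card : ℝ) ≤ 800000 * z * √L * Λ ^ 2 * Real.log (120 * √L * Λ) ∧
      ∀ τ ∈ T \ E, z < (Int.gcd (l.eval τ) M : ℝ) := by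
  classical
  have hCUQ : StmtCUQ := cuq_true
  have hAR' : ∀ τ ∈ T, ∃ e e' r s κ : ℤ, 1 ≤ e ∧ 1 ≤ e' ∧ 1 ≤ r ∧ 1 ≤ s ∧ e * e' = l.eval τ ∧
      (κ = 1 ∨ κ = 2) ∧ (x τ - 1) * s = e * r * y τ ∧ (x τ + 1) * r = e' * s * y τ ∧
      e' * s ^ 2 - e * r ^ 2 = κ ∧ IsCoprime (e * r) s ∧ IsCoprime (e' * s) r ∧
      ¬ IsSquare (κ * e') := fun τ hτ =>
    Pool.Agent.Q109.PLJ.ar (l.eval τ) (x τ) (y τ) (hT τ hτ).2.1 (hT τ hτ).2.2.1 (hT τ hτ).2.2.2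
  choose! e e' r s κ hall using hAR'
  have hy : ∀ τ ∈ T, y τ ≠ 0 := by
    intro τ hτ
    have := (hT τ hτ).2.2.2.2.1
    omega
  have hg : ∀ τ ∈ T, ∃ g : ℤ, P.eval τ = s τ * g ∧ Q.eval τ = -(e τ * r τ * g) := by
    intro τ hτ
    obtain ⟨he, he', hr, hs, hd, hκ, h1, h2, h3, hc1, hc2, hsq⟩ := hall τ hτ
    have h4 : y τ * (e τ * r τ * P.eval τ + s τ * Q.eval τ) = 0 := by
      linear_combination s τ * hrel τ hτ - P.eval τ * h1
    have h5 := (mul_eq_zero.1 h4).resolve_left (hy τ hτ)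
    have h6 : s τ ∣ e τ * r τ * P.eval τ := ⟨-Q.eval τ, by linear_combination h5⟩
    obtain ⟨g, hg⟩ := hc1.symm.dvd_of_dvd_mul_left h6
    refine ⟨g, hg, ?_⟩
    have hs0 : s τ ≠ 0 := by omega
    apply mul_left_cancel₀ hs0
    rw [hg] at h5
    linear_combination h5
  have hh : ∀ τ ∈ T, ∃ h : ℤ, P'.eval τ = r τ * h ∧ Q'.eval τ = -(e' τ * s τ * h) := by
    intro τ hτ
    obtain ⟨he, he', hr, hs, hd, hκ, h1, h2, h3, hc1, hc2, hsq⟩ := hall τ hτ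
    have h4 : y τ * (e' τ * s τ * P'.eval τ + r τ * Q'.eval τ) = 0 := by
      linear_combination r τ * hrel' τ hτ - P'.eval τ * h2
    have h5 := (mul_eq_zero.1 h4).resolve_left (hy τ hτ)
    have h6 : r τ ∣ e' τ * s τ * P'.eval τ := ⟨-Q'.eval τ, by linear_combination h5⟩
    obtain ⟨g, hg⟩ := hc2.symm.dvd_of_dvd_mul_left h6
    refine ⟨g, hg, ?_⟩
    have hs0 : r τ ≠ 0 := by omega
    apply mul_left_cancel₀ hs0
    rw [hg] at h5
    linear_combination h5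
  obtain ⟨W, hW⟩ : ∃ W : ℝ, W = 200000 * √L * Λ ^ 2 * Real.log (120 * √L * Λ) := ⟨_, rfl⟩
  have hsL : 1 ≤ √L := Real.one_le_sqrt.2 hL
  have hlog : 0 ≤ Real.log (120 * √L * Λ) := by
    apply Real.log_nonneg
    have h1 : 1 ≤ √L * Λ := one_le_mul_of_one_le_of_one_le hsL hΛ
    nlinarith
  have hW0 : 0 ≤ W := by
    rw [hW]
    positivity
  have hk : ((3 * m : ℕ) : ℝ) ≤ Λ := by push_cast; exact hmΛ
  -- the bound for the size of the roots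
  have hsize : ∀ (k a t g : ℤ) (p : ℤ), (k = 1 ∨ k = 2) → 1 ≤ a → (a : ℝ) ≤ z → 1 ≤ t →
      p = t * g → 2 * z * |(p : ℝ)| ≤ Real.exp Λ → |((k * a * g : ℤ) : ℝ)| ≤ Real.exp Λ := by
    intro k a t g p hk ha haz ht hp hb
    refine le_trans ?_ hb
    have h1 : |((k * a * g : ℤ) : ℝ)| = |(k : ℝ)| * |(a : ℝ)| * |(g : ℝ)| := by
      push_cast
      rw [abs_mul, abs_mul]
    have h2 : |(p : ℝ)| = |(t : ℝ)| * |(g : ℝ)| := by
      rw [hp]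
      push_cast
      rw [abs_mul]
    have h3 : |(k : ℝ)| ≤ 2 := by
      rcases hk with rfl | rfl <;> norm_num
    have h4 : |(a : ℝ)| ≤ z := by
      rw [abs_of_nonneg (by exact_mod_cast (by omega : (0 : ℤ) ≤ a))]
      exact haz
    have h5 : 1 ≤ |(t : ℝ)| := by
      rw [abs_of_nonneg (by exact_mod_cast (by omega : (0 : ℤ) ≤ t))]
      exact_mod_cast ht
    rw [h1, h2]
    calc |(k : ℝ)| * |(a : ℝ)| * |(g : ℝ)| ≤ 2 * z * |(g : ℝ)| := by gcongr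
      _ = 2 * z * (1 * |(g : ℝ)|) := by ring
      _ ≤ 2 * z * (|(t : ℝ)| * |(g : ℝ)|) := by gcongr
  have claim1 : ∀ k a : ℤ, (k = 1 ∨ k = 2) → 1 ≤ a → (a : ℝ) ≤ z →
      ((T.filter (fun τ => e τ = a ∧ κ τ = k)).card : ℝ) ≤ W := by
    intro k a hk2 ha haz
    have hns : ¬ IsSquare (-(k * a)) := by
      rintro ⟨w, hw⟩
      have h1 : 0 < k * a := by
        rcases hk2 with rfl | rfl <;> omega
      nlinarith [mul_self_nonneg w]
    rw [hW]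
    refine hCUQ (GF (-(k * a)) l P Q) (3 * m) (deg_GF hl.deg hkm hdP hdQ)
      (nsqf _ l hl P Q _ hco hns) L Λ hL hΛ hk _ ?_ ?_
    · intro τ hτ
      rw [Finset.mem_filter] at hτ
      exact (hT τ hτ.1).1
    · intro τ hτ
      rw [Finset.mem_filter] at hτ
      obtain ⟨hτT, hea, hκk⟩ := hτ
      obtain ⟨g, hg1, hg2⟩ := hg τ hτT
      obtain ⟨he, he', hr, hs, hd, hκ, h1, h2, h3, hc1, hc2, hsq⟩ := hall τ hτT
      refine ⟨k * a * g, ?_, hsize k a (s τ) g _ hk2 ha haz hs hg1 (hbd τ hτT).1⟩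
      rw [eval_GF, hg1, hg2, ← hd, ← hea, ← hκk, ← h3]
      ring
  have claim2 : ∀ k a : ℤ, (k = 1 ∨ k = 2) → 1 ≤ a → (a : ℝ) ≤ z →
      ((T.filter (fun τ => e' τ = a ∧ κ τ = k)).card : ℝ) ≤ W := by
    intro k a hk2 ha haz
    by_cases hns : IsSquare (k * a)
    · have hemp : T.filter (fun τ => e' τ = a ∧ κ τ = k) = ∅ := by
        rw [Finset.filter_eq_empty_iff]
        rintro τ hτ ⟨h1, h2⟩
        apply (hall τ hτ).2.2.2.2.2.2.2.2.2.2.2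
        rw [h1, h2]
        exact hns
      rw [hemp]
      simpa using hW0
    rw [hW]
    refine hCUQ (GF (k * a) l P' Q') (3 * m) (deg_GF hl.deg hkm hdP' hdQ')
      (nsqf _ l hl P' Q' _ hco' hns) L Λ hL hΛ hk _ ?_ ?_
    · intro τ hτ
      rw [Finset.mem_filter] at hτ
      exact (hT τ hτ.1).1
    · intro τ hτ
      rw [Finset.mem_filter] at hτ
      obtain ⟨hτT, hea, hκk⟩ := hτ
      obtain ⟨g, hg1, hg2⟩ := hh τ hτT
      obtain ⟨he, he', hr, hs, hd, hκ, h1, h2, h3, hc1, hc2, hsq⟩ := hall τ hτT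
      refine ⟨k * a * g, ?_, hsize k a (r τ) g _ hk2 ha haz hr hg1 (hbd τ hτT).2⟩
      rw [eval_GF, hg1, hg2, ← hd, ← hea, ← hκk, ← h3]
      ring
  -- the exceptional set
  obtain ⟨E, hE⟩ : ∃ E : Finset ℤ, E = T.filter (fun τ => (e τ : ℝ) ≤ z ∨ (e' τ : ℝ) ≤ z) := ⟨_, rfl⟩
  have hET : E ⊆ T := by
    rw [hE]
    exact Finset.filter_subset _ _
  have hbig : ∀ τ ∈ T \ E, z < (e τ : ℝ) ∧ z < (e' τ : ℝ) := by
    intro τ hτ
    rw [Finset.mem_sdiff, hE, Finset.mem_filter, not_and, not_or, not_le, not_le] at hτ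
    exact hτ.2 hτ.1
  obtain ⟨J, hJ⟩ : ∃ J : Finset (ℤ × ℤ), J = ({1, 2} : Finset ℤ) ×ˢ Finset.Icc 1 ⌊z⌋ := ⟨_, rfl⟩
  have hJmem : ∀ p ∈ J, (p.1 = 1 ∨ p.1 = 2) ∧ 1 ≤ p.2 ∧ (p.2 : ℝ) ≤ z := by
    intro p hp
    rw [hJ, Finset.mem_product, Finset.mem_insert, Finset.mem_singleton, Finset.mem_Icc] at hp
    exact ⟨hp.1, hp.2.1, Int.le_floor.1 hp.2.2⟩
  have hJc : (J.card : ℝ) ≤ 2 * z := by
    rw [hJ, Finset.card_product, Int.card_Icc]
    have h1 : (({1, 2} : Finset ℤ)).card = 2 := by decide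
    rw [h1]
    push_cast
    have h2 : ((⌊z⌋ + 1 - 1).toNat : ℤ) = ⌊z⌋ := by
      rw [add_sub_cancel_right, Int.toNat_of_nonneg (Int.floor_nonneg.2 (by linarith))]
    have h3 : (((⌊z⌋ + 1 - 1).toNat : ℕ) : ℝ) = ((⌊z⌋ : ℤ) : ℝ) := by
      have h4 := congrArg (Int.cast : ℤ → ℝ) h2
      rwa [Int.cast_natCast] at h4
    rw [h3]
    have := Int.floor_le z
    linarith
  have hEc : (E.card : ℝ) ≤ 4 * z * W := by
    have h1 : E ⊆ J.biUnion (fun p => T.filter (fun τ => e τ = p.2 ∧ κ τ = p.1) ∪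
        T.filter (fun τ => e' τ = p.2 ∧ κ τ = p.1)) := by
      intro τ hτ
      rw [hE, Finset.mem_filter] at hτ
      obtain ⟨hτT, hor⟩ := hτ
      have hal := hall τ hτT
      rw [Finset.mem_biUnion]
      rcases hor with h2 | h2
      · refine ⟨(κ τ, e τ), ?_, ?_⟩
        · rw [hJ, Finset.mem_product, Finset.mem_insert, Finset.mem_singleton, Finset.mem_Icc]
          exact ⟨hal.2.2.2.2.2.1, hal.1, Int.le_floor.2 h2⟩
        · rw [Finset.mem_union, Finset.mem_filter]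
          exact Or.inl ⟨hτT, rfl, rfl⟩
      · refine ⟨(κ τ, e' τ), ?_, ?_⟩
        · rw [hJ, Finset.mem_product, Finset.mem_insert, Finset.mem_singleton, Finset.mem_Icc]
          exact ⟨hal.2.2.2.2.2.1, hal.2.1, Int.le_floor.2 h2⟩
        · rw [Finset.mem_union, Finset.mem_filter, Finset.mem_filter]
          exact Or.inr ⟨hτT, rfl, rfl⟩
    have h2 : (E.card : ℝ) ≤ ((J.biUnion (fun p => T.filter (fun τ => e τ = p.2 ∧ κ τ = p.1) ∪
        T.filter (fun τ => e' τ = p.2 ∧ κ τ = p.1))).card : ℝ) := by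
      exact_mod_cast Finset.card_le_card h1
    have h3 : ((J.biUnion (fun p => T.filter (fun τ => e τ = p.2 ∧ κ τ = p.1) ∪
        T.filter (fun τ => e' τ = p.2 ∧ κ τ = p.1))).card : ℝ) ≤
        ∑ p ∈ J, (((T.filter (fun τ => e τ = p.2 ∧ κ τ = p.1) ∪
        T.filter (fun τ => e' τ = p.2 ∧ κ τ = p.1)).card : ℕ) : ℝ) := by
      exact_mod_cast Finset.card_biUnion_le
    have h4 : ∀ p ∈ J, (((T.filter (fun τ => e τ = p.2 ∧ κ τ = p.1) ∪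
        T.filter (fun τ => e' τ = p.2 ∧ κ τ = p.1)).card : ℕ) : ℝ) ≤ 2 * W := by
      intro p hp
      obtain ⟨hp1, hp2, hp3⟩ := hJmem p hp
      have h5 : (((T.filter (fun τ => e τ = p.2 ∧ κ τ = p.1) ∪
        T.filter (fun τ => e' τ = p.2 ∧ κ τ = p.1)).card : ℕ) : ℝ) ≤
        ((T.filter (fun τ => e τ = p.2 ∧ κ τ = p.1)).card : ℝ) +
        ((T.filter (fun τ => e' τ = p.2 ∧ κ τ = p.1)).card : ℝ) := by
        exact_mod_cast Finset.card_union_le _ _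
      have h6 := claim1 p.1 p.2 hp1 hp2 hp3
      have h7 := claim2 p.1 p.2 hp1 hp2 hp3
      linarith
    have h5 := Finset.sum_le_sum h4
    rw [Finset.sum_const, nsmul_eq_mul] at h5
    have h6 : (J.card : ℝ) * (2 * W) ≤ 2 * z * (2 * W) :=
      mul_le_mul_of_nonneg_right hJc (by positivity)
    linarith
  have hEc' : (E.card : ℝ) ≤ 800000 * z * √L * Λ ^ 2 * Real.log (120 * √L * Λ) := by
    refine hEc.trans (le_of_eq ?_)
    rw [hW]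
    ring
  have hbez := Pool.Agent.Q164.PL.bez
  by_cases hdv : l.map (Int.castRingHom ℚ) ∣ Q.map (Int.castRingHom ℚ)
  · have hlP : ¬ l.map (Int.castRingHom ℚ) ∣ P.map (Int.castRingHom ℚ) := fun h =>
      hl.irr.not_isUnit (hco.isUnit_of_dvd' h hdv)
    obtain ⟨U, W', R, hR0, hR, hRb⟩ := hbez m l P W₀ hW₀ (hl.deg.trans hkm) hdP.le hlc hPc
      (cop_of_not_dvd hl.irr hlP)
    refine ⟨R, hR0, hRb, E, hET, hEc', fun τ hτ => ?_⟩
    obtain ⟨Q2, hQ2⟩ := dvd_of_map hl.prim hdv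
    have hτT : τ ∈ T := (Finset.mem_sdiff.1 hτ).1
    obtain ⟨g, hg1, hg2⟩ := hg τ hτT
    obtain ⟨he, he', hr, hs, hd, hκ, -, -, -, hc1, hc2, -⟩ := hall τ hτT
    have h1 : Q.eval τ = l.eval τ * Q2.eval τ := by rw [hQ2, eval_mul]
    have h2 : e' τ * Q2.eval τ = -(r τ * g) := by
      have he0 : e τ ≠ 0 := by omega
      apply mul_left_cancel₀ he0
      rw [hg2, ← hd] at h1
      linear_combination -h1
    have h3 : e' τ ∣ r τ * g := ⟨-Q2.eval τ, by linear_combination h2⟩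
    have h4 : IsCoprime (e' τ) (r τ) := hc2.of_mul_left_left
    have h5 : e' τ ∣ g := h4.dvd_of_dvd_mul_left h3
    have h6 : e' τ ∣ P.eval τ := by
      rw [hg1]
      exact h5.mul_left _
    have h7 : e' τ ∣ l.eval τ := ⟨e τ, by rw [← hd]; ring⟩
    have h8 : U.eval τ * l.eval τ + W'.eval τ * P.eval τ = R := by
      have := congrArg (Polynomial.eval τ) hR
      simpa using this
    have h9 : e' τ ∣ R := by
      rw [← h8]
      exact dvd_add (h7.mul_left _) (h6.mul_left _)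
    refine le_gcd (hbig τ hτ).2 h7 h9 ?_
    have := (hT τ hτT).2.1
    omega
  · obtain ⟨U, W', R, hR0, hR, hRb⟩ := hbez m l Q W₀ hW₀ (hl.deg.trans hkm) hdQ.le hlc hQc
      (cop_of_not_dvd hl.irr hdv)
    refine ⟨R, hR0, hRb, E, hET, hEc', fun τ hτ => ?_⟩
    have hτT : τ ∈ T := (Finset.mem_sdiff.1 hτ).1
    obtain ⟨g, hg1, hg2⟩ := hg τ hτT
    obtain ⟨he, he', hr, hs, hd, -⟩ := hall τ hτT
    have h1 : e τ ∣ l.eval τ := ⟨e' τ, hd.symm⟩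
    have h3 : e τ ∣ Q.eval τ := ⟨-(r τ * g), by rw [hg2]; ring⟩
    have h8 : U.eval τ * l.eval τ + W'.eval τ * Q.eval τ = R := by
      have := congrArg (Polynomial.eval τ) hR
      simpa using this
    have h9 : e τ ∣ R := by
      rw [← h8]
      exact dvd_add (h1.mul_left _) (h3.mul_left _)
    refine le_gcd (hbig τ hτ).1 h1 h9 ?_
    have := (hT τ hτT).2.1
    omega

end Pool.Agent.H45.PF
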