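import Pool.Agent.H45.PF.COV
import Pool.Agent.H45.RQ.Avg2

/-! Intervals, and regulators and class numbers. -/

set_option autoImplicit false

namespace Pool.Agent.H45.PF

open Polynomial Pool.Agent.Q276.PL Filter Topology NumberField Pool.Agent.H45.RQ
open Pool.Agent.H38R2.CG (Lone)
open Pool.Agent.Q149.PL (isFund_dsc dsc_le le_dsc dsc_or)

theorem interval (k A : ℕ) (hk : Odd k) (δ : ℝ) (hδ : 0 < δ) (hδ2 : δ < 1 / 2) :
    ∃ N₀ : ℕ, ∀ N ≥ N₀, ∀ f : ℤ[X], Dom k A N f → ∀ H : ℕ,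
      Real.exp (Real.log N ^ (2 * δ)) ≤ H → H ≤ N →
      ((Bad f N H (Real.exp (6 * Real.log N ^ (3 / 2 - δ)))).ncard : ℝ) ≤
        H * Real.exp (-(Real.log N ^ (δ / 2))) := by
  classical
  obtain ⟨N₁, hN₁⟩ := block k A hk δ hδ hδ2
  have hk1 : 1 ≤ k := hk.pos
  have hk1' : (1 : ℝ) ≤ k := by exact_mod_cast hk1
  obtain ⟨N₀, hN₀⟩ := Filter.eventually_atTop.1
    ((tendsto_natCast_atTop_atTop (R := ℝ)).eventually
      (eventually_ge_atTop (N₁ + (32 * (k : ℝ)) ^ 2)) |>.and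
      (((nlim (δ / 5) (by positivity)).eventually (eventually_ge_atTop 2)).and
      (((nlim (1 - 9 * δ / 5) (by linarith)).eventually (eventually_ge_atTop 4)).and
      (((nlim (δ / 2) (by positivity)).eventually (eventually_ge_atTop 2)).and
      ((nlim 1 one_pos).eventually (eventually_ge_atTop 4))))))
  refine ⟨N₀, fun N hN f hf H hH1 hH2 => ?_⟩
  obtain ⟨h1, h2, h3, h3', h4⟩ := hN₀ N hN
  rw [Real.rpow_one] at h4
  have hN1r : (N₁ : ℝ) ≤ N := by
    have : 0 ≤ (32 * (k : ℝ)) ^ 2 := sq_nonneg _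
    linarith
  have hNN : N₁ ≤ N := by exact_mod_cast hN1r
  have hN1 : (1 : ℝ) ≤ N := by
    have h5 : (1 : ℝ) ≤ (32 * (k : ℝ)) ^ 2 := one_le_pow₀ (by linarith)
    have h6 : (0 : ℝ) ≤ N₁ := Nat.cast_nonneg _
    linarith
  have hN0 : (0 : ℝ) < N := by linarith
  obtain ⟨t, ht⟩ : ∃ t, t = Real.log N := ⟨_, rfl⟩
  rw [← ht] at h2 h3 h3' h4 hH1 ⊢
  have ht0 : 0 < t := by linarith
  -- the length of the blocks
  obtain ⟨G, hG⟩ : ∃ G : ℕ, G = ⌊(N : ℝ) / (16 * k)⌋₊ := ⟨_, rfl⟩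
  have hG1 : (G : ℝ) ≤ N / (16 * k) := by rw [hG]; exact Nat.floor_le (by positivity)
  have hG2 : √(N : ℝ) ≤ G := by
    have h5 : (N : ℝ) / (16 * k) < G + 1 := by rw [hG]; exact Nat.lt_floor_add_one _
    have h6 : 32 * (k : ℝ) ≤ √(N : ℝ) := by
      apply Real.le_sqrt_of_sq_le
      have : (0 : ℝ) ≤ N₁ := Nat.cast_nonneg _
      linarith
    have h7 : 2 * √(N : ℝ) ≤ N / (16 * k) := by
      rw [le_div_iff₀ (by positivity)]
      calc 2 * √(N : ℝ) * (16 * k) = √(N : ℝ) * (32 * k) := by ring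
        _ ≤ √(N : ℝ) * √(N : ℝ) := mul_le_mul_of_nonneg_left h6 (Real.sqrt_nonneg _)
        _ = N := Real.mul_self_sqrt hN0.le
    have h8 : 1 ≤ √(N : ℝ) := Real.one_le_sqrt.2 hN1
    linarith
  have hexp1 : Real.exp ((2 * t) ^ (9 * δ / 5)) ≤ √(N : ℝ) := by
    have h5 : √(N : ℝ) = Real.exp (t / 2) := by
      rw [Real.sqrt_eq_rpow, Real.rpow_def_of_pos hN0, ← ht]
      congr 1
      ring
    rw [h5]
    apply Real.exp_le_exp.2
    rw [Real.mul_rpow (by norm_num) ht0.le]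
    have h6 : (2 : ℝ) ^ (9 * δ / 5) ≤ 2 := by
      calc (2 : ℝ) ^ (9 * δ / 5) ≤ 2 ^ (1 : ℝ) :=
            Real.rpow_le_rpow_of_exponent_le (by norm_num) (by linarith)
        _ = 2 := by norm_num
    have h7 : t = t ^ (1 - 9 * δ / 5) * t ^ (9 * δ / 5) := by
      rw [← Real.rpow_add ht0]
      rw [show 1 - 9 * δ / 5 + 9 * δ / 5 = (1 : ℝ) by ring, Real.rpow_one]
    have h8 : 0 < t ^ (9 * δ / 5) := Real.rpow_pos_of_pos ht0 _
    have h9 : 4 * t ^ (9 * δ / 5) ≤ t := by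
      nth_rw 2 [h7]
      exact mul_le_mul_of_nonneg_right h3 h8.le
    have h10 : 2 ^ (9 * δ / 5) * t ^ (9 * δ / 5) ≤ 2 * t ^ (9 * δ / 5) :=
      mul_le_mul_of_nonneg_right h6 h8.le
    linarith
  have hexp2 : Real.exp ((2 * t) ^ (9 * δ / 5)) ≤ H := by
    refine le_trans ?_ hH1
    apply Real.exp_le_exp.2
    rw [Real.mul_rpow (by norm_num) ht0.le]
    have h6 : (2 : ℝ) ^ (9 * δ / 5) ≤ 2 := by
      calc (2 : ℝ) ^ (9 * δ / 5) ≤ 2 ^ (1 : ℝ) :=
            Real.rpow_le_rpow_of_exponent_le (by norm_num) (by linarith)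
        _ = 2 := by norm_num
    have h7 : t ^ (2 * δ) = t ^ (δ / 5) * t ^ (9 * δ / 5) := by
      rw [← Real.rpow_add ht0]
      congr 1
      ring
    rw [h7]
    exact mul_le_mul_of_nonneg_right (h6.trans h2) (by positivity)
  obtain ⟨M, hM⟩ : ∃ M : ℕ, M = min H G := ⟨_, rfl⟩
  have hMH : M ≤ H := by rw [hM]; exact min_le_left _ _
  have hMG : M ≤ G := by rw [hM]; exact min_le_right _ _
  have hMe : Real.exp ((2 * t) ^ (9 * δ / 5)) ≤ M := by
    rw [hM]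
    push_cast
    exact le_min hexp2 (hexp1.trans hG2)
  have hM1 : 1 ≤ M := by
    have h5 : (1 : ℝ) ≤ M := le_trans (Real.one_le_exp (by positivity)) hMe
    exact_mod_cast h5
  obtain ⟨q, hq⟩ : ∃ q : ℕ, q = H / M + 1 := ⟨_, rfl⟩
  have hq1 : q * M ≤ 2 * H := by
    rw [hq, add_mul, one_mul]
    have := Nat.div_mul_le_self H M
    omega
  have hsub : Bad f N H (Real.exp (6 * t ^ (3 / 2 - δ))) ⊆
      ⋃ i ∈ Finset.range q, Bad f (N + i * M) M (Real.exp (6 * t ^ (3 / 2 - δ))) := by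
    rintro n ⟨h5, h6, h7⟩
    simp only [Set.mem_iUnion, Finset.mem_range]
    refine ⟨(n - N - 1) / M, ?_, ?_, ?_, h7⟩
    · rw [hq]
      have h8 : (n - N - 1) / M ≤ H / M := Nat.div_le_div_right (by omega)
      omega
    · have h8 := Nat.div_mul_le_self (n - N - 1) M
      omega
    · have h8 := Nat.lt_div_mul_add (a := n - N - 1) (b := M) (by omega)
      omega
  have hblk : ∀ i ∈ Finset.range q,
      ((Bad f (N + i * M) M (Real.exp (6 * t ^ (3 / 2 - δ)))).ncard : ℝ) ≤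
        2 * M * Real.exp (-(2 * t ^ (δ / 2))) := by
    intro i hi
    rw [Finset.mem_range, hq] at hi
    have hiM : i * M ≤ H := by
      have h5 : i ≤ H / M := by omega
      calc i * M ≤ (H / M) * M := Nat.mul_le_mul_right _ h5
        _ ≤ H := Nat.div_mul_le_self _ _
    have hNi : (N : ℝ) ≤ ((N + i * M : ℕ) : ℝ) := by
      exact_mod_cast Nat.le_add_right N (i * M)
    have hNi2 : ((N + i * M : ℕ) : ℝ) ≤ 2 * N := by
      have h5 : N + i * M ≤ 2 * N := by omega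
      exact_mod_cast h5
    have hti : t ≤ Real.log ((N + i * M : ℕ) : ℝ) := by
      rw [ht]
      exact Real.log_le_log hN0 hNi
    have hti2 : Real.log ((N + i * M : ℕ) : ℝ) ≤ 2 * t := by
      have h5 : Real.log ((N + i * M : ℕ) : ℝ) ≤ Real.log (2 * N) :=
        Real.log_le_log (by linarith) hNi2
      rw [Real.log_mul (by norm_num) hN0.ne', ← ht] at h5
      have := Real.log_two_lt_d9
      linarith
    have h5 := hN₁ (N + i * M) (by omega) f (hf.mono hN1 hNi) M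
      (le_trans (Real.exp_le_exp.2 (Real.rpow_le_rpow (by linarith) hti2 (by positivity))) hMe)
      (by
        have h6 : (M : ℝ) ≤ N / (16 * k) := le_trans (by exact_mod_cast hMG) hG1
        refine h6.trans ?_
        gcongr)
    have h6 : (Bad f (N + i * M) M (Real.exp (6 * t ^ (3 / 2 - δ)))).ncard ≤
        (Bad f (N + i * M) M (Real.exp (6 * Real.log ((N + i * M : ℕ) : ℝ) ^ (3 / 2 - δ)))).ncard := by
      apply Set.ncard_le_ncard _ (bad_finite _ _ _ _)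
      rintro n ⟨h7, h8, h9, x, y, h10, h11⟩
      refine ⟨h7, h8, h9, x, y, h10, h11.trans (Real.exp_le_exp.2 ?_)⟩
      have h12 : t ^ (3 / 2 - δ) ≤ Real.log ((N + i * M : ℕ) : ℝ) ^ (3 / 2 - δ) :=
        Real.rpow_le_rpow ht0.le hti (by linarith)
      linarith
    have h7 : ((Bad f (N + i * M) M (Real.exp (6 * t ^ (3 / 2 - δ)))).ncard : ℝ) ≤
        ((Bad f (N + i * M) M
          (Real.exp (6 * Real.log ((N + i * M : ℕ) : ℝ) ^ (3 / 2 - δ)))).ncard : ℝ) := by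
      exact_mod_cast h6
    refine h7.trans (h5.trans ?_)
    apply mul_le_mul_of_nonneg_left _ (by positivity)
    apply Real.exp_le_exp.2
    have h12 : t ^ (δ / 2) ≤ Real.log ((N + i * M : ℕ) : ℝ) ^ (δ / 2) :=
      Real.rpow_le_rpow ht0.le hti (by positivity)
    linarith
  have hfin : (⋃ i ∈ Finset.range q,
      Bad f (N + i * M) M (Real.exp (6 * t ^ (3 / 2 - δ)))).Finite :=
    Set.Finite.biUnion (Finset.finite_toSet _) fun i _ => bad_finite _ _ _ _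
  have h5 : ((Bad f N H (Real.exp (6 * t ^ (3 / 2 - δ)))).ncard : ℝ) ≤
      ∑ i ∈ Finset.range q,
        ((Bad f (N + i * M) M (Real.exp (6 * t ^ (3 / 2 - δ)))).ncard : ℝ) := by
    have h6 := Set.ncard_le_ncard hsub hfin
    have h7 := Finset.set_ncard_biUnion_le (Finset.range q)
      (fun i => Bad f (N + i * M) M (Real.exp (6 * t ^ (3 / 2 - δ))))
    exact_mod_cast h6.trans h7
  refine h5.trans ((Finset.sum_le_sum hblk).trans ?_)
  rw [Finset.sum_const, Finset.card_range, nsmul_eq_mul]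
  have h6 : (q : ℝ) * M ≤ 2 * H := by exact_mod_cast hq1
  have h7 : Real.exp (-(2 * t ^ (δ / 2))) = Real.exp (-(t ^ (δ / 2))) * Real.exp (-(t ^ (δ / 2))) := by
    rw [← Real.exp_add]
    congr 1
    ring
  have h8 : 4 * Real.exp (-(t ^ (δ / 2))) ≤ 1 := by
    rw [Real.exp_neg, ← div_eq_mul_inv, div_le_one (Real.exp_pos _)]
    have h9 : Real.exp 2 ≤ Real.exp (t ^ (δ / 2)) := Real.exp_le_exp.2 h3'
    have h10 : Real.exp 2 = Real.exp 1 * Real.exp 1 := by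
      rw [← Real.exp_add]
      norm_num
    have h11 := Real.exp_one_gt_d9
    nlinarith
  have hexp0 : 0 < Real.exp (-(t ^ (δ / 2))) := Real.exp_pos _
  calc (q : ℝ) * (2 * M * Real.exp (-(2 * t ^ (δ / 2))))
      = 2 * (q * M) * Real.exp (-(2 * t ^ (δ / 2))) := by ring
    _ ≤ 2 * (2 * H) * Real.exp (-(2 * t ^ (δ / 2))) := by gcongr
    _ = H * (4 * Real.exp (-(t ^ (δ / 2)))) * Real.exp (-(t ^ (δ / 2))) := by rw [h7]; ring
    _ ≤ H * 1 * Real.exp (-(t ^ (δ / 2))) := by gcongr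
    _ = H * Real.exp (-(t ^ (δ / 2))) := by ring

/-- a solution gives a least solution -/
theorem fund_of_sol {d x y : ℤ} (hy : 1 ≤ y) (h : x ^ 2 - d * y ^ 2 = 1) (hd : 1 ≤ d) :
    ∃ x₀ y₀ : ℤ, Fund d x₀ y₀ ∧ y₀ ≤ y := by
  classical
  have hex : ∃ n : ℕ, 1 ≤ n ∧ ∃ a : ℤ, a ^ 2 - d * (n : ℤ) ^ 2 = 1 := by
    refine ⟨y.toNat, by omega, x, ?_⟩
    rw [Int.toNat_of_nonneg (by omega)]
    exact h
  obtain ⟨h1, a, ha⟩ := Nat.find_spec hex
  obtain ⟨n, hn⟩ : ∃ n, n = Nat.find hex := ⟨_, rfl⟩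
  rw [← hn] at h1 ha
  have hmin : ∀ y' : ℤ, 1 ≤ y' → (∃ b : ℤ, b ^ 2 - d * y' ^ 2 = 1) → (n : ℤ) ≤ y' := by
    rintro y' hy' ⟨b, hb⟩
    have h2 : n ≤ y'.toNat := by
      rw [hn]
      apply Nat.find_min' hex
      refine ⟨by omega, b, ?_⟩
      rw [Int.toNat_of_nonneg (by omega)]
      exact hb
    omega
  refine ⟨|a|, n, ⟨?_, by exact_mod_cast h1, ?_, ?_⟩, hmin y hy ⟨x, h⟩⟩
  · have ha0 : a ≠ 0 := by
      rintro rfl
      have h2 : 0 ≤ d * (n : ℤ) ^ 2 := by positivity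
      linarith
    exact Int.one_le_abs ha0
  · rw [sq_abs]
    exact ha
  · intro x' y' hy' hxy
    exact hmin y' hy' ⟨x', hxy⟩

/-- a small unit gives a small fundamental solution -/
theorem fund_of_small {d : ℕ} (h1 : 1 < d) {B : ℝ} (h : SmallUnit (dsc d) (Real.exp B)) :
    ∃ x y : ℤ, Fund (d : ℤ) x y ∧ (y : ℝ) ≤ Real.exp (6 * B) := by
  obtain ⟨t, u, ht, hu, htu, hb⟩ := h
  have hD5 := five_le_dsc h1
  obtain ⟨x, y, hx, hy, hxy, hle⟩ := Pool.Agent.Q151.PL.uni (dsc d : ℤ) t u (by exact_mod_cast hD5)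
    (by exact_mod_cast ht) (by exact_mod_cast hu) htu
  have hle' : (x : ℝ) + y * √(dsc d : ℝ) ≤ (((t : ℝ) + u * √(dsc d : ℝ)) / 2) ^ 6 := by
    exact_mod_cast hle
  have hpos : 0 ≤ ((t : ℝ) + u * √(dsc d : ℝ)) / 2 := by positivity
  have hB : (x : ℝ) + y * √(dsc d : ℝ) ≤ Real.exp (6 * B) := by
    calc (x : ℝ) + y * √(dsc d : ℝ) ≤ (((t : ℝ) + u * √(dsc d : ℝ)) / 2) ^ 6 := hle'
      _ ≤ (Real.exp B) ^ 6 := pow_le_pow_left₀ hpos hb 6
      _ = Real.exp (6 * B) := by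
          rw [← Real.exp_nat_mul]
          norm_num
  have hs2 : (2 : ℝ) ≤ √(dsc d : ℝ) := by
    apply Real.le_sqrt_of_sq_le
    have : (5 : ℝ) ≤ dsc d := by exact_mod_cast hD5
    linarith
  have hx0 : (1 : ℝ) ≤ x := by exact_mod_cast hx
  have hy0 : (1 : ℝ) ≤ y := by exact_mod_cast hy
  have h2y : 2 * (y : ℝ) ≤ Real.exp (6 * B) := by nlinarith
  have hd1 : (1 : ℤ) ≤ d := by exact_mod_cast h1.le
  rcases dsc_or d with hd | hd
  · rw [hd] at hxy
    obtain ⟨x₀, y₀, hf, hle2⟩ := fund_of_sol hy hxy hd1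
    refine ⟨x₀, y₀, hf, ?_⟩
    have : (y₀ : ℝ) ≤ y := by exact_mod_cast hle2
    linarith
  · rw [hd] at hxy
    have hxy2 : x ^ 2 - (d : ℤ) * (2 * y) ^ 2 = 1 := by
      push_cast at hxy
      linear_combination hxy
    obtain ⟨x₀, y₀, hf, hle2⟩ := fund_of_sol (by omega : 1 ≤ 2 * y) hxy2 hd1
    refine ⟨x₀, y₀, hf, ?_⟩
    have : (y₀ : ℝ) ≤ 2 * y := by exact_mod_cast hle2
    linarith

/-- the regulator -/
noncomputable def reg (d : ℕ) : ℝ := Units.regulator (QS d)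

theorem reg_gt {d : ℕ} (h1 : 1 < d) (hs : Squarefree d) {B : ℝ}
    (hB : ¬ SmallUnit (dsc d) (Real.exp B)) : B < reg d := by
  have hrk := finrank_QS h1 hs
  have hex := exists_sqrt d
  obtain ⟨t, u, ht, hu, hn, hR⟩ := Pool.Agent.Q210.PL.reg (QS d) d h1 hs hrk hex
  unfold reg
  rw [hR]
  have hD : (0 : ℝ) ≤ √(dsc d : ℝ) := Real.sqrt_nonneg _
  have ht' : (0 : ℝ) < t := by exact_mod_cast ht
  have hu' : (0 : ℝ) < u := by exact_mod_cast hu
  rw [Real.lt_log_iff_exp_lt (by positivity)]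
  by_contra hcon
  exact hB ⟨t, u, ht, hu, hn, (not_lt.1 hcon)⟩

theorem final (k A : ℕ) (hk : Odd k) (δ : ℝ) (hδ : 0 < δ) (hδ2 : δ < 1 / 2) :
    ∃ (N₀ : ℕ) (C : ℝ), ∀ N ≥ N₀, ∀ f : ℤ[X], Dom k A N f → ∀ H : ℕ,
      Real.exp (Real.log N ^ (2 * δ)) ≤ H → H ≤ N →
      ({n : ℕ | N < n ∧ n ≤ N + H ∧ Squarefree (f.eval (n : ℤ)) ∧
        ¬ (Real.log N ^ (3 / 2 - δ) < reg (f.eval (n : ℤ)).toNat ∧
          (hnum (f.eval (n : ℤ)).toNat : ℝ) ≤
            C * √(((f.eval (n : ℤ)).toNat : ℕ) : ℝ) / Real.log N ^ (1 / 2 - δ))}.ncard : ℝ) ≤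
        H * Real.exp (-(Real.log N ^ (δ / 2))) := by
  obtain ⟨N₁, hN₁⟩ := interval k A hk δ hδ hδ2
  obtain ⟨C, hC, hLone⟩ := lone_le
  have hk1 : 1 ≤ k := hk.pos
  have hk1' : (1 : ℝ) ≤ k := by exact_mod_cast hk1
  obtain ⟨N₂, hN₂⟩ := Filter.eventually_atTop.1
    ((tendsto_natCast_atTop_atTop (R := ℝ)).eventually (eventually_ge_atTop 3) |>.and
      ((nlim 1 one_pos).eventually (eventually_ge_atTop 4)))
  refine ⟨max N₁ N₂, C * (2 * ((A : ℝ) + k) + 4), fun N hN f hf H hH1 hH2 => ?_⟩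
  obtain ⟨h1, h4⟩ := hN₂ N (le_of_max_le_right hN)
  rw [Real.rpow_one] at h4
  have hN1 : (1 : ℝ) ≤ N := by linarith
  have hN0 : (0 : ℝ) < N := by linarith
  refine le_trans ?_ (hN₁ N (le_of_max_le_left hN) f hf H hH1 hH2)
  have hcard := Set.ncard_le_ncard (s := {n : ℕ | N < n ∧ n ≤ N + H ∧ Squarefree (f.eval (n : ℤ)) ∧
        ¬ (Real.log N ^ (3 / 2 - δ) < reg (f.eval (n : ℤ)).toNat ∧
          (hnum (f.eval (n : ℤ)).toNat : ℝ) ≤ (C * (2 * ((A : ℝ) + k) + 4)) *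
            √(((f.eval (n : ℤ)).toNat : ℕ) : ℝ) / Real.log N ^ (1 / 2 - δ))})
    (t := Bad f N H (Real.exp (6 * Real.log N ^ (3 / 2 - δ)))) ?_ (bad_finite _ _ _ _)
  · exact_mod_cast hcard
  rintro n ⟨h5, h6, h7, h8⟩
  refine ⟨h5, h6, h7, ?_⟩
  obtain ⟨d, hd⟩ : ∃ d : ℕ, d = (f.eval (n : ℤ)).toNat := ⟨_, rfl⟩
  have hNn : (N : ℝ) ≤ ((n : ℤ) : ℝ) := by
    push_cast
    exact_mod_cast h5.le
  have hev := eval_near hf hN1 (n : ℤ) hNn
  have hlc : (1 : ℝ) ≤ f.leadingCoeff := by exact_mod_cast hf.one_le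
  have hn2 : ((n : ℤ) : ℝ) ≤ 2 * N := by
    push_cast
    have : n ≤ 2 * N := by omega
    exact_mod_cast this
  have hn0 : (0 : ℝ) < ((n : ℤ) : ℝ) := by linarith
  have hbig : (2 : ℝ) < ((f.eval (n : ℤ) : ℤ) : ℝ) := by
    refine lt_of_lt_of_le ?_ hev.1
    have h9 : (n : ℝ) ≤ ((n : ℤ) : ℝ) ^ k := by
      push_cast
      refine le_self_pow₀ ?_ (by omega)
      push_cast at hNn
      linarith
    have h10 : ((n : ℤ) : ℝ) ^ k ≤ f.leadingCoeff * ((n : ℤ) : ℝ) ^ k :=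
      le_mul_of_one_le_left (by positivity) hlc
    have h11 : (3 : ℝ) < n := by
      have : N < n := h5
      have h12 : (N : ℝ) < n := by exact_mod_cast this
      linarith
    linarith
  have hbig' : 2 < f.eval (n : ℤ) := by exact_mod_cast hbig
  have hdz : ((d : ℕ) : ℤ) = f.eval (n : ℤ) := by
    rw [hd]
    exact Int.toNat_of_nonneg (by omega)
  have hdr : (d : ℝ) = ((f.eval (n : ℤ) : ℤ) : ℝ) := by
    rw [← hdz]
    push_cast
    rfl
  have hd1 : 1 < d := by omega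
  have hsd : Squarefree d := by
    rw [← hdz] at h7
    exact Int.squarefree_natCast.1 h7
  rw [← hd] at h8
  rw [← hdz]
  by_contra hcon
  have hns : ¬ SmallUnit (dsc d) (Real.exp (Real.log N ^ (3 / 2 - δ))) := by
    intro hsu
    exact hcon (fund_of_small hd1 hsu)
  apply h8
  refine ⟨reg_gt hd1 hsd hns, ?_⟩
  have h9 := h_reg hd1 hsd hns
  have h10 := hLone (dsc d) (isFund_dsc hd1 hsd)
  -- the logarithm of `d`
  have hlogd : Real.log (dsc d) ≤ (2 * ((A : ℝ) + k) + 3) * Real.log N := by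
    have h11 : (dsc d : ℝ) ≤ 4 * d := by exact_mod_cast dsc_le d
    have h12 : (d : ℝ) ≤ 5 / 4 * ((N : ℝ) ^ A * (2 * N) ^ k) := by
      rw [hdr]
      refine hev.2.trans ?_
      have h13 : ((n : ℤ) : ℝ) ^ k ≤ (2 * N) ^ k := pow_le_pow_left₀ hn0.le hn2 k
      have h14 := hf.le_pow
      gcongr
    have h13 : (dsc d : ℝ) ≤ 5 * ((N : ℝ) ^ A * (2 * N) ^ k) := by linarith
    have hd5 : (5 : ℝ) ≤ dsc d := by exact_mod_cast five_le_dsc hd1
    have h14 := Real.log_le_log (by linarith) h13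
    rw [Real.log_mul (by norm_num) (by positivity), Real.log_mul (by positivity) (by positivity),
      Real.log_pow, Real.log_pow, Real.log_mul (by norm_num) hN0.ne'] at h14
    have h15 : Real.log 2 ≤ 1 := by
      have := Real.log_two_lt_d9
      linarith
    have h16 : Real.log 5 ≤ 3 := by
      have h17 : Real.log 5 ≤ Real.log 8 := Real.log_le_log (by norm_num) (by norm_num)
      rw [show (8 : ℝ) = 2 ^ 3 by norm_num, Real.log_pow] at h17
      push_cast at h17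
      linarith
    have hA0 : (0 : ℝ) ≤ A := Nat.cast_nonneg A
    have h18 : (k : ℝ) * (Real.log 2 + Real.log N) ≤ k * (2 * Real.log N) := by
      apply mul_le_mul_of_nonneg_left _ (by linarith)
      linarith
    have h19 : 0 ≤ (A : ℝ) * Real.log N := by positivity
    nlinarith
  have h11 : 1 + Real.log (dsc d) ≤ (2 * ((A : ℝ) + k) + 4) * Real.log N := by linarith
  have h12 : Lone (dsc d) ≤ C * ((2 * ((A : ℝ) + k) + 4) * Real.log N) :=
    h10.trans (mul_le_mul_of_nonneg_left h11 (by linarith))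
  have hL0 : 0 < Real.log N := by linarith
  have h13 : Real.log N ^ (3 / 2 - δ) * hnum d ≤
      √(d : ℝ) * (C * ((2 * ((A : ℝ) + k) + 4) * Real.log N)) :=
    h9.trans (mul_le_mul_of_nonneg_left h12 (Real.sqrt_nonneg _))
  have h14 : Real.log N ^ (3 / 2 - δ) = Real.log N ^ (1 / 2 - δ) * Real.log N := by
    conv_rhs => rw [← Real.rpow_one (Real.log N)]
    rw [Real.rpow_one, ← Real.rpow_add_one hL0.ne']
    congr 1
    ring
  rw [h14] at h13
  have h15 : 0 < Real.log N ^ (1 / 2 - δ) := Real.rpow_pos_of_pos hL0 _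
  rw [le_div_iff₀ h15]
  have h16 : ((hnum d : ℝ) * Real.log N ^ (1 / 2 - δ)) * Real.log N ≤
      (C * (2 * ((A : ℝ) + k) + 4) * √(d : ℝ)) * Real.log N := by linarith
  exact le_of_mul_le_mul_right h16 hL0

end Pool.Agent.H45.PF
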