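import Mathlib

/-! Counting the integers of a window at which a polynomial is divisible by given primes. -/

set_option autoImplicit false

namespace Pool.Agent.H45.PF

open Polynomial

/-- integers of a window in one residue class -/
theorem card_cong (A : Finset ℤ) (g : ℕ) (hg : 0 < g) (R : ℝ) (hR : 0 ≤ R)
    (hA : ∀ a ∈ A, ∀ b ∈ A, (g : ℤ) ∣ a - b) (hAR : ∀ a ∈ A, ∀ b ∈ A, (a : ℝ) - b ≤ R) :
    (A.card : ℝ) ≤ R / g + 1 := by
  have hg' : (0 : ℝ) < g := by exact_mod_cast hg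
  rcases A.eq_empty_or_nonempty with rfl | hne
  · simp only [Finset.card_empty, Nat.cast_zero]
    positivity
  obtain ⟨a₀, ha₀, hmin⟩ := A.exists_min_image id hne
  simp only [id] at hmin
  have h1 : A.card ≤ (Finset.Icc (0 : ℤ) ⌊R / g⌋).card := by
    apply Finset.card_le_card_of_injOn (fun a => (a - a₀) / g)
    · intro a ha
      rw [Finset.mem_coe] at ha
      rw [Finset.mem_coe, Finset.mem_Icc]
      obtain ⟨c, hc⟩ := hA a ha a₀ ha₀
      have hg0 : (g : ℤ) ≠ 0 := by exact_mod_cast hg.ne'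
      have h2 : (a - a₀) / g = c := by rw [hc, Int.mul_ediv_cancel_left _ hg0]
      simp only [h2]
      have h3 := hAR a ha a₀ ha₀
      have h4 : (a : ℝ) - a₀ = g * c := by exact_mod_cast hc
      constructor
      · have h5 := hmin a ha
        have h6 : 0 ≤ (g : ℤ) * c := by rw [← hc]; linarith
        have h7 : (0 : ℤ) < g := by exact_mod_cast hg
        exact nonneg_of_mul_nonneg_right h6 h7
      · rw [Int.le_floor, le_div_iff₀ hg', mul_comm]
        linarith
    · intro a ha b hb hab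
      rw [Finset.mem_coe] at ha hb
      simp only at hab
      obtain ⟨c, hc⟩ := hA a ha a₀ ha₀
      obtain ⟨c', hc'⟩ := hA b hb a₀ ha₀
      have hg0 : (g : ℤ) ≠ 0 := by exact_mod_cast hg.ne'
      rw [hc, hc', Int.mul_ediv_cancel_left _ hg0, Int.mul_ediv_cancel_left _ hg0] at hab
      rw [hab] at hc
      linarith
  have h2 : ((Finset.Icc (0 : ℤ) ⌊R / g⌋).card : ℝ) ≤ R / g + 1 := by
    rw [Int.card_Icc]
    have h3 : (0 : ℤ) ≤ ⌊R / g⌋ := Int.floor_nonneg.2 (by positivity)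
    have h4 : (((⌊R / g⌋ + 1 - 0).toNat : ℕ) : ℤ) = ⌊R / g⌋ + 1 := by
      rw [Int.toNat_of_nonneg (by omega)]
      ring
    have h5 : (((⌊R / g⌋ + 1 - 0).toNat : ℕ) : ℝ) = ((⌊R / g⌋ + 1 : ℤ) : ℝ) := by
      rw [← h4]
      push_cast
      rfl
    rw [h5]
    push_cast
    have := Int.floor_le (R / g)
    linarith
  exact (by exact_mod_cast h1 : (A.card : ℝ) ≤ _).trans h2

/-- the roots of `l` modulo `p` -/
noncomputable def rts (l : ℤ[X]) (p : ℕ) : Finset ℕ := by
  classical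
  exact (Finset.range p).filter fun r => (p : ℤ) ∣ l.eval (r : ℤ)

theorem rts_card {l : ℤ[X]} {k p : ℕ} (hl : l.IsPrimitive) (hd : l.natDegree ≤ k)
    (hp : p.Prime) : (rts l p).card ≤ k := by
  classical
  haveI : Fact p.Prime := ⟨hp⟩
  have hne : l.map (Int.castRingHom (ZMod p)) ≠ 0 := by
    intro h0
    have h1 : C (p : ℤ) ∣ l := by
      rw [C_dvd_iff_dvd_coeff]
      intro i
      have h2 := congrArg (fun q => q.coeff i) h0
      simp only [coeff_map, eq_intCast, coeff_zero] at h2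
      exact (ZMod.intCast_zmod_eq_zero_iff_dvd _ _).1 h2
    have h3 := hl _ h1
    rw [Int.isUnit_iff] at h3
    have := hp.two_le
    omega
  calc (rts l p).card ≤ (l.map (Int.castRingHom (ZMod p))).roots.toFinset.card := by
        apply Finset.card_le_card_of_injOn (fun r : ℕ => (r : ZMod p))
        · intro r hr
          rw [Finset.mem_coe] at hr ⊢
          unfold rts at hr
          rw [Finset.mem_filter] at hr
          rw [Multiset.mem_toFinset, mem_roots hne, IsRoot.def]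
          have h1 : ((r : ℤ) : ZMod p) = (r : ZMod p) := by push_cast; rfl
          simp only
          rw [← h1, eval_intCast_map, eq_intCast]
          exact (ZMod.intCast_zmod_eq_zero_iff_dvd _ _).2 (by simpa using hr.2)
        · intro r hr s hs hrs
          rw [Finset.mem_coe] at hr hs
          unfold rts at hr hs
          rw [Finset.mem_filter, Finset.mem_range] at hr hs
          simp only at hrs
          rw [ZMod.natCast_eq_natCast_iff'] at hrs
          rwa [Nat.mod_eq_of_lt hr.1, Nat.mod_eq_of_lt hs.1] at hrs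
    _ ≤ Multiset.card (l.map (Int.castRingHom (ZMod p))).roots := Multiset.toFinset_card_le _
    _ ≤ (l.map (Int.castRingHom (ZMod p))).natDegree := card_roots' _
    _ ≤ k := natDegree_map_le.trans hd

/-- integers of a window at which `l` is divisible by the primes of a set -/
theorem count_t {l : ℤ[X]} {k : ℕ} (hl : l.IsPrimitive) (hd : l.natDegree ≤ k) (t : Finset ℕ)
    (ht : ∀ p ∈ t, p.Prime) (A : Finset ℤ) (R : ℝ) (hR : 0 ≤ R)
    (hA : ∀ a ∈ A, ∀ p ∈ t, (p : ℤ) ∣ l.eval a) (hAR : ∀ a ∈ A, ∀ b ∈ A, (a : ℝ) - b ≤ R) :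
    (A.card : ℝ) ≤ (k : ℝ) ^ t.card * (R / ((∏ p ∈ t, p : ℕ) : ℝ) + 1) := by
  classical
  obtain ⟨g, hg⟩ : ∃ g : ℕ, g = ∏ p ∈ t, p := ⟨_, rfl⟩
  rw [← hg]
  have hg0 : 0 < g := by
    rw [hg]
    exact Finset.prod_pos fun p hp => (ht p hp).pos
  obtain ⟨B, hB⟩ : ∃ B : Finset ((p : ℕ) → p ∈ t → ℕ), B = t.pi fun p => rts l p := ⟨_, rfl⟩
  have hBc : B.card ≤ k ^ t.card := by
    rw [hB, Finset.card_pi]
    calc ∏ p ∈ t, (rts l p).card ≤ ∏ _p ∈ t, k :=
          Finset.prod_le_prod' fun p hp => rts_card hl hd (ht p hp)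
      _ = k ^ t.card := by rw [Finset.prod_const]
  obtain ⟨F, hF⟩ : ∃ F : ℤ → (p : ℕ) → p ∈ t → ℕ, F = fun (a : ℤ) (p : ℕ) (_ : p ∈ t) => (a % (p : ℤ)).toNat := ⟨_, rfl⟩
  have hmod : ∀ a : ℤ, ∀ p ∈ t, (((a % (p : ℤ)).toNat : ℕ) : ℤ) = a % (p : ℤ) := by
    intro a p hp
    have h1 : (p : ℤ) ≠ 0 := by exact_mod_cast (ht p hp).ne_zero
    exact Int.toNat_of_nonneg (Int.emod_nonneg _ h1)
  have hFB : ∀ a ∈ A, F a ∈ B := by
    intro a ha
    rw [hB, Finset.mem_pi]
    intro p hp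
    unfold rts
    rw [hF, Finset.mem_filter, Finset.mem_range]
    have h1 : (0 : ℤ) < p := by exact_mod_cast (ht p hp).pos
    have h2 := hmod a p hp
    constructor
    · have h3 := Int.emod_lt_of_pos a h1
      simp only
      omega
    · rw [h2]
      have h3 : (p : ℤ) ∣ a - a % (p : ℤ) := Int.dvd_self_sub_emod
      have h4 := (h3.trans (sub_dvd_eval_sub a (a % (p : ℤ)) l))
      have h5 := dvd_sub (hA a ha p hp) h4
      rwa [sub_sub_cancel] at h5
  have hfib : ∀ f ∈ B, (((A.filter fun a => F a = f).card : ℕ) : ℝ) ≤ R / g + 1 := by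
    intro f _
    apply card_cong _ g hg0 R hR
    · intro a ha b hb
      rw [Finset.mem_filter] at ha hb
      have h1 : F a = F b := by rw [ha.2, hb.2]
      have h2 : ∀ p ∈ t, (p : ℤ) ∣ a - b := by
        intro p hp
        have h3 := congrFun (congrFun h1 p) hp
        rw [hF] at h3
        simp only at h3
        have h4 : a % (p : ℤ) = b % (p : ℤ) := by
          rw [← hmod a p hp, ← hmod b p hp, h3]
        exact Int.ModEq.dvd (Int.ModEq.symm h4)
      rw [hg]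
      push_cast
      apply Finset.prod_dvd_of_coprime
      · intro p hp q hq hpq
        have hp' := ht p (Finset.mem_coe.1 hp)
        have hq' := ht q (Finset.mem_coe.1 hq)
        simp only [Function.onFun]
        exact Nat.isCoprime_iff_coprime.2 ((Nat.coprime_primes hp' hq').2 hpq)
      · intro p hp
        exact h2 p hp
    · intro a ha b hb
      rw [Finset.mem_filter] at ha hb
      exact hAR a ha.1 b hb.1
  have h1 : A.card = ∑ f ∈ B, (A.filter fun a => F a = f).card :=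
    Finset.card_eq_sum_card_fiberwise fun a ha => hFB a ha
  have h2 : (A.card : ℝ) ≤ ∑ f ∈ B, (R / g + 1) := by
    rw [h1]
    push_cast
    exact Finset.sum_le_sum hfib
  refine h2.trans ?_
  rw [Finset.sum_const, nsmul_eq_mul]
  apply mul_le_mul_of_nonneg_right _ (by positivity)
  exact_mod_cast hBc

/-- a large common prime factor with a fixed number -/
theorem count_big {l : ℤ[X]} {k : ℕ} (hl : l.IsPrimitive) (hd : l.natDegree ≤ k) (M : ℤ)
    (hM : M ≠ 0) (P₀ R : ℝ) (hP₀ : 1 ≤ P₀) (hR : 0 ≤ R) (A : Finset ℤ)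
    (hA : ∀ a ∈ A, ∃ p : ℕ, p.Prime ∧ P₀ < p ∧ (p : ℤ) ∣ M ∧ (p : ℤ) ∣ l.eval a)
    (hAR : ∀ a ∈ A, ∀ b ∈ A, (a : ℝ) - b ≤ R) :
    (A.card : ℝ) ≤ Real.log |(M : ℝ)| / Real.log 2 * (k * (R / P₀ + 1)) := by
  classical
  obtain ⟨F, hF⟩ : ∃ F : Finset ℕ, F = M.natAbs.primeFactors.filter fun p : ℕ => P₀ < (p : ℝ) :=
    ⟨_, rfl⟩
  have hM0 : M.natAbs ≠ 0 := by omega
  have hsub : A ⊆ F.biUnion fun p => A.filter fun a => (p : ℤ) ∣ l.eval a := by
    intro a ha
    obtain ⟨p, hp, hpP, hpM, hpa⟩ := hA a ha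
    rw [Finset.mem_biUnion]
    refine ⟨p, ?_, Finset.mem_filter.2 ⟨ha, hpa⟩⟩
    rw [hF, Finset.mem_filter]
    exact ⟨Nat.mem_primeFactors.2 ⟨hp, Int.natCast_dvd.1 hpM, hM0⟩, hpP⟩
  have h1 : (A.card : ℝ) ≤ ∑ p ∈ F, ((A.filter fun a => (p : ℤ) ∣ l.eval a).card : ℝ) := by
    exact_mod_cast (Finset.card_le_card hsub).trans Finset.card_biUnion_le
  have h2 : ∀ p ∈ F, ((A.filter fun a => (p : ℤ) ∣ l.eval a).card : ℝ) ≤ k * (R / P₀ + 1) := by
    intro p hp
    rw [hF, Finset.mem_filter] at hp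
    have hpp := Nat.prime_of_mem_primeFactors hp.1
    have h3 := count_t hl hd {p} (by simpa using hpp) (A.filter fun a => (p : ℤ) ∣ l.eval a) R hR
      (by
        intro a ha q hq
        rw [Finset.mem_singleton] at hq
        rw [hq]
        exact (Finset.mem_filter.1 ha).2)
      (fun a ha b hb => hAR a (Finset.mem_filter.1 ha).1 b (Finset.mem_filter.1 hb).1)
    rw [Finset.card_singleton, pow_one, Finset.prod_singleton] at h3
    refine h3.trans ?_
    apply mul_le_mul_of_nonneg_left _ (Nat.cast_nonneg k)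
    have h4 : R / (p : ℝ) ≤ R / P₀ := div_le_div_of_nonneg_left hR (by linarith) hp.2.le
    linarith
  refine h1.trans ((Finset.sum_le_sum h2).trans ?_)
  rw [Finset.sum_const, nsmul_eq_mul]
  refine mul_le_mul_of_nonneg_right ?_ (by positivity)
  have hlog2 : 0 < Real.log 2 := Real.log_pos (by norm_num)
  rw [le_div_iff₀ hlog2]
  have h3 : 2 ^ F.card ≤ M.natAbs := by
    calc 2 ^ F.card ≤ 2 ^ M.natAbs.primeFactors.card := by
          rw [hF]
          exact Nat.pow_le_pow_right (by norm_num) (Finset.card_le_card (Finset.filter_subset _ _))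
      _ ≤ ∏ p ∈ M.natAbs.primeFactors, p :=
          Finset.pow_card_le_prod _ _ _ fun p hp => (Nat.prime_of_mem_primeFactors hp).two_le
      _ ≤ M.natAbs := Nat.le_of_dvd (by omega) (Nat.prod_primeFactors_dvd _)
  have h4 : (2 : ℝ) ^ F.card ≤ |(M : ℝ)| := by
    have h5 : ((M.natAbs : ℕ) : ℝ) = |(M : ℝ)| := by
      rw [Nat.cast_natAbs, Int.cast_abs]
    rw [← h5]
    exact_mod_cast h3
  have h5 := Real.log_le_log (by positivity) h4
  rwa [Real.log_pow] at h5

theorem sum_inv_primes (P₀ : ℝ) (hP : 1 ≤ P₀) :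
    ∑ p ∈ (Finset.range (⌊P₀⌋₊ + 1)).filter Nat.Prime, (1 : ℝ) / p ≤ 1 + Real.log P₀ := by
  refine le_trans ?_ (harmonic_floor_le_one_add_log P₀ hP)
  rw [harmonic_eq_sum_Icc]
  push_cast
  have h1 : (Finset.range (⌊P₀⌋₊ + 1)).filter Nat.Prime ⊆ Finset.Icc 1 ⌊P₀⌋₊ := by
    intro p hp
    rw [Finset.mem_filter, Finset.mem_range] at hp
    rw [Finset.mem_Icc]
    exact ⟨hp.2.pos, by omega⟩
  calc ∑ p ∈ (Finset.range (⌊P₀⌋₊ + 1)).filter Nat.Prime, (1 : ℝ) / p
      ≤ ∑ p ∈ Finset.Icc 1 ⌊P₀⌋₊, (1 : ℝ) / p :=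
        Finset.sum_le_sum_of_subset_of_nonneg h1 (fun _ _ _ => by positivity)
    _ = ∑ p ∈ Finset.Icc 1 ⌊P₀⌋₊, (p : ℝ)⁻¹ := by simp only [one_div]

/-- many small prime factors -/
theorem count_small {l : ℤ[X]} {k : ℕ} (hl : l.IsPrimitive) (hd : l.natDegree ≤ k)
    (P₀ R y : ℝ) (K : ℕ) (hP₀ : 1 ≤ P₀) (hR : P₀ ^ K ≤ R) (hy : 1 ≤ y) (A : Finset ℤ)
    (hA : ∀ a ∈ A, l.eval a ≠ 0 ∧
      K ≤ ((l.eval a).natAbs.primeFactors.filter fun p : ℕ => (p : ℝ) ≤ P₀).card)
    (hAR : ∀ a ∈ A, ∀ b ∈ A, (a : ℝ) - b ≤ R) :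
    (A.card : ℝ) ≤ 2 * R * (y ^ K)⁻¹ * Real.exp (y * k * (1 + Real.log P₀)) := by
  classical
  have hR0 : 0 < R := lt_of_lt_of_le (by positivity) hR
  obtain ⟨PP, hPP⟩ : ∃ PP : Finset ℕ, PP = (Finset.range (⌊P₀⌋₊ + 1)).filter Nat.Prime := ⟨_, rfl⟩
  have hmem : ∀ p ∈ PP, p.Prime ∧ (p : ℝ) ≤ P₀ := by
    intro p hp
    rw [hPP, Finset.mem_filter, Finset.mem_range] at hp
    exact ⟨hp.2, (Nat.le_floor_iff (by linarith)).1 (by omega)⟩
  have hsub : A ⊆ (Finset.powersetCard K PP).biUnion fun t =>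
      A.filter fun a => ∀ p ∈ t, (p : ℤ) ∣ l.eval a := by
    intro a ha
    obtain ⟨h0, h1⟩ := hA a ha
    obtain ⟨t, ht, htc⟩ := Finset.exists_subset_card_eq h1
    rw [Finset.mem_biUnion]
    refine ⟨t, ?_, ?_⟩
    · rw [Finset.mem_powersetCard]
      refine ⟨?_, htc⟩
      intro p hp
      have h2 := Finset.mem_filter.1 (ht hp)
      rw [hPP, Finset.mem_filter, Finset.mem_range]
      refine ⟨?_, Nat.prime_of_mem_primeFactors h2.1⟩
      have := (Nat.le_floor_iff (by linarith)).2 h2.2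
      omega
    · rw [Finset.mem_filter]
      refine ⟨ha, fun p hp => ?_⟩
      have h2 := Finset.mem_filter.1 (ht hp)
      exact Int.natCast_dvd.2 (Nat.dvd_of_mem_primeFactors h2.1)
  have h1 : (A.card : ℝ) ≤ ∑ t ∈ Finset.powersetCard K PP,
      ((A.filter fun a => ∀ p ∈ t, (p : ℤ) ∣ l.eval a).card : ℝ) := by
    exact_mod_cast (Finset.card_le_card hsub).trans Finset.card_biUnion_le
  have hy0 : 0 < y := by linarith
  have h2 : ∀ t ∈ Finset.powersetCard K PP,
      ((A.filter fun a => ∀ p ∈ t, (p : ℤ) ∣ l.eval a).card : ℝ) ≤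
        2 * R * (y ^ K)⁻¹ * ∏ p ∈ t, (y * k * (1 / p)) := by
    intro t ht
    rw [Finset.mem_powersetCard] at ht
    have h3 := count_t hl hd t (fun p hp => (hmem p (ht.1 hp)).1)
      (A.filter fun a => ∀ p ∈ t, (p : ℤ) ∣ l.eval a) R hR0.le
      (fun a ha => (Finset.mem_filter.1 ha).2)
      (fun a ha b hb => hAR a (Finset.mem_filter.1 ha).1 b (Finset.mem_filter.1 hb).1)
    refine h3.trans ?_
    obtain ⟨g, hg⟩ : ∃ g : ℝ, g = ((∏ p ∈ t, p : ℕ) : ℝ) := ⟨_, rfl⟩
    rw [← hg]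
    have hg1 : 0 < g := by
      rw [hg]
      exact_mod_cast Finset.prod_pos fun p hp => (hmem p (ht.1 hp)).1.pos
    have hgR : g ≤ R := by
      refine le_trans ?_ hR
      rw [hg]
      push_cast
      calc ∏ p ∈ t, (p : ℝ) ≤ ∏ _p ∈ t, P₀ :=
            Finset.prod_le_prod (fun p _ => Nat.cast_nonneg p) fun p hp => (hmem p (ht.1 hp)).2
        _ = P₀ ^ K := by rw [Finset.prod_const, ht.2]
    have h4 : ∏ p ∈ t, (y * k * (1 / (p : ℝ))) = y ^ K * k ^ K * g⁻¹ := by
      rw [Finset.prod_mul_distrib, Finset.prod_mul_distrib, Finset.prod_const, Finset.prod_const,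
        ht.2, hg]
      push_cast
      congr 1
      rw [← Finset.prod_inv_distrib]
      simp only [one_div]
    rw [h4, ht.2]
    have h5 : R / g + 1 ≤ 2 * R * g⁻¹ := by
      have h6 : 1 ≤ R / g := by rwa [one_le_div hg1]
      have h7 : 2 * R * g⁻¹ = R / g + R / g := by rw [div_eq_mul_inv]; ring
      linarith
    calc (k : ℝ) ^ K * (R / g + 1) ≤ (k : ℝ) ^ K * (2 * R * g⁻¹) :=
          mul_le_mul_of_nonneg_left h5 (by positivity)
      _ = 2 * R * (y ^ K)⁻¹ * (y ^ K * k ^ K * g⁻¹) := by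
          have : y ^ K ≠ 0 := by positivity
          field_simp
  refine h1.trans ((Finset.sum_le_sum h2).trans ?_)
  rw [← Finset.mul_sum]
  apply mul_le_mul_of_nonneg_left _ (by positivity)
  calc ∑ t ∈ Finset.powersetCard K PP, ∏ p ∈ t, (y * k * (1 / (p : ℝ)))
      ≤ ∑ t ∈ PP.powerset, ∏ p ∈ t, (y * k * (1 / (p : ℝ))) := by
        apply Finset.sum_le_sum_of_subset_of_nonneg
        · intro t ht
          rw [Finset.mem_powersetCard] at ht
          exact Finset.mem_powerset.2 ht.1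
        · intro t _ _
          exact Finset.prod_nonneg fun p _ => by positivity
    _ = ∏ p ∈ PP, (1 + y * k * (1 / (p : ℝ))) := (Finset.prod_one_add PP).symm
    _ ≤ ∏ p ∈ PP, Real.exp (y * k * (1 / (p : ℝ))) := by
        apply Finset.prod_le_prod
        · intro p _
          positivity
        · intro p _
          rw [add_comm]
          exact Real.add_one_le_exp _
    _ = Real.exp (∑ p ∈ PP, y * k * (1 / (p : ℝ))) := (Real.exp_sum _ _).symm
    _ ≤ Real.exp (y * k * (1 + Real.log P₀)) := by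
        rw [Real.exp_le_exp, ← Finset.mul_sum]
        apply mul_le_mul_of_nonneg_left _ (by positivity)
        rw [hPP]
        exact sum_inv_primes P₀ hP₀

/-- a large common factor: a large prime or many small primes -/
theorem big_or_small {d M : ℤ} {z P₀ : ℝ} {K : ℕ} (hd0 : d ≠ 0) (hsq : Squarefree d)
    (hP : 1 ≤ P₀) (hPz : P₀ ^ K ≤ z) (hg : z < (Int.gcd d M : ℝ)) :
    (∃ p : ℕ, p.Prime ∧ P₀ < p ∧ (p : ℤ) ∣ M ∧ (p : ℤ) ∣ d) ∨
      K + 1 ≤ (d.natAbs.primeFactors.filter fun p : ℕ => (p : ℝ) ≤ P₀).card := by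
  by_contra hcon
  push Not at hcon
  obtain ⟨hcon, hK⟩ := hcon
  obtain ⟨g, hgg⟩ : ∃ g : ℕ, g = Int.gcd d M := ⟨_, rfl⟩
  rw [← hgg] at hg
  have hgd : (g : ℤ) ∣ d := by
    rw [hgg]
    exact Int.gcd_dvd_left ..
  have hgM : (g : ℤ) ∣ M := by
    rw [hgg]
    exact Int.gcd_dvd_right ..
  have hgn : g ∣ d.natAbs := Int.natCast_dvd.1 hgd
  have hsqg : Squarefree g := (Int.squarefree_natAbs.2 hsq).squarefree_of_dvd hgn
  have hle : ∀ p ∈ g.primeFactors, (p : ℝ) ≤ P₀ := by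
    intro p hp
    have hpp := Nat.prime_of_mem_primeFactors hp
    have hpg : (p : ℤ) ∣ (g : ℤ) := Int.natCast_dvd_natCast.2 (Nat.dvd_of_mem_primeFactors hp)
    by_contra hlt
    exact hcon p hpp (not_le.1 hlt) (hpg.trans hgM) (hpg.trans hgd)
  have hsub : g.primeFactors ⊆ d.natAbs.primeFactors.filter fun p : ℕ => (p : ℝ) ≤ P₀ := by
    intro p hp
    rw [Finset.mem_filter]
    exact ⟨Nat.primeFactors_mono hgn (Int.natAbs_ne_zero.2 hd0) hp, hle p hp⟩
  have h1 : ((∏ p ∈ g.primeFactors, p : ℕ) : ℝ) ≤ P₀ ^ g.primeFactors.card := by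
    push_cast
    rw [← Finset.prod_const]
    exact Finset.prod_le_prod (fun p _ => Nat.cast_nonneg p) hle
  rw [Nat.prod_primeFactors_of_squarefree hsqg] at h1
  have h2 : P₀ ^ g.primeFactors.card ≤ P₀ ^ K :=
    pow_le_pow_right₀ hP ((Finset.card_le_card hsub).trans (by omega))
  linarith

end Pool.Agent.H45.PF
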