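import Pool.Agent.H45.PF.WIN

/-! A window, with all parameters chosen. -/

set_option autoImplicit false

namespace Pool.Agent.H45.PF

open Polynomial Pool.Agent.Q276.PL Filter Topology

theorem loglim (s : ℝ) (hs : 0 < s) : Tendsto (fun D : ℝ => (Real.log D) ^ s) atTop atTop :=
  (tendsto_rpow_atTop hs).comp Real.tendsto_log_atTop

theorem asym1 (δ C : ℝ) (hδ : 0 < δ) (hC : 0 ≤ C) :
    ∀ᶠ D : ℝ in atTop, C * (Real.log D) ^ 11 * Real.exp (-((Real.log D) ^ (3 * δ / 4))) ≤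
      Real.exp (-((Real.log D) ^ (2 * δ / 3))) := by
  have h1 := loglim (2 * δ / 3) (by positivity)
  have h1' := loglim (δ / 12) (by positivity)
  have h2 : Tendsto (fun u : ℝ => C * (u ^ (33 / (2 * δ)) * Real.exp (-1 * u))) atTop (𝓝 (C * 0)) :=
    (tendsto_rpow_mul_exp_neg_mul_atTop_nhds_zero _ 1 one_pos).const_mul C
  rw [mul_zero] at h2
  filter_upwards [h1'.eventually (eventually_ge_atTop 2),
    (h2.comp h1).eventually_le_const one_pos,
    Real.tendsto_log_atTop.eventually (eventually_ge_atTop 1)] with D h3 h4 h5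
  simp only [Function.comp_apply] at h4
  obtain ⟨l, hl⟩ : ∃ l, l = Real.log D := ⟨_, rfl⟩
  rw [← hl] at h3 h4 h5 ⊢
  have hl0 : 0 < l := by linarith
  obtain ⟨u, hu⟩ : ∃ u, u = l ^ (2 * δ / 3) := ⟨_, rfl⟩
  rw [← hu] at h4 ⊢
  have hu0 : 0 < u := by rw [hu]; exact Real.rpow_pos_of_pos hl0 _
  have hu1 : u ^ (33 / (2 * δ)) = l ^ 11 := by
    rw [hu, ← Real.rpow_mul hl0.le, show 2 * δ / 3 * (33 / (2 * δ)) = ((11 : ℕ) : ℝ) by
      field_simp; norm_num, Real.rpow_natCast]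
  have hu2 : 2 * u ≤ l ^ (3 * δ / 4) := by
    have : l ^ (3 * δ / 4) = l ^ (δ / 12) * u := by
      rw [hu, ← Real.rpow_add hl0]
      congr 1
      ring
    rw [this]
    exact mul_le_mul_of_nonneg_right h3 hu0.le
  rw [hu1] at h4
  have h6 : Real.exp (-(l ^ (3 * δ / 4))) ≤ Real.exp (-1 * u) * Real.exp (-u) := by
    rw [← Real.exp_add, Real.exp_le_exp]
    linarith
  calc C * l ^ 11 * Real.exp (-(l ^ (3 * δ / 4)))
      ≤ C * l ^ 11 * (Real.exp (-1 * u) * Real.exp (-u)) :=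
        mul_le_mul_of_nonneg_left h6 (by positivity)
    _ = (C * (l ^ 11 * Real.exp (-1 * u))) * Real.exp (-u) := by ring
    _ ≤ 1 * Real.exp (-u) := mul_le_mul_of_nonneg_right h4 (Real.exp_pos _).le
    _ = Real.exp (-u) := one_mul _

/-- the inequality between the parameters -/
theorem params {C l t w σ m z k K e : ℝ} (hC : 1 ≤ C) (hl : 1 ≤ l) (hσ1 : 1 ≤ σ) (hσl : σ ≤ l)
    (hm1 : 1 ≤ m) (hm : m ≤ 10 * C * l) (ht : 1 ≤ t) (htw : t ≤ w / 4)
    (hz : z = Real.exp (w / 4)) (he : e = Real.exp (-t))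
    (hK : (3 * k * (1 + t)) + t ≤ K) :
    (2 * σ * l + 1) * (C * z * Real.exp (w / 2) * (m ^ 2 * l) ^ 3 +
      C * m ^ 3 * l * (2 * Real.exp w / Real.exp t + 1)) +
    4 * Real.exp w * Real.exp (-K) * Real.exp (3 * k * (1 + t)) ≤
    Real.exp w * ((3 * (10 ^ 6 * C ^ 7 + 3000 * C ^ 4) + 4) * l ^ 11 * e) := by
  have hC0 : 0 < C := by linarith
  have hl0 : 0 < l := by linarith
  have he0 : 0 < e := by rw [he]; exact Real.exp_pos _
  have h1 : 2 * σ * l + 1 ≤ 3 * l ^ 2 := by nlinarith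
  have h2 : C * z * Real.exp (w / 2) * (m ^ 2 * l) ^ 3 ≤
      Real.exp w * (10 ^ 6 * C ^ 7 * l ^ 9 * e) := by
    have h3 : z * Real.exp (w / 2) = Real.exp w * Real.exp (-(w / 4)) := by
      rw [hz, ← Real.exp_add, ← Real.exp_add]
      congr 1
      ring
    have h4 : Real.exp (-(w / 4)) ≤ e := by
      rw [he]
      exact Real.exp_le_exp.2 (by linarith)
    have h5 : m ^ 2 * l ≤ (10 * C * l) ^ 2 * l :=
      mul_le_mul_of_nonneg_right (pow_le_pow_left₀ (by linarith) hm 2) hl0.le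
    have h6 : (m ^ 2 * l) ^ 3 ≤ ((10 * C * l) ^ 2 * l) ^ 3 := pow_le_pow_left₀ (by positivity) h5 3
    calc C * z * Real.exp (w / 2) * (m ^ 2 * l) ^ 3
        = C * (Real.exp w * Real.exp (-(w / 4))) * (m ^ 2 * l) ^ 3 := by rw [← h3]; ring
      _ ≤ C * (Real.exp w * e) * ((10 * C * l) ^ 2 * l) ^ 3 := by gcongr
      _ = Real.exp w * (10 ^ 6 * C ^ 7 * l ^ 9 * e) := by ring
  have h3 : C * m ^ 3 * l * (2 * Real.exp w / Real.exp t + 1) ≤
      Real.exp w * (3000 * C ^ 4 * l ^ 4 * e) := by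
    have h4 : 2 * Real.exp w / Real.exp t + 1 ≤ 3 * (Real.exp w * e) := by
      have h5 : Real.exp w / Real.exp t = Real.exp w * e := by
        rw [he, Real.exp_neg, div_eq_mul_inv]
      have h6 : 1 ≤ Real.exp w * e := by
        rw [he, ← Real.exp_add]
        exact Real.one_le_exp (by linarith)
      rw [mul_div_assoc, h5]
      linarith
    have h5 : m ^ 3 ≤ (10 * C * l) ^ 3 := pow_le_pow_left₀ (by linarith) hm 3
    calc C * m ^ 3 * l * (2 * Real.exp w / Real.exp t + 1)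
        ≤ C * (10 * C * l) ^ 3 * l * (3 * (Real.exp w * e)) := by gcongr
      _ = Real.exp w * (3000 * C ^ 4 * l ^ 4 * e) := by ring
  have h4 : 4 * Real.exp w * Real.exp (-K) * Real.exp (3 * k * (1 + t)) ≤
      Real.exp w * (4 * l ^ 11 * e) := by
    have h5 : Real.exp (-K) * Real.exp (3 * k * (1 + t)) ≤ e := by
      rw [← Real.exp_add, he]
      exact Real.exp_le_exp.2 (by linarith)
    have h6 : 1 ≤ l ^ 11 := one_le_pow₀ hl
    calc 4 * Real.exp w * Real.exp (-K) * Real.exp (3 * k * (1 + t))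
        = 4 * Real.exp w * (Real.exp (-K) * Real.exp (3 * k * (1 + t))) := by ring
      _ ≤ 4 * Real.exp w * e := mul_le_mul_of_nonneg_left h5 (by positivity)
      _ = Real.exp w * (4 * 1 * e) := by ring
      _ ≤ Real.exp w * (4 * l ^ 11 * e) := by gcongr
  have h5 : Real.exp w * (10 ^ 6 * C ^ 7 * l ^ 9 * e) + Real.exp w * (3000 * C ^ 4 * l ^ 4 * e) ≤
      Real.exp w * ((10 ^ 6 * C ^ 7 + 3000 * C ^ 4) * l ^ 9 * e) := by
    have h6 : l ^ 4 ≤ l ^ 9 := pow_le_pow_right₀ hl (by norm_num)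
    have h7 : Real.exp w * (3000 * C ^ 4 * l ^ 4 * e) ≤ Real.exp w * (3000 * C ^ 4 * l ^ 9 * e) := by
      gcongr
    have h8 : Real.exp w * ((10 ^ 6 * C ^ 7 + 3000 * C ^ 4) * l ^ 9 * e) =
      Real.exp w * (10 ^ 6 * C ^ 7 * l ^ 9 * e) + Real.exp w * (3000 * C ^ 4 * l ^ 9 * e) := by ring
    linarith
  have h6 : (2 * σ * l + 1) * (C * z * Real.exp (w / 2) * (m ^ 2 * l) ^ 3 +
      C * m ^ 3 * l * (2 * Real.exp w / Real.exp t + 1)) ≤
      (3 * l ^ 2) * (Real.exp w * ((10 ^ 6 * C ^ 7 + 3000 * C ^ 4) * l ^ 9 * e)) := by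
    apply mul_le_mul h1 _ _ (by positivity)
    · linarith
    · rw [hz]
      have : 0 < m := by linarith
      positivity
  have h7 : (3 * l ^ 2) * (Real.exp w * ((10 ^ 6 * C ^ 7 + 3000 * C ^ 4) * l ^ 9 * e)) =
      Real.exp w * (3 * (10 ^ 6 * C ^ 7 + 3000 * C ^ 4) * l ^ 11 * e) := by ring
  have h8 : Real.exp w * ((3 * (10 ^ 6 * C ^ 7 + 3000 * C ^ 4) + 4) * l ^ 11 * e) =
      Real.exp w * (3 * (10 ^ 6 * C ^ 7 + 3000 * C ^ 4) * l ^ 11 * e) +
      Real.exp w * (4 * l ^ 11 * e) := by ring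
  linarith

theorem blkf (k : ℕ) (ε : ℝ) (hε : 0 < ε) (hε1 : ε ≤ 1) (δ : ℝ) (hδ : 0 < δ) (hδ2 : δ < 1 / 2) :
    ∃ D₁ : ℝ, 1 ≤ D₁ ∧ ∀ D : ℝ, D₁ ≤ D → ∃ L : ℝ, 1 ≤ L ∧
      L ≤ Real.exp (Real.log D ^ (2 * δ)) ∧ L ≤ D ^ (ε / 2) ∧
      ∀ (S : ℝ) (l : ℤ[X]), Near k ε D S l → (∀ τ : ℤ, |(τ : ℝ)| ≤ L → D ≤ ((l.eval τ : ℤ) : ℝ)) →
      ((Win l L (Real.exp (Real.log D ^ (3 / 2 - δ)))).ncard : ℝ) ≤
        L * Real.exp (-(Real.log D ^ (2 * δ / 3))) := by
  obtain ⟨C, hC, hW⟩ := win k ε hε hε1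
  obtain ⟨D₁, hD₁⟩ := Filter.eventually_atTop.1
    ((asym1 δ (3 * (10 ^ 6 * C ^ 7 + 3000 * C ^ 4) + 4) hδ (by positivity)).and
      (((loglim (2 * δ) (by positivity)).eventually (eventually_ge_atTop (10 * C * C))).and
      (((loglim (5 * δ / 4) (by positivity)).eventually (eventually_ge_atTop (320 * C))).and
      (((loglim (δ / 2) (by positivity)).eventually
        (eventually_ge_atTop (320 * C * (6 * k + 1)))).and
      ((Real.tendsto_log_atTop.eventually (eventually_ge_atTop (1 / ε + 1))).and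
      (((loglim (1 - 2 * δ) (by linarith)).eventually (eventually_ge_atTop (1 / ε))).and
      (eventually_ge_atTop C)))))))
  refine ⟨max 1 D₁, le_max_left _ _, fun D hD => ?_⟩
  obtain ⟨hA, h2, h3, h3', h4', h4'', h5⟩ := hD₁ D ((le_max_right _ _).trans hD)
  have hD1 : 1 ≤ D := (le_max_left _ _).trans hD
  have hD0 : 0 < D := by linarith
  obtain ⟨l, hl⟩ : ∃ l, l = Real.log D := ⟨_, rfl⟩
  rw [← hl] at hA h2 h3 h3' h4' h4'' ⊢
  have hε0 : 0 < 1 / ε := by positivity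
  have h4 : 1 ≤ l := by linarith
  have hl0 : 0 < l := by linarith
  have hDl : D = Real.exp l := by rw [hl, Real.exp_log hD0]
  obtain ⟨σ, hσ⟩ : ∃ σ, σ = l ^ (1 / 2 - δ) := ⟨_, rfl⟩
  have hσ1 : 1 ≤ σ := by rw [hσ]; exact Real.one_le_rpow h4 (by linarith)
  have hσ2 : σ ^ 2 = l ^ (1 - 2 * δ) := by
    rw [hσ, ← Real.rpow_natCast, ← Real.rpow_mul hl0.le]
    congr 1
    push_cast
    ring
  have hσl : σ ≤ l := by
    rw [hσ]
    calc l ^ (1 / 2 - δ) ≤ l ^ (1 : ℝ) := Real.rpow_le_rpow_of_exponent_le h4 (by linarith)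
      _ = l := Real.rpow_one l
  have hσ2l : σ ^ 2 ≤ l := by
    rw [hσ2]
    calc l ^ (1 - 2 * δ) ≤ l ^ (1 : ℝ) := Real.rpow_le_rpow_of_exponent_le h4 (by linarith)
      _ = l := Real.rpow_one l
  have hσ3 : l ^ (2 * δ) * σ ^ 2 = l := by
    rw [hσ2, ← Real.rpow_add hl0]
    rw [show 2 * δ + (1 - 2 * δ) = (1 : ℝ) by ring, Real.rpow_one]
  obtain ⟨m, hm⟩ : ∃ m : ℕ, m = ⌈C * (2 * σ + 1) ^ 2⌉₊ := ⟨_, rfl⟩
  have hmlo : C * (2 * σ + 1) ^ 2 ≤ m := by rw [hm]; exact Nat.le_ceil _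
  have hs9 : (2 * σ + 1) ^ 2 ≤ 9 * σ ^ 2 := by nlinarith
  have hs4 : σ ^ 2 ≤ (2 * σ + 1) ^ 2 := by nlinarith
  have hs1 : 1 ≤ σ ^ 2 := one_le_pow₀ hσ1
  have hCs : σ ^ 2 ≤ C * σ ^ 2 := le_mul_of_one_le_left (by positivity) hC
  have hmhi : (m : ℝ) ≤ 10 * C * σ ^ 2 := by
    have h6 : (m : ℝ) < C * (2 * σ + 1) ^ 2 + 1 := by
      rw [hm]
      exact Nat.ceil_lt_add_one (by positivity)
    have h7 : C * (2 * σ + 1) ^ 2 ≤ C * (9 * σ ^ 2) := mul_le_mul_of_nonneg_left hs9 (by linarith)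
    linarith
  have hmσ : σ ^ 2 ≤ m := by
    have h7 : (2 * σ + 1) ^ 2 ≤ C * (2 * σ + 1) ^ 2 := le_mul_of_one_le_left (by positivity) hC
    linarith
  have hm1 : (1 : ℝ) ≤ m := by linarith
  have hm0 : (0 : ℝ) < m := by linarith
  have hCm : C * m ≤ l := by
    calc C * m ≤ C * (10 * C * σ ^ 2) := mul_le_mul_of_nonneg_left hmhi (by linarith)
      _ = (10 * C * C) * σ ^ 2 := by ring
      _ ≤ l ^ (2 * δ) * σ ^ 2 := mul_le_mul_of_nonneg_right h2 (by positivity)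
      _ = l := hσ3
  obtain ⟨w, hw⟩ : ∃ w, w = l / (8 * m) := ⟨_, rfl⟩
  have hl2δ : 0 < l ^ (2 * δ) := Real.rpow_pos_of_pos hl0 _
  have hwlo : l ^ (2 * δ) / (80 * C) ≤ w := by
    rw [hw, div_le_div_iff₀ (by positivity) (by positivity)]
    calc l ^ (2 * δ) * (8 * m) ≤ l ^ (2 * δ) * (8 * (10 * C * σ ^ 2)) :=
          mul_le_mul_of_nonneg_left (by linarith) hl2δ.le
      _ = (l ^ (2 * δ) * σ ^ 2) * (80 * C) := by ring
      _ = l * (80 * C) := by rw [hσ3]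
  have hwhi : w ≤ l ^ (2 * δ) := by
    rw [hw, div_le_iff₀ (by positivity)]
    calc l = l ^ (2 * δ) * σ ^ 2 := hσ3.symm
      _ ≤ l ^ (2 * δ) * (8 * m) := mul_le_mul_of_nonneg_left (by linarith) hl2δ.le
  have hw0 : 0 < w := by rw [hw]; positivity
  have hwl : w ≤ l := by
    rw [hw, div_le_iff₀ (by positivity)]
    nlinarith
  obtain ⟨t, ht⟩ : ∃ t, t = l ^ (3 * δ / 4) := ⟨_, rfl⟩
  rw [← ht] at hA
  have ht1 : 1 ≤ t := by rw [ht]; exact Real.one_le_rpow h4 (by positivity)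
  have ht0 : 0 < t := by linarith
  have h2t : l ^ (2 * δ) = t * l ^ (5 * δ / 4) := by
    rw [ht, ← Real.rpow_add hl0]
    congr 1
    ring
  have h54 : l ^ (5 * δ / 4) = t * l ^ (δ / 2) := by
    rw [ht, ← Real.rpow_add hl0]
    congr 1
    ring
  have htw : t ≤ w / 4 := by
    have h6 : t ≤ l ^ (2 * δ) / (320 * C) := by
      rw [le_div_iff₀ (by positivity), h2t]
      exact mul_le_mul_of_nonneg_left h3 ht0.le
    have h7 : l ^ (2 * δ) / (320 * C) = l ^ (2 * δ) / (80 * C) / 4 := by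
      rw [div_div]
      congr 1
      ring
    linarith
  obtain ⟨K, hK⟩ : ∃ K : ℕ, K = ⌊(w / 4) / t⌋₊ := ⟨_, rfl⟩
  have hK1 : (K : ℝ) * t ≤ w / 4 := by
    rw [← le_div_iff₀ ht0, hK]
    exact Nat.floor_le (by positivity)
  have hK2 : (w / 4) / t ≤ ((K + 1 : ℕ) : ℝ) := by
    rw [hK]
    push_cast
    exact (Nat.lt_floor_add_one _).le
  have hk0 : (0 : ℝ) ≤ k := Nat.cast_nonneg k
  have hK3 : (3 * k * (1 + t)) + t ≤ ((K + 1 : ℕ) : ℝ) := by
    refine le_trans ?_ hK2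
    rw [le_div_iff₀ ht0]
    have h6 : (3 * k * (1 + t)) + t ≤ (6 * k + 1) * t := by nlinarith
    calc ((3 * k * (1 + t)) + t) * t ≤ ((6 * k + 1) * t) * t :=
          mul_le_mul_of_nonneg_right h6 ht0.le
      _ ≤ (l ^ (2 * δ) / (80 * C)) / 4 := by
          rw [le_div_iff₀ (by norm_num), le_div_iff₀ (by positivity), h2t, h54]
          calc (6 * k + 1) * t * t * 4 * (80 * C) = t * (t * (320 * C * (6 * k + 1))) := by ring
            _ ≤ t * (t * l ^ (δ / 2)) := by gcongr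
      _ ≤ w / 4 := by linarith
  have hL : D ^ (1 / (8 * (m : ℝ))) = Real.exp w := by
    rw [Real.rpow_def_of_pos hD0, ← hl, hw]
    congr 1
    ring
  have hL2 : D ^ (1 / (16 * (m : ℝ))) = Real.exp (w / 2) := by
    rw [Real.rpow_def_of_pos hD0, ← hl, hw]
    congr 1
    field_simp
    norm_num
  refine ⟨Real.exp w, Real.one_le_exp hw0.le, Real.exp_le_exp.2 hwhi, ?_, ?_⟩
  · rw [← hL]
    apply Real.rpow_le_rpow_of_exponent_le hD1
    have h6 : 1 / ε ≤ m := by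
      rw [← hσ2] at h4''
      linarith
    rw [div_le_iff₀ hε] at h6
    rw [div_le_div_iff₀ (by positivity) (by norm_num)]
    linarith
  intro S P hN hlD
  have hT := hW D σ (Real.exp (w / 4)) (Real.exp t) 3 S (Real.exp w) m K P h5 (by linarith) hmlo
    (by rw [← hl]; exact hCm) (Real.one_le_exp (by positivity))
    (by rw [hDl]; exact Real.exp_le_exp.2 (by linarith)) (Real.one_le_exp ht0.le)
    (by rw [← Real.exp_nat_mul]; exact Real.exp_le_exp.2 hK1) hL.symm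
    (by
      rw [← Real.exp_nat_mul]
      have h6 : Real.exp (((K + 1 : ℕ) : ℝ) * t) ≤ Real.exp w := by
        apply Real.exp_le_exp.2
        push_cast
        linarith
      have := Real.exp_pos w
      linarith) (by norm_num) hN hlD
  rw [hL2, ← hl, Real.log_exp] at hT
  have hσD : D ^ σ = Real.exp (l ^ (3 / 2 - δ)) := by
    rw [Real.rpow_def_of_pos hD0, ← hl]
    congr 1
    rw [hσ]
    calc l * l ^ (1 / 2 - δ) = l ^ (1 : ℝ) * l ^ (1 / 2 - δ) := by rw [Real.rpow_one]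
      _ = l ^ (3 / 2 - δ) := by rw [← Real.rpow_add hl0]; congr 1; ring
  rw [hσD] at hT
  have h3K : ((3 : ℝ) ^ (K + 1))⁻¹ ≤ Real.exp (-((K + 1 : ℕ) : ℝ)) := by
    rw [Real.exp_neg]
    apply inv_anti₀ (Real.exp_pos _)
    have h6 : Real.exp (((K + 1 : ℕ) : ℝ)) = Real.exp 1 ^ (K + 1) := by
      rw [← Real.exp_nat_mul, mul_one]
    rw [h6]
    apply pow_le_pow_left₀ (Real.exp_pos _).le
    have := Real.exp_one_lt_d9
    linarith
  have hpar := params (C := C) (l := l) (t := t) (w := w) (σ := σ) (m := m)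
    (z := Real.exp (w / 4)) (k := k) (K := ((K + 1 : ℕ) : ℝ)) (e := Real.exp (-t)) hC h4 hσ1 hσl hm1
    (by
      refine hmhi.trans ?_
      exact mul_le_mul_of_nonneg_left hσ2l (by linarith)) ht1 htw rfl rfl hK3
  refine hT.trans (le_trans ?_ (hpar.trans ?_))
  · gcongr
  · exact mul_le_mul_of_nonneg_left hA (Real.exp_pos _).le

end Pool.Agent.H45.PF
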