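import Pool.Agent.H45.PF.SIDE

/-! The fundamental solutions with one relation, with `x - 1` or with `x + 1`. -/

set_option autoImplicit false

namespace Pool.Agent.H45.PF

open Polynomial Pool.Agent.W223.HZ Pool.Agent.W223.PL Pool.Agent.Q276.PL Pool.Agent.Q109.PLJ

/-- a bound for the value of a polynomial -/
theorem evb (P : ℤ[X]) (n : ℕ) (B L : ℝ) (hP : P.natDegree < n)
    (hB : ∀ k, |(P.coeff k : ℝ)| ≤ B) (hL : 1 ≤ L) (t : ℤ) (ht : |(t : ℝ)| ≤ L) :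
    |((P.eval t : ℤ) : ℝ)| ≤ n * B * L ^ n := by
  have hB0 : 0 ≤ B := (abs_nonneg _).trans (hB 0)
  rw [Polynomial.eval_eq_sum_range' hP]
  push_cast
  refine (Finset.abs_sum_le_sum_abs _ _).trans ?_
  calc ∑ k ∈ Finset.range n, |(P.coeff k : ℝ) * (t : ℝ) ^ k|
      ≤ ∑ k ∈ Finset.range n, B * L ^ n := by
        apply Finset.sum_le_sum
        intro k hk
        rw [abs_mul, abs_pow]
        apply mul_le_mul (hB k) _ (by positivity) hB0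
        calc |(t : ℝ)| ^ k ≤ L ^ k := pow_le_pow_left₀ (abs_nonneg _) ht k
          _ ≤ L ^ n := pow_le_pow_right₀ hL (by have := Finset.mem_range.1 hk; omega)
    _ = n * B * L ^ n := by
        rw [Finset.sum_const, Finset.card_range, nsmul_eq_mul]
        ring

theorem clf (k : ℕ) (l : ℤ[X]) (hl : Fam k l) (m n : ℕ) (η : ℤ) (L z Λ H : ℝ) (T : Finset ℤ)
    (x y : ℤ → ℤ) (P Q : ℤ[X]) (hkm : k ≤ m) (hm : 1 ≤ m) (hn : n = 2 * m)
    (hη : η = 1 ∨ η = -1) (hL : 1 ≤ L) (hz : 1 ≤ z) (hΛ : 1 ≤ Λ) (hmΛ : (3 * n : ℝ) ≤ Λ)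
    (hH : 1 ≤ H) (hlc : ∀ i, |(l.coeff i : ℝ)| ≤ H)
    (hT : ∀ τ ∈ T, |(τ : ℝ)| ≤ L ∧ 2 ≤ l.eval τ ∧ Squarefree (l.eval τ) ∧
      Fund (l.eval τ) (x τ) (y τ))
    (hb : ∀ τ ∈ T, ∀ j < n, |(((x τ + 1) * τ ^ j : ℤ) : ℝ)| ≤ H ∧
      |((y τ * τ ^ j : ℤ) : ℝ)| ≤ H)
    (hPQ : P ≠ 0 ∨ Q ≠ 0) (hPm : P.natDegree < m) (hQm : Q.natDegree < m)
    (hrel : ∀ τ ∈ T, (x τ - η) * P.eval τ + y τ * Q.eval τ = 0)
    (hexp : 2 * z * (n * (2 * n * H) ^ (2 * n) * L ^ n) ≤ Real.exp Λ) :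
    ∃ M : ℤ, M ≠ 0 ∧ |(M : ℝ)| ≤ ((2 * n + 2) * (2 * n * H) ^ (2 * n)) ^ (2 * n + 2) ∧
      ∃ E ⊆ T, (E.card : ℝ) ≤ 2 * (n : ℝ) ^ 2 +
        800000 * z * √L * Λ ^ 2 * Real.log (120 * √L * Λ) ∧
      ∀ τ ∈ T \ E, z < (Int.gcd (l.eval τ) M : ℝ) := by
  have hn1 : (1 : ℝ) ≤ n := by
    have : 1 ≤ n := by omega
    exact_mod_cast this
  have hl0 : l ≠ 0 := by
    rintro rfl
    have := hl.irr.ne_zero
    simp at this
  -- the two relations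
  have key : ∃ A B A' B' : ℤ[X], (A ≠ 0 ∨ B ≠ 0) ∧ (A' ≠ 0 ∨ B' ≠ 0) ∧ A.natDegree < n ∧
      B.natDegree < n ∧ A'.natDegree < n ∧ B'.natDegree < n ∧
      (∀ τ ∈ T, (x τ - 1) * A.eval τ + y τ * B.eval τ = 0) ∧
      (∀ τ ∈ T, (x τ + 1) * A'.eval τ + y τ * B'.eval τ = 0) := by
    have hmul : (l * P).natDegree < n := by
      refine lt_of_le_of_lt Polynomial.natDegree_mul_le ?_
      have := hl.deg
      omega
    have hne : Q ≠ 0 ∨ l * P ≠ 0 := by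
      rcases hPQ with h | h
      · right
        exact mul_ne_zero hl0 h
      · left; exact h
    have hsec : ∀ τ ∈ T, (x τ + η) * Q.eval τ + y τ * (l * P).eval τ = 0 := by
      intro τ hτ
      obtain ⟨-, -, -, hx1, hy1, hpell, -⟩ := hT τ hτ
      have h1 := hrel τ hτ
      have hη2 : η ^ 2 = 1 := by rcases hη with h | h <;> rw [h] <;> norm_num
      have hy0 : y τ ≠ 0 := by omega
      apply mul_left_cancel₀ hy0
      rw [mul_zero, eval_mul]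
      linear_combination (x τ + η) * h1 - P.eval τ * hpell + P.eval τ * hη2
    rcases hη with h | h
    · refine ⟨P, Q, Q, l * P, hPQ, hne, by omega, by omega, by omega, hmul, ?_, ?_⟩
      · intro τ hτ
        have := hrel τ hτ
        rwa [h] at this
      · intro τ hτ
        have := hsec τ hτ
        rwa [h] at this
    · refine ⟨Q, l * P, P, Q, hne, hPQ, by omega, hmul, by omega, by omega, ?_, ?_⟩
      · intro τ hτ
        have := hsec τ hτ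
        rw [h] at this
        linear_combination this
      · intro τ hτ
        have := hrel τ hτ
        rw [h] at this
        linear_combination this
  obtain ⟨A, B, A', B', hAB, hAB', hA, hB, hA', hB', hr, hr'⟩ := key
  have hR2D := Pool.Agent.Q94.PL.r2d
  have hMIN := Pool.Agent.Q182.PL.min
  have hdet := hR2D n T (fun τ => x τ - 1) y A B hAB hA hB hr
  have hdet' := hR2D n T (fun τ => x τ + 1) y A' B' hAB' hA' hB' hr'
  have hbx : ∀ τ ∈ T, ∀ j < n, |(((x τ - 1) * τ ^ j : ℤ) : ℝ)| ≤ H ∧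
      |((y τ * τ ^ j : ℤ) : ℝ)| ≤ H := by
    intro τ hτ j hj
    obtain ⟨-, -, -, hx1, hy1, hpell, -⟩ := hT τ hτ
    refine ⟨le_trans ?_ (hb τ hτ j hj).1, (hb τ hτ j hj).2⟩
    push_cast
    rw [abs_mul, abs_mul]
    apply mul_le_mul_of_nonneg_right _ (abs_nonneg _)
    have hx1' : (1 : ℝ) ≤ x τ := by exact_mod_cast hx1
    rw [abs_of_nonneg (by linarith), abs_of_nonneg (by linarith)]
    linarith
  obtain ⟨T₁, hT₁, hc₁, P₁, Q₁, -, hP₁, hQ₁, hcP₁, hcQ₁, hco₁, hre₁⟩ :=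
    hMIN n (by omega) T (fun τ => x τ - 1) y H hH hbx hdet
  obtain ⟨T₂, hT₂, hc₂, P₂, Q₂, -, hP₂, hQ₂, hcP₂, hcQ₂, hco₂, hre₂⟩ :=
    hMIN n (by omega) T (fun τ => x τ + 1) y H hH hb hdet'
  obtain ⟨W, hW⟩ : ∃ W : ℝ, W = (2 * (n : ℝ) * H) ^ (2 * n) := ⟨_, rfl⟩
  rw [← hW] at hexp hcP₁ hcQ₁ hcP₂ hcQ₂ ⊢
  have h2nH : 1 ≤ 2 * (n : ℝ) * H := by nlinarith
  have hHW : H ≤ W := by
    rw [hW]
    refine le_trans ?_ (le_self_pow₀ h2nH (by omega))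
    nlinarith
  have hW1 : 1 ≤ W := hH.trans hHW
  have hz0 : 0 < z := by linarith
  have hval : ∀ (R : ℤ[X]) (t : ℤ), R.natDegree < n → (∀ k, |(R.coeff k : ℝ)| ≤ W) →
      |(t : ℝ)| ≤ L → 2 * z * |((R.eval t : ℤ) : ℝ)| ≤ Real.exp Λ := by
    intro R t hR hc ht
    refine le_trans ?_ hexp
    exact mul_le_mul_of_nonneg_left (evb R n W L hR hc hL t ht) (by positivity)
  have hsub₁ : T₁ ∩ T₂ ⊆ T := Finset.inter_subset_left.trans hT₁
  obtain ⟨M, hM0, hM, E, hE, hEc, hE1⟩ := sidef k l hl n L z Λ W (T₁ ∩ T₂) x y P₁ Q₁ P₂ Q₂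
    (by omega) (by omega) hL hz hΛ hmΛ hW1 (fun i => (hlc i).trans hHW) hcP₁ hcQ₁
    (fun τ hτ => hT τ (hsub₁ hτ)) hP₁ hQ₁ hP₂ hQ₂ hco₁ hco₂
    (fun τ hτ => hre₁ τ (Finset.mem_inter.1 hτ).1) (fun τ hτ => hre₂ τ (Finset.mem_inter.1 hτ).2)
    (by
      intro τ hτ
      have h1 := (hT τ (hsub₁ hτ)).1
      exact ⟨hval P₁ τ hP₁ hcP₁ h1, hval P₂ τ hP₂ hcP₂ h1⟩)
  refine ⟨M, hM0, hM, E ∪ (T \ (T₁ ∩ T₂)), ?_, ?_, ?_⟩
  · exact Finset.union_subset (hE.trans hsub₁) Finset.sdiff_subset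
  · have h1 : (T \ (T₁ ∩ T₂)).card ≤ 2 * n ^ 2 := by
      have h3 : T \ (T₁ ∩ T₂) = (T \ T₁) ∪ (T \ T₂) := by
        ext a
        simp only [Finset.mem_sdiff, Finset.mem_inter, Finset.mem_union]
        tauto
      rw [h3]
      exact (Finset.card_union_le _ _).trans (by omega)
    have h2 : (E ∪ (T \ (T₁ ∩ T₂))).card ≤ E.card + 2 * n ^ 2 :=
      (Finset.card_union_le _ _).trans (by omega)
    have h3 : ((E ∪ (T \ (T₁ ∩ T₂))).card : ℝ) ≤ E.card + 2 * (n : ℝ) ^ 2 := by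
      exact_mod_cast h2
    linarith
  · intro τ hτ
    apply hE1
    rw [Finset.mem_sdiff, Finset.mem_union, Finset.mem_sdiff] at hτ
    rw [Finset.mem_sdiff]
    tauto

end Pool.Agent.H45.PF
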