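import Pool.Agent.H45.PF.BLKF

/-! The polynomial `f (c + X)`. -/

set_option autoImplicit false

namespace Pool.Agent.H45.PF

open Polynomial Pool.Agent.Q276.PL

/-- An irreducible polynomial of odd degree `k` whose leading coefficient is between `1` and `N ^ A`,
and dominates the others at `N`. -/
structure Dom (k A : ℕ) (N : ℝ) (f : ℤ[X]) : Prop where
  irr : Irreducible f
  deg : f.natDegree = k
  one_le : 1 ≤ f.leadingCoeff
  le_pow : (f.leadingCoeff : ℝ) ≤ N ^ A
  coef : ∀ j < k, |(f.coeff j : ℝ)| ≤ f.leadingCoeff * N ^ (k - j) / (4 * (k + 1))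

theorem Dom.mono {k A : ℕ} {N N' : ℝ} {f : ℤ[X]} (h : Dom k A N f) (hN : 1 ≤ N) (hNN : N ≤ N') :
    Dom k A N' f where
  irr := h.irr
  deg := h.deg
  one_le := h.one_le
  le_pow := h.le_pow.trans (pow_le_pow_left₀ (by linarith) hNN A)
  coef := by
    intro j hj
    refine (h.coef j hj).trans ?_
    have h1 : (1 : ℝ) ≤ f.leadingCoeff := by exact_mod_cast h.one_le
    have h2 : N ^ (k - j) ≤ N' ^ (k - j) := pow_le_pow_left₀ (by linarith) hNN _
    gcongr

theorem fam_taylor {k : ℕ} (hk : Odd k) {f : ℤ[X]} (hirr : Irreducible f) (hdeg : f.natDegree = k)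
    (c : ℤ) : Fam k (taylor c f) := by
  have hk0 : f.natDegree ≠ 0 := by
    rw [hdeg]
    rintro rfl
    simp at hk
  have hirr' : Irreducible (taylor c f) := by
    have h1 : taylor c f = (taylorEquiv c : ℤ[X] ≃ₐ[ℤ] ℤ[X]) f := by
      rw [← coe_taylorEquiv]
      rfl
    rw [h1]
    exact (MulEquiv.irreducible_iff (taylorEquiv c : ℤ[X] ≃ₐ[ℤ] ℤ[X])).2 hirr
  have hd : (taylor c f).natDegree = k := by rw [natDegree_taylor, hdeg]
  have hprim : (taylor c f).IsPrimitive := hirr'.isPrimitive (by rw [natDegree_taylor]; exact hk0)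
  exact ⟨hd.le, (IsPrimitive.Int.irreducible_iff_irreducible_map_cast hprim).1 hirr',
    by rw [hd]; exact hk, hprim⟩

theorem coef_le {k A : ℕ} {N : ℝ} {f : ℤ[X]} (h : Dom k A N f) (hN : 1 ≤ N) {c : ℝ} (hc : N ≤ c)
    (j : ℕ) (hj : j ≤ k) : |(f.coeff j : ℝ)| ≤ f.leadingCoeff * c ^ (k - j) := by
  have h1 : (1 : ℝ) ≤ f.leadingCoeff := by exact_mod_cast h.one_le
  have h2 : N ^ (k - j) ≤ c ^ (k - j) := pow_le_pow_left₀ (by linarith) hc _
  rcases Nat.lt_or_ge j k with hj' | hj'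
  · refine (h.coef j hj').trans ?_
    have h3 : (f.leadingCoeff : ℝ) * N ^ (k - j) / (4 * (k + 1)) ≤ f.leadingCoeff * N ^ (k - j) := by
      apply div_le_self (by positivity)
      have : (0 : ℝ) ≤ k := Nat.cast_nonneg k
      linarith
    refine h3.trans ?_
    gcongr
  · have : j = k := by omega
    subst this
    rw [Nat.sub_self, pow_zero, mul_one, ← h.deg, coeff_natDegree, abs_of_nonneg (by linarith)]

/-- the values of the polynomial -/
theorem eval_near {k A : ℕ} {N : ℝ} {f : ℤ[X]} (h : Dom k A N f) (hN : 1 ≤ N) (c : ℤ)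
    (hc : N ≤ c) : 3 / 4 * ((f.leadingCoeff : ℝ) * (c : ℝ) ^ k) ≤ ((f.eval c : ℤ) : ℝ) ∧
      ((f.eval c : ℤ) : ℝ) ≤ 5 / 4 * ((f.leadingCoeff : ℝ) * (c : ℝ) ^ k) := by
  have h1 : (1 : ℝ) ≤ f.leadingCoeff := by exact_mod_cast h.one_le
  have hc0 : (0 : ℝ) < c := by linarith
  have hk0 : (0 : ℝ) ≤ k := Nat.cast_nonneg k
  have h2 : ((f.eval c : ℤ) : ℝ) = ∑ i ∈ Finset.range (k + 1), (f.coeff i : ℝ) * (c : ℝ) ^ i := by
    rw [Polynomial.eval_eq_sum_range' (n := k + 1) (by have := h.deg; omega)]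
    push_cast
    rfl
  have h3 : (f.coeff k : ℝ) = f.leadingCoeff := by
    rw [← h.deg, coeff_natDegree]
  have h4 : |∑ i ∈ Finset.range k, (f.coeff i : ℝ) * (c : ℝ) ^ i| ≤
      1 / 4 * ((f.leadingCoeff : ℝ) * (c : ℝ) ^ k) := by
    refine (Finset.abs_sum_le_sum_abs _ _).trans ?_
    calc ∑ i ∈ Finset.range k, |(f.coeff i : ℝ) * (c : ℝ) ^ i|
        ≤ ∑ i ∈ Finset.range k, ((f.leadingCoeff : ℝ) * (c : ℝ) ^ k) / (4 * (k + 1)) := by
          apply Finset.sum_le_sum
          intro i hi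
          rw [Finset.mem_range] at hi
          rw [abs_mul, abs_of_nonneg (pow_nonneg hc0.le i)]
          have h5 := h.coef i hi
          have h6 : N ^ (k - i) ≤ (c : ℝ) ^ (k - i) := pow_le_pow_left₀ (by linarith) hc _
          calc |(f.coeff i : ℝ)| * (c : ℝ) ^ i
              ≤ (f.leadingCoeff * N ^ (k - i) / (4 * (k + 1))) * (c : ℝ) ^ i :=
                mul_le_mul_of_nonneg_right h5 (by positivity)
            _ ≤ (f.leadingCoeff * (c : ℝ) ^ (k - i) / (4 * (k + 1))) * (c : ℝ) ^ i := by gcongr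
            _ = ((f.leadingCoeff : ℝ) * ((c : ℝ) ^ (k - i) * (c : ℝ) ^ i)) / (4 * (k + 1)) := by
                ring
            _ = ((f.leadingCoeff : ℝ) * (c : ℝ) ^ k) / (4 * (k + 1)) := by
                rw [← pow_add, Nat.sub_add_cancel hi.le]
      _ = (k / (k + 1)) * (1 / 4 * ((f.leadingCoeff : ℝ) * (c : ℝ) ^ k)) := by
          rw [Finset.sum_const, Finset.card_range, nsmul_eq_mul]
          field_simp
      _ ≤ 1 * (1 / 4 * ((f.leadingCoeff : ℝ) * (c : ℝ) ^ k)) := by
          apply mul_le_mul_of_nonneg_right _ (by positivity)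
          rw [div_le_one (by positivity)]
          linarith
      _ = _ := one_mul _
  rw [h2, Finset.sum_range_succ, h3]
  rw [abs_le] at h4
  constructor <;> linarith [h4.1, h4.2]

/-- the coefficients of the shifted polynomial -/
theorem coeff_taylor_le {k A : ℕ} {N : ℝ} {f : ℤ[X]} (h : Dom k A N f) (hN : 1 ≤ N) (c : ℤ)
    (hc : N ≤ c) (i : ℕ) (hi : i ≤ k) : |((taylor c f).coeff i : ℝ)| ≤
      (k + 1) * 2 ^ k * ((f.leadingCoeff : ℝ) * (c : ℝ) ^ (k - i)) := by
  have h1 : (1 : ℝ) ≤ f.leadingCoeff := by exact_mod_cast h.one_le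
  have hc0 : (0 : ℝ) < c := by linarith
  have h2 : ((taylor c f).coeff i : ℝ) = ∑ j ∈ Finset.range (k + 1),
      ((j.choose i : ℕ) : ℝ) * (f.coeff j : ℝ) * (c : ℝ) ^ (j - i) := by
    rw [taylor_coeff, hasseDeriv_apply, sum_over_range' _ _ (k + 1) (by have := h.deg; omega)]
    · rw [eval_finsetSum]
      push_cast
      apply Finset.sum_congr rfl
      intro j _
      simp
    · intro n
      simp
  rw [h2]
  refine (Finset.abs_sum_le_sum_abs _ _).trans ?_
  calc ∑ j ∈ Finset.range (k + 1), |((j.choose i : ℕ) : ℝ) * (f.coeff j : ℝ) * (c : ℝ) ^ (j - i)|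
      ≤ ∑ j ∈ Finset.range (k + 1), 2 ^ k * ((f.leadingCoeff : ℝ) * (c : ℝ) ^ (k - i)) := by
        apply Finset.sum_le_sum
        intro j hj
        rw [Finset.mem_range] at hj
        rcases Nat.lt_or_ge j i with hji | hji
        · rw [Nat.choose_eq_zero_of_lt hji]
          simp only [Nat.cast_zero, zero_mul, abs_zero]
          positivity
        · rw [abs_mul, abs_mul, abs_of_nonneg (pow_nonneg hc0.le _), Nat.abs_cast]
          have h3 : ((j.choose i : ℕ) : ℝ) ≤ 2 ^ k := by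
            have h4 : j.choose i ≤ 2 ^ j := by
              rcases Nat.lt_or_ge j i with h5 | h5
              · rw [Nat.choose_eq_zero_of_lt h5]
                exact Nat.zero_le _
              · rw [← Nat.sum_range_choose]
                exact Finset.single_le_sum (f := fun x => j.choose x)
                  (fun _ _ => Nat.zero_le _) (Finset.mem_range.2 (by omega))
            have h5 : j.choose i ≤ 2 ^ k := h4.trans (Nat.pow_le_pow_right (by norm_num) (by omega))
            exact_mod_cast h5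
          have h4 := coef_le h hN hc j (by omega)
          calc ((j.choose i : ℕ) : ℝ) * |(f.coeff j : ℝ)| * (c : ℝ) ^ (j - i)
              ≤ 2 ^ k * (f.leadingCoeff * (c : ℝ) ^ (k - j)) * (c : ℝ) ^ (j - i) := by gcongr
            _ = 2 ^ k * (f.leadingCoeff * ((c : ℝ) ^ (k - j) * (c : ℝ) ^ (j - i))) := by ring
            _ = 2 ^ k * ((f.leadingCoeff : ℝ) * (c : ℝ) ^ (k - i)) := by
                rw [← pow_add]
                congr 4
                omega
    _ = _ := by
        rw [Finset.sum_const, Finset.card_range, nsmul_eq_mul]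
        push_cast
        ring

/-- the hypotheses at `c` -/
theorem near_taylor {k A : ℕ} (hk : Odd k) {N : ℝ} {f : ℤ[X]} (h : Dom k A N f) (hN : 1 ≤ N)
    (ε : ℝ) (hε : 0 ≤ ε) (hS : (N ^ (A + k)) ^ ε ≤ N / (8 * (k + 1) ^ 2 * 2 ^ k)) (c : ℤ)
    (hc : N ≤ c) (hc2 : (c : ℝ) ≤ (1 + 1 / (8 * k)) * N) :
    Near k ε (3 / 4 * (f.leadingCoeff * N ^ k)) (N / (8 * (k + 1) ^ 2 * 2 ^ k)) (taylor c f) := by
  have h1 : (1 : ℝ) ≤ f.leadingCoeff := by exact_mod_cast h.one_le
  have hc0 : (0 : ℝ) < c := by linarith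
  have hN0 : 0 < N := by linarith
  have hk1 : 1 ≤ k := hk.pos
  have hk1' : (1 : ℝ) ≤ k := by exact_mod_cast hk1
  have hev := eval_near h hN c hc
  have hcoef0 : (((taylor c f).coeff 0 : ℤ) : ℝ) = ((f.eval c : ℤ) : ℝ) := by
    rw [taylor_coeff_zero]
  have hNk : N ^ k ≤ (c : ℝ) ^ k := pow_le_pow_left₀ hN0.le hc k
  refine ⟨fam_taylor hk h.irr h.deg c, ?_, ?_, ?_, ?_⟩
  · refine le_trans ?_ hS
    apply Real.rpow_le_rpow (by positivity) _ hε
    have h2 : (f.leadingCoeff : ℝ) * N ^ k ≤ N ^ A * N ^ k :=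
      mul_le_mul_of_nonneg_right h.le_pow (by positivity)
    rw [pow_add]
    have h3 : 0 < (f.leadingCoeff : ℝ) * N ^ k := by positivity
    linarith
  · rw [hcoef0]
    refine le_trans ?_ hev.1
    gcongr
  · rw [hcoef0]
    refine hev.2.trans ?_
    have h2 : (c : ℝ) ^ k ≤ 6 / 5 * N ^ k := by
      calc (c : ℝ) ^ k ≤ ((1 + 1 / (8 * k)) * N) ^ k := pow_le_pow_left₀ hc0.le hc2 k
        _ = (1 + 1 / (8 * (k : ℝ))) ^ k * N ^ k := mul_pow _ _ _
        _ ≤ 6 / 5 * N ^ k := by
            apply mul_le_mul_of_nonneg_right _ (by positivity)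
            have h3 : 1 + 1 / (8 * (k : ℝ)) ≤ Real.exp (1 / (8 * (k : ℝ))) := by
              rw [add_comm]
              exact Real.add_one_le_exp _
            calc (1 + 1 / (8 * (k : ℝ))) ^ k ≤ Real.exp (1 / (8 * (k : ℝ))) ^ k :=
                  pow_le_pow_left₀ (by positivity) h3 k
              _ = Real.exp (1 / 8) := by
                  rw [← Real.exp_nat_mul]
                  congr 1
                  field_simp
              _ ≤ 6 / 5 := by
                  have h4 := Real.add_one_le_exp (-(1 / 8 : ℝ))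
                  rw [Real.exp_neg] at h4
                  have h5 : 0 < Real.exp (1 / 8) := Real.exp_pos _
                  have h6 : (7 / 8 : ℝ) * Real.exp (1 / 8) ≤ 1 := by
                    have h7 := mul_le_mul_of_nonneg_right h4 h5.le
                    rw [inv_mul_cancel₀ h5.ne'] at h7
                    linarith
                  linarith
    calc 5 / 4 * ((f.leadingCoeff : ℝ) * (c : ℝ) ^ k)
        ≤ 5 / 4 * ((f.leadingCoeff : ℝ) * (6 / 5 * N ^ k)) := by gcongr
      _ = 2 * (3 / 4 * (f.leadingCoeff * N ^ k)) := by ring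
  · intro i hi
    rw [hcoef0]
    rcases Nat.lt_or_ge k i with hik | hik
    · rw [coeff_eq_zero_of_natDegree_lt (by rw [natDegree_taylor, h.deg]; exact hik)]
      simp only [Int.cast_zero, abs_zero, zero_mul]
      have : 0 ≤ ((f.eval c : ℤ) : ℝ) := le_trans (by positivity) hev.1
      positivity
    obtain ⟨E, hE⟩ : ∃ E : ℝ, E = 8 * ((k : ℝ) + 1) ^ 2 * 2 ^ k := ⟨_, rfl⟩
    rw [← hE]
    have hE1 : 1 ≤ E := by
      rw [hE]
      have h2 : (1 : ℝ) ≤ 2 ^ k := one_le_pow₀ (by norm_num)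
      have h3 : (1 : ℝ) ≤ ((k : ℝ) + 1) ^ 2 := one_le_pow₀ (by linarith)
      nlinarith
    have hE0 : 0 < E := by linarith
    have h2 := coeff_taylor_le h hN c hc i hik
    have h3 : (N / E) ^ i ≤ (c : ℝ) ^ i / E := by
      rw [div_pow]
      have h4 : N ^ i ≤ (c : ℝ) ^ i := pow_le_pow_left₀ hN0.le hc i
      have h5 : E ≤ E ^ i := le_self_pow₀ hE1 (by omega)
      calc N ^ i / E ^ i ≤ (c : ℝ) ^ i / E ^ i := by gcongr
        _ ≤ (c : ℝ) ^ i / E := by gcongr
    calc |((taylor c f).coeff i : ℝ)| * (N / E) ^ i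
        ≤ ((k + 1) * 2 ^ k * ((f.leadingCoeff : ℝ) * (c : ℝ) ^ (k - i))) * ((c : ℝ) ^ i / E) := by
          apply mul_le_mul h2 h3 (by positivity) (by positivity)
      _ = ((k + 1) * 2 ^ k / E) * ((f.leadingCoeff : ℝ) * ((c : ℝ) ^ (k - i) * (c : ℝ) ^ i)) := by
          ring
      _ = ((k + 1) * 2 ^ k / E) * ((f.leadingCoeff : ℝ) * (c : ℝ) ^ k) := by
          rw [← pow_add, Nat.sub_add_cancel hik]
      _ = (1 / (8 * (k + 1))) * ((f.leadingCoeff : ℝ) * (c : ℝ) ^ k) := by
          congr 1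
          rw [hE]
          field_simp
      _ ≤ (3 / 4 / (4 * (k + 1))) * ((f.leadingCoeff : ℝ) * (c : ℝ) ^ k) := by
          apply mul_le_mul_of_nonneg_right _ (by positivity)
          rw [div_div, div_le_div_iff₀ (by positivity) (by positivity)]
          linarith
      _ = (3 / 4 * ((f.leadingCoeff : ℝ) * (c : ℝ) ^ k)) / (4 * (k + 1)) := by ring
      _ ≤ ((f.eval c : ℤ) : ℝ) / (4 * (k + 1)) := by
          apply div_le_div_of_nonneg_right hev.1 (by positivity)

end Pool.Agent.H45.PF
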